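import Pool.Agent.Work.MP_215640_nt.Basic

/-!
Definitions for the parity word theorem in short intervals (problem MP_215640_nt).
-/

set_option autoImplicit false

namespace Pool.Agent.Work.MP_215640_nt

open Finset Polynomial Filter

/-- parameters for the analysis of level `i` in short intervals; here `om = cc w i / M` -/
structure IsCtx2 (w : ℕ → Bool) (K i : ℕ) (mu : ℝ) (M : ℕ) : Prop where
  one_le_i : 1 ≤ i
  i_le : i ≤ K
  one_le_M : 1 ≤ M
  c_lt_M : cc w i < M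
  mu_pos : 0 < mu
  mu_le : mu ≤ cc w i / M
  lower : ∀ j, 1 ≤ j → j ≤ K → cc w j < cc w i →
    dg w (cc w i / M) j < M ∧ mu ≤ cc w j - cc w i / M * dg w (cc w i / M) j
  anc : ∀ s, (pr w)^[s] i ≠ 0 → cc w i / M ≤ cc w ((pr w)^[s] i)

/-- half the top coefficient of level `i` on the progression with base `a` and difference `T` -/
noncomputable def lam2 (w : ℕ → Bool) (i M T a : ℕ) : ℝ :=
  1 / 2 * (Pst w (dg w (cc w i / M)) i).coeff M * (a : ℝ) ^ (cc w i - M) * (T : ℝ) ^ M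

/-- intervals of length `N ^ (1 - c)` are long enough for the analysis of the levels `1, ..., K` -/
def Adm (w : ℕ → Bool) (K : ℕ) (c : ℝ) : Prop :=
  ∀ i, 1 ≤ i → i ≤ K → ∃ M : ℕ, Nat.Coprime M 6 ∧ cc w i < M ∧ c < cc w i / M ∧
    ∀ s, (pr w)^[s] i ≠ 0 → cc w i / M ≤ cc w ((pr w)^[s] i)

/-- the averages of `f` over the intervals `[N, N + H)`, `N ^ (1 - c) ≤ H ≤ N ^ (1 - c / 2)`,
tend to `0` -/
def SA (c : ℝ) (f : ℕ → ℝ) : Prop :=
  ∀ ε : ℝ, 0 < ε → ∀ᶠ N : ℕ in atTop, ∀ H : ℕ, (N : ℝ) ^ (1 - c) ≤ H →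
    (H : ℝ) ≤ (N : ℝ) ^ (1 - c / 2) → |∑ n ∈ Ico N (N + H), f n| ≤ ε * H

end Pool.Agent.Work.MP_215640_nt
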