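import Pool.Agent.Work.MP_215640_nt.S.Defs2
import Pool.Agent.Work.MP_215640_nt.Absorb

/-!
MODULE FIBRE. The fibres of a word whose exponent `c = cc w k` is smaller than all previous ones.

Proof. `pr w k = 0`, so `gam w k = c` and `|xx w k n - n^c| ≤ ε1` for large `n` (`absorb`, `F_zero`).
Put `N = ⌈(m + 2 ε1)^(1/c)⌉₊`, `N + H = ⌊(m + 1 - 2 ε1)^(1/c)⌋₊` (`Ico`): for `n ∈ [N, N+H)` we have
`m + 2 ε1 ≤ n^c < m + 1 - 2 ε1`, so `F w k n = m`; also `m^(1/c) ≤ n` and `n + 1 ≤ N + H ≤ (m+1)^(1/c)`.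
`H ~ (1 - 4 ε1) (1/c) m^(1/c - 1)`, `N ~ m^(1/c)`, so `N^(1-c) ≤ H ≤ N` for large `m` (`1/c > 2`). By the
hypothesis the number of `n` with the pattern is `≥ ((1/2)^k - ε2) H`, and `1/n ≥ (m+1)^(-1/c)`.
(`((m+1)/m)^(1/c) → 1`; mean value theorem or `Real.one_add_mul_self_le_rpow_one_add` for `H`.)
-/

set_option autoImplicit false

namespace Pool.Agent.Work.MP_215640_nt

open Finset Polynomial Filter

/-- Bernoulli. -/
private theorem fibre_bern {γ x δ : ℝ} (hγ : 1 ≤ γ) (hx : 0 < x) (hδ : 0 ≤ δ) :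
    x ^ γ + γ * δ * x ^ (γ - 1) ≤ (x + δ) ^ γ := by
  have h1 := one_add_mul_self_le_rpow_one_add (s := δ / x) (by
    have : 0 ≤ δ / x := by positivity
    linarith) hγ
  have h2 : x + δ = x * (1 + δ / x) := by field_simp
  rw [h2, Real.mul_rpow hx.le (by positivity)]
  have h3 : x ^ γ = x ^ (γ - 1) * x := by
    rw [← Real.rpow_add_one hx.ne']; congr 1; ring
  have h4 : 0 < x ^ γ := by positivity
  calc x ^ γ + γ * δ * x ^ (γ - 1) = x ^ γ * (1 + γ * (δ / x)) := by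
        rw [h3]; field_simp
    _ ≤ x ^ γ * (1 + δ / x) ^ γ := by gcongr

open Classical in
theorem fibre_sum (w : ℕ → Bool) (k : ℕ) (hk : 1 ≤ k) (hpr : pr w k = 0) (hc : cc w k < 1 / 2)
    (H : ∀ ε : ℝ, 0 < ε → ∀ᶠ N : ℕ in atTop, ∀ H : ℕ, (N : ℝ) ^ (1 - cc w k) ≤ H → H ≤ N →
      |(((Ico N (N + H)).filter (fun n => Pat w w (range k) n)).card : ℝ)
        - (1 / 2) ^ k * H| ≤ ε * H) :
    ∀ ε : ℝ, 0 < ε → ∀ᶠ m : ℕ in atTop, ∃ s : Finset ℕ,
      (∀ n ∈ s, 1 ≤ n ∧ Pat w w (range k) n ∧ F w k n = m ∧ (m : ℝ) ^ (1 / cc w k) ≤ n ∧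
        (n : ℝ) + 1 ≤ ((m : ℝ) + 1) ^ (1 / cc w k)) ∧
      (1 - ε) * (1 / 2) ^ k / (cc w k * m) ≤ ∑ n ∈ s, (1 : ℝ) / n := by
  intro ε hε
  obtain ⟨c, hcdef⟩ : ∃ c : ℝ, c = cc w k := ⟨_, rfl⟩
  rw [← hcdef] at H hc ⊢
  have hcpos : 0 < c := by rw [hcdef]; exact cc_pos _ _
  by_cases hε1 : 1 ≤ ε
  · filter_upwards [eventually_gt_atTop 0] with m hm
    refine ⟨∅, by simp, ?_⟩
    rw [sum_empty]
    have hm' : (0 : ℝ) < m := by exact_mod_cast hm
    apply div_nonpos_of_nonpos_of_nonneg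
    · exact mul_nonpos_of_nonpos_of_nonneg (by linarith) (by positivity)
    · positivity
  push Not at hε1
  obtain ⟨γ, hγ⟩ : ∃ γ : ℝ, γ = 1 / c := ⟨_, rfl⟩
  rw [← hγ]
  have hγ2 : 2 ≤ γ := by
    rw [hγ, le_div_iff₀ hcpos]; linarith
  have hcγ : c * γ = 1 := by rw [hγ]; field_simp
  have hγc : γ * c = 1 := by rw [mul_comm]; exact hcγ
  obtain ⟨e, he⟩ : ∃ e : ℝ, e = ε / 40 := ⟨_, rfl⟩
  have he0 : 0 < e := by rw [he]; positivity
  have he1 : e ≤ 1 / 40 := by rw [he]; linarith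
  have hH := H ((1 / 2) ^ k * (ε / 4)) (by positivity)
  obtain ⟨N0, hN0⟩ := Filter.eventually_atTop.1 hH
  have hab := absorb w k hk e he0
  obtain ⟨n1, hn1⟩ := Filter.eventually_atTop.1 hab
  have hgam : gam w k = c := by unfold gam; rw [hpr, cc_zero, div_one, hcdef]
  -- eventual facts
  have ev1 : ∀ᶠ m : ℕ in atTop, (1 + 1 / (m : ℝ)) ^ γ ≤ 1 + e := by
    have h1 : Tendsto (fun m : ℕ => (1 + 1 / (m : ℝ)) ^ γ) atTop (nhds ((1 + 0) ^ γ)) := by
      refine Tendsto.rpow_const ?_ (Or.inl (by norm_num))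
      exact tendsto_const_nhds.add tendsto_one_div_atTop_nhds_zero_nat
    rw [add_zero, Real.one_rpow] at h1
    filter_upwards [h1.eventually (ge_mem_nhds (show (1 : ℝ) < 1 + e by linarith))] with m hm
    exact hm
  have ev2 : ∀ᶠ m : ℕ in atTop, 2 / e ≤ (m : ℝ) ^ (γ - 1) := by
    have h1 : Tendsto (fun m : ℕ => (m : ℝ) ^ (γ - 1)) atTop atTop :=
      (tendsto_rpow_atTop (by linarith)).comp tendsto_natCast_atTop_atTop
    exact h1.eventually_ge_atTop _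
  filter_upwards [ev1, ev2, eventually_ge_atTop (max (max N0 n1) 1)] with m hm1 hm2 hm3
  have hmN0 : N0 ≤ m := (le_max_left _ _).trans ((le_max_left _ _).trans hm3)
  have hmn1 : n1 ≤ m := (le_max_right _ _).trans ((le_max_left _ _).trans hm3)
  have hm1' : 1 ≤ m := (le_max_right _ _).trans hm3
  have hmr : (1 : ℝ) ≤ m := by exact_mod_cast hm1'
  have hm0 : (0 : ℝ) < m := by linarith
  obtain ⟨A, hA⟩ : ∃ A : ℝ, A = (m : ℝ) ^ (γ - 1) := ⟨_, rfl⟩
  rw [← hA] at hm2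
  have hApos : 0 < A := by rw [hA]; positivity
  have hmγ : (m : ℝ) ^ γ = m * A := by
    rw [hA, mul_comm, ← Real.rpow_add_one hm0.ne']; congr 1; ring
  have h2e : 2 ≤ e * A := by rw [div_le_iff₀ he0] at hm2; linarith
  -- `(m+1)^γ ≤ (1+e) m^γ`, `(m+1)^(γ-1) ≤ (1+e) A`
  have hm1γ : ((m : ℝ) + 1) ^ γ ≤ (1 + e) * (m * A) := by
    have h1 : (m : ℝ) + 1 = m * (1 + 1 / m) := by field_simp
    rw [h1, Real.mul_rpow hm0.le (by positivity), hmγ, mul_comm]
    gcongr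
  have hm1γ' : ((m : ℝ) + 1) ^ (γ - 1) ≤ (1 + e) * A := by
    have h1 : (m : ℝ) + 1 = m * (1 + 1 / m) := by field_simp
    rw [h1, Real.mul_rpow hm0.le (by positivity), ← hA, mul_comm]
    have h2 : (1 + 1 / (m : ℝ)) ^ (γ - 1) ≤ (1 + 1 / (m : ℝ)) ^ γ := by
      refine Real.rpow_le_rpow_of_exponent_le ?_ (by linarith)
      have : 0 ≤ 1 / (m : ℝ) := by positivity
      linarith
    have h3 := h2.trans hm1
    gcongr
  obtain ⟨N, hN⟩ : ∃ N : ℕ, N = ⌈((m : ℝ) + 2 * e) ^ γ⌉₊ := ⟨_, rfl⟩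
  obtain ⟨E, hE⟩ : ∃ E : ℕ, E = ⌊((m : ℝ) + 1 - 2 * e) ^ γ⌋₊ := ⟨_, rfl⟩
  have hxpos : 0 < (m : ℝ) + 2 * e := by positivity
  have hypos : 0 < (m : ℝ) + 1 - 2 * e := by linarith
  have hNlow : ((m : ℝ) + 2 * e) ^ γ ≤ N := by rw [hN]; exact Nat.le_ceil _
  have hNup : (N : ℝ) < ((m : ℝ) + 2 * e) ^ γ + 1 := by
    rw [hN]; exact Nat.ceil_lt_add_one (by positivity)
  have hElow : ((m : ℝ) + 1 - 2 * e) ^ γ < E + 1 := by
    rw [hE]; exact Nat.lt_floor_add_one _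
  have hEup : (E : ℝ) ≤ ((m : ℝ) + 1 - 2 * e) ^ γ := by
    rw [hE]; exact Nat.floor_le (by positivity)
  have hbern : ((m : ℝ) + 2 * e) ^ γ + γ * (1 - 4 * e) * A ≤ ((m : ℝ) + 1 - 2 * e) ^ γ := by
    have h1 := fibre_bern (γ := γ) (x := (m : ℝ) + 2 * e) (δ := 1 - 4 * e) (by linarith) hxpos
      (by linarith)
    have h2 : (m : ℝ) + 2 * e + (1 - 4 * e) = m + 1 - 2 * e := by ring
    rw [h2] at h1
    refine le_trans ?_ h1
    have h3 : A ≤ ((m : ℝ) + 2 * e) ^ (γ - 1) := by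
      rw [hA]; exact Real.rpow_le_rpow hm0.le (by linarith) (by linarith)
    have h4 : 0 ≤ γ * (1 - 4 * e) := mul_nonneg (by linarith) (by linarith)
    have h5 := mul_le_mul_of_nonneg_left h3 h4
    linarith
  have hHlow : γ * (1 - 5 * e) * A ≤ (E : ℝ) - N := by
    have h1 : e * A ≤ γ * (e * A) :=
      le_mul_of_one_le_left (by positivity) (by linarith)
    have h2 : γ * (1 - 4 * e) * A - γ * (e * A) = γ * (1 - 5 * e) * A := by ring
    linarith
  have hγA : 0 < γ * (1 - 5 * e) * A := by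
    have : 0 < 1 - 5 * e := by linarith
    positivity
  have hNE : N ≤ E := by
    have : (N : ℝ) ≤ E := by linarith
    exact_mod_cast this
  obtain ⟨Hn, hHn⟩ : ∃ Hn : ℕ, Hn = E - N := ⟨_, rfl⟩
  have hHr : (Hn : ℝ) = (E : ℝ) - N := by rw [hHn, Nat.cast_sub hNE]
  have hNHn : N + Hn = E := by omega
  have hmγN : (m : ℝ) * A ≤ N := by
    rw [← hmγ]
    exact (Real.rpow_le_rpow hm0.le (by linarith) (by linarith)).trans hNlow
  have hEm1 : (E : ℝ) ≤ ((m : ℝ) + 1) ^ γ :=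
    hEup.trans (Real.rpow_le_rpow hypos.le (by linarith) (by linarith))
  have hmN : (m : ℝ) ≤ N := by
    have hA1 : 1 ≤ A := by
      have := mul_le_mul_of_nonneg_right he1 hApos.le
      linarith
    exact (le_mul_of_one_le_right hm0.le hA1).trans hmγN
  have hmN' : m ≤ N := by exact_mod_cast hmN
  have hcond1 : (N : ℝ) ^ (1 - c) ≤ Hn := by
    rw [hHr]
    refine le_trans ?_ hHlow
    have h1 : (N : ℝ) ^ (1 - c) ≤ (((m : ℝ) + 1) ^ γ) ^ (1 - c) := by
      refine Real.rpow_le_rpow (by positivity) ?_ (by linarith)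
      have : (N : ℝ) ≤ E := by exact_mod_cast hNE
      linarith
    rw [← Real.rpow_mul (by positivity)] at h1
    have h2 : γ * (1 - c) = γ - 1 := by rw [mul_sub, mul_one, mul_comm, hcγ]
    rw [h2] at h1
    refine h1.trans (hm1γ'.trans ?_)
    have h3 : 1 + e ≤ γ * (1 - 5 * e) := by
      have := mul_le_mul_of_nonneg_right hγ2 (show 0 ≤ 1 - 5 * e by linarith)
      linarith
    exact mul_le_mul_of_nonneg_right h3 hApos.le
  have hcond2 : Hn ≤ N := by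
    have h1 : (Hn : ℝ) ≤ N := by
      rw [hHr]
      have h2 : (E : ℝ) ≤ (1 + e) * (m * A) := hEm1.trans hm1γ
      have h3 : 0 ≤ (m : ℝ) * A := by positivity
      have h4 := mul_le_mul_of_nonneg_right (show e ≤ 1 by linarith) h3
      have h5 : (1 + e) * (m * A) = m * A + e * (m * A) := by ring
      linarith
    exact_mod_cast h1
  have hcount := hN0 N (hmN0.trans hmN') Hn hcond1 hcond2
  rw [hNHn] at hcount
  refine ⟨(Ico N E).filter (fun n => Pat w w (range k) n), ?_, ?_⟩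
  · intro n hn
    obtain ⟨hnI, hpat⟩ := mem_filter.1 hn
    obtain ⟨hnN, hnE⟩ := mem_Ico.1 hnI
    have hnN' : (N : ℝ) ≤ n := by exact_mod_cast hnN
    have hnE' : (n : ℝ) + 1 ≤ E := by exact_mod_cast hnE
    have hn0 : (0 : ℝ) < n := by linarith
    refine ⟨?_, hpat, ?_, ?_, ?_⟩
    · exact hm1'.trans (hmN'.trans hnN)
    · -- the value
      have h1 := hn1 n (hmn1.trans (hmN'.trans hnN))
      rw [hpr, F_zero, hgam] at h1
      obtain ⟨h2, h3⟩ := abs_le.1 h1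
      have h4 : (m : ℝ) + 2 * e ≤ (n : ℝ) ^ c := by
        have h5 : ((m : ℝ) + 2 * e) = (((m : ℝ) + 2 * e) ^ γ) ^ c := by
          rw [← Real.rpow_mul hxpos.le, hγc, Real.rpow_one]
        rw [h5]
        exact Real.rpow_le_rpow (by positivity) (hNlow.trans hnN') hcpos.le
      have h6 : (n : ℝ) ^ c < (m : ℝ) + 1 - 2 * e := by
        have h5 : ((m : ℝ) + 1 - 2 * e) = (((m : ℝ) + 1 - 2 * e) ^ γ) ^ c := by
          rw [← Real.rpow_mul hypos.le, hγc, Real.rpow_one]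
        rw [h5]
        exact Real.rpow_lt_rpow hn0.le (by linarith) hcpos
      unfold F
      rw [Nat.floor_eq_iff (by linarith)]
      constructor <;> linarith
    · rw [hmγ]; linarith
    · linarith
  · -- the sum
    set s := (Ico N E).filter (fun n => Pat w w (range k) n) with hs
    have hcard : (1 / 2 : ℝ) ^ k * (1 - ε / 4) * Hn ≤ (s.card : ℝ) := by
      have h1 := (abs_le.1 hcount).1
      have h2 : (1 / 2 : ℝ) ^ k * (1 - ε / 4) * Hn =
          (1 / 2) ^ k * Hn - (1 / 2) ^ k * (ε / 4) * Hn := by ring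
      linarith
    have hsum : (s.card : ℝ) / ((1 + e) * (m * A)) ≤ ∑ n ∈ s, (1 : ℝ) / n := by
      have h1 : ∀ n ∈ s, 1 / ((1 + e) * (m * A)) ≤ (1 : ℝ) / n := by
        intro n hn
        obtain ⟨hnI, -⟩ := mem_filter.1 hn
        obtain ⟨hnN, hnE⟩ := mem_Ico.1 hnI
        have hnN' : (N : ℝ) ≤ n := by exact_mod_cast hnN
        have hnE' : (n : ℝ) + 1 ≤ E := by exact_mod_cast hnE
        have hn0 : (0 : ℝ) < n := by linarith
        apply one_div_le_one_div_of_le hn0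
        linarith
      have h2 := Finset.card_nsmul_le_sum s (fun n => (1 : ℝ) / n) _ h1
      rw [nsmul_eq_mul] at h2
      refine le_trans (le_of_eq ?_) h2
      rw [mul_one_div]
    refine le_trans ?_ hsum
    have hden : 0 < (1 + e) * (m * A) := by positivity
    rw [div_le_div_iff₀ (by positivity) hden]
    have h2k : (0 : ℝ) < (1 / 2) ^ k := by positivity
    have hq : 0 ≤ 1 - ε / 4 := by linarith
    have h3 : (1 / 2 : ℝ) ^ k * (1 - ε / 4) * (γ * (1 - 5 * e) * A) ≤ (s.card : ℝ) := by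
      refine le_trans ?_ hcard
      rw [hHr]
      gcongr
    have h4 : (1 - ε) * (1 + e) ≤ (1 - ε / 4) * (1 - 5 * e) := by
      have h5 : (1 - ε / 4) * (1 - 5 * (ε / 40)) - (1 - ε) * (1 + ε / 40) =
          3 / 5 * ε + 9 / 160 * ε ^ 2 := by ring
      have h6 : 0 ≤ 3 / 5 * ε + 9 / 160 * ε ^ 2 := by positivity
      rw [he]; linarith
    calc (1 - ε) * (1 / 2) ^ k * ((1 + e) * (m * A))
        = ((1 - ε) * (1 + e)) * ((1 / 2) ^ k * (m * A)) := by ring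
      _ ≤ ((1 - ε / 4) * (1 - 5 * e)) * ((1 / 2) ^ k * (m * A)) := by gcongr
      _ = ((1 / 2) ^ k * (1 - ε / 4) * (γ * (1 - 5 * e) * A)) * (c * m) := by
          have : γ * c = 1 := by rw [mul_comm]; exact hcγ
          calc ((1 - ε / 4) * (1 - 5 * e)) * ((1 / 2) ^ k * (m * A))
              = (γ * c) * (((1 - ε / 4) * (1 - 5 * e)) * ((1 / 2) ^ k * (m * A))) := by
                rw [this, one_mul]
            _ = _ := by ring
      _ ≤ (s.card : ℝ) * (c * m) := by gcongr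

end Pool.Agent.Work.MP_215640_nt
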