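import Pool.Agent.Work.MP_215640_nt.Walk

/-!
MODULE FIRSTPASS. First passage words below a threshold `θ`.

`FP θ K0` is the finite set of pairs `(s, A)`, `s ≤ K0`, `A ⊆ range s`, such that the word `wd A`
(`true` exactly on `A`) has its first exponent below `θ` at `s`. The word is continued by even steps.

`fp_mass`: for `v : Fin K0 → Bool` with `cc (ext v) K0 < θ` let `s` be the first index with
`cc (ext v) s < θ` (`Nat.find`) and `A = {j < s : v j}`; `cc (wd A) l = cc (ext v) l` for `l ≤ s`
(`cc` only depends on the steps before `l`), so `(s, A) ∈ FP θ K0`, and at most `2^(K0 - s)` words `v`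
have the same `(s, A)`. With `count_words`: `2^K0 (1 - θ^(-1/2) 0.97^K0) ≤ #{v} ≤ ∑ 2^(K0 - s)`.
`fp_unique`: if the same integer `n` has the patterns of two words of `FP` (continued by even
steps) then they are equal: compare the first passage indices.
-/

set_option autoImplicit false

namespace Pool.Agent.Work.MP_215640_nt

open Finset Polynomial Filter

/-- the word with odd steps exactly at the indices in `A` -/
def wd (A : Finset ℕ) (j : ℕ) : Bool := decide (j ∈ A)

open Classical in
/-- first passage words below `θ` of length at most `K0` -/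
noncomputable def FP (θ : ℝ) (K0 : ℕ) : Finset (ℕ × Finset ℕ) :=
  ((range (K0 + 1)) ×ˢ (range (K0 + 1)).powerset).filter
    (fun p => p.2 ⊆ range p.1 ∧ cc (wd p.2) p.1 < θ ∧ ∀ l < p.1, θ ≤ cc (wd p.2) l)

private theorem fp_cc_congr {w w' : ℕ → Bool} {l : ℕ} (h : ∀ j < l, w j = w' j) :
    cc w l = cc w' l := by
  unfold cc
  exact prod_congr rfl fun i hi => by rw [h i (mem_range.1 hi)]

private theorem fp_half_le_ex (b : Bool) : 1 / 2 ≤ ex b := by
  unfold ex; split_ifs <;> norm_num

theorem fp_spec {θ : ℝ} {K0 : ℕ} {p : ℕ × Finset ℕ} (h : p ∈ FP θ K0) (hθ : θ ≤ 1) :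
    1 ≤ p.1 ∧ p.1 ≤ K0 ∧ θ / 2 ≤ cc (wd p.2) p.1 ∧ cc (wd p.2) p.1 < θ ∧
      (∀ l < p.1, cc (wd p.2) p.1 < cc (wd p.2) l) ∧ ∀ l, p.1 ≤ l → wd p.2 l = false := by
  classical
  unfold FP at h
  rw [mem_filter, mem_product, mem_range] at h
  obtain ⟨⟨h1, -⟩, hA, hlt, hge⟩ := h
  have hs : 1 ≤ p.1 := by
    rcases Nat.eq_zero_or_pos p.1 with h0 | h0
    · rw [h0, cc_zero] at hlt; linarith
    · exact h0
  refine ⟨hs, by omega, ?_, hlt, fun l hl => hlt.trans_le (hge l hl), fun l hl => ?_⟩
  · obtain ⟨r, hr⟩ : ∃ r, p.1 = r + 1 := ⟨p.1 - 1, by omega⟩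
    rw [hr, cc_succ]
    have h2 := hge r (by omega)
    have h3 := fp_half_le_ex (wd p.2 r)
    have h4 := cc_pos (wd p.2) r
    have h5 : cc (wd p.2) r * (1 / 2) ≤ cc (wd p.2) r * ex (wd p.2 r) :=
      mul_le_mul_of_nonneg_left h3 h4.le
    linarith
  · unfold wd
    rw [decide_eq_false_iff_not]
    intro hmem
    have := mem_range.1 (hA hmem)
    omega

theorem fp_mass (θ : ℝ) (hθ : 0 < θ) (K0 : ℕ) :
    1 - θ ^ (-(1 : ℝ) / 2) * (97 / 100) ^ K0 ≤ ∑ p ∈ FP θ K0, (1 / 2 : ℝ) ^ p.1 := by
  classical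
  set V := (univ : Finset (Fin K0 → Bool)).filter (fun v => cc (ext v) K0 < θ) with hV
  have hcw := count_words K0 θ hθ
  have hsplit : V.card + ((univ : Finset (Fin K0 → Bool)).filter
      (fun v => θ ≤ cc (ext v) K0)).card = 2 ^ K0 := by
    have h1 := Finset.card_filter_add_card_filter_not (s := (univ : Finset (Fin K0 → Bool)))
      (fun v => cc (ext v) K0 < θ)
    simp only [not_lt] at h1
    rw [hV, h1]
    simp
  set φ : (Fin K0 → Bool) → ℕ × Finset ℕ := fun v =>
    if h : ∃ s, cc (ext v) s < θ then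
      (Nat.find h, (range (Nat.find h)).filter (fun j => ext v j = true)) else (0, ∅) with hφ
  have hφv : ∀ v ∈ V, ∃ s, s ≤ K0 ∧ cc (ext v) s < θ ∧ (∀ l < s, θ ≤ cc (ext v) l) ∧
      φ v = (s, (range s).filter (fun j => ext v j = true)) := by
    intro v hv
    have hv' : cc (ext v) K0 < θ := (mem_filter.1 hv).2
    have h : ∃ s, cc (ext v) s < θ := ⟨K0, hv'⟩
    refine ⟨Nat.find h, Nat.find_min' h hv', Nat.find_spec h, fun l hl => ?_, ?_⟩
    · exact not_lt.1 (Nat.find_min h hl)
    · simp only [hφ]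
      rw [dif_pos h]
  have hmaps : ∀ v ∈ V, φ v ∈ FP θ K0 := by
    intro v hv
    obtain ⟨s, hsK, hlt, hge, he⟩ := hφv v hv
    have hwd : ∀ j < s, wd ((range s).filter (fun j => ext v j = true)) j = ext v j := by
      intro j hj
      unfold wd
      simp [hj]
    rw [he]
    unfold FP
    rw [mem_filter, mem_product, mem_range, mem_powerset]
    refine ⟨⟨by simp only; omega, ?_⟩, ?_, ?_, ?_⟩
    · intro j hj
      have := mem_range.1 (mem_filter.1 hj).1
      exact mem_range.2 (by omega)
    · exact filter_subset _ _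
    · simp only
      rw [fp_cc_congr hwd]; exact hlt
    · intro l hl
      simp only at hl ⊢
      rw [fp_cc_congr fun j hj => hwd j (by omega)]; exact hge l hl
  have hfib : ∀ p ∈ FP θ K0, ((V.filter (fun v => φ v = p)).card : ℝ) ≤ 2 ^ K0 * (1 / 2) ^ p.1 := by
    intro p hp
    have hpK : p.1 ≤ K0 := by
      unfold FP at hp
      rw [mem_filter, mem_product, mem_range] at hp
      omega
    have hcard : (V.filter (fun v => φ v = p)).card ≤ 2 ^ (K0 - p.1) := by
      have h1 : (V.filter (fun v => φ v = p)).card ≤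
          (univ : Finset (Fin (K0 - p.1) → Bool)).card := by
        refine Finset.card_le_card_of_injOn
          (fun v => fun i : Fin (K0 - p.1) => ext v (p.1 + i)) (fun v _ => mem_univ _) ?_
        intro v hv v' hv' hvv
        obtain ⟨hvV, hvp⟩ := mem_filter.1 hv
        obtain ⟨hvV', hvp'⟩ := mem_filter.1 hv'
        obtain ⟨s, -, -, -, he⟩ := hφv v hvV
        obtain ⟨s', -, -, -, he'⟩ := hφv v' hvV'
        rw [hvp] at he
        rw [hvp'] at he'
        have hs : s = s' := by
          have := he.symm.trans he'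
          exact (Prod.mk.inj this).1
        subst hs
        have hA := (Prod.mk.inj (he.symm.trans he')).2
        have hps : p.1 = s := by rw [he]
        funext j
        by_cases hj : j.1 < s
        · have h2 : (j.1 ∈ (range s).filter (fun j => ext v j = true)) ↔
              (j.1 ∈ (range s).filter (fun j => ext v' j = true)) := by rw [hA]
          rw [mem_filter, mem_filter, mem_range] at h2
          have h3 : ext v j.1 = v j := by simp [ext]
          have h4 : ext v' j.1 = v' j := by simp [ext]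
          rw [h3, h4] at h2
          have h5 : v j = true ↔ v' j = true := by
            constructor
            · intro h; exact (h2.1 ⟨hj, h⟩).2
            · intro h; exact (h2.2 ⟨hj, h⟩).2
          cases hv1 : v j <;> cases hv2 : v' j <;> simp_all
        · have hjK := j.2
          have h6 := congrFun hvv ⟨j.1 - s, by omega⟩
          simp only [hps] at h6
          have h7 : s + (j.1 - s) = j.1 := by omega
          rw [h7] at h6
          simpa [ext] using h6
      refine h1.trans (le_of_eq ?_)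
      simp
    have h2 : ((V.filter (fun v => φ v = p)).card : ℝ) ≤ 2 ^ (K0 - p.1) := by
      exact_mod_cast hcard
    refine h2.trans (le_of_eq ?_)
    have h3 : (2 : ℝ) ^ K0 = 2 ^ (K0 - p.1) * 2 ^ p.1 := by
      rw [← pow_add]; congr 1; omega
    rw [h3, mul_assoc, ← mul_pow]
    norm_num
  have hVcard : (V.card : ℝ) ≤ 2 ^ K0 * ∑ p ∈ FP θ K0, (1 / 2 : ℝ) ^ p.1 := by
    rw [Finset.card_eq_sum_card_fiberwise (f := φ) (t := FP θ K0) (fun v hv => hmaps v hv),
      mul_sum]
    push_cast
    exact sum_le_sum hfib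
  have hsplit' : (V.card : ℝ) + (((univ : Finset (Fin K0 → Bool)).filter
      (fun v => θ ≤ cc (ext v) K0)).card : ℝ) = 2 ^ K0 := by exact_mod_cast hsplit
  have h2K : (0 : ℝ) < 2 ^ K0 := by positivity
  have hfin : 2 ^ K0 * (1 - θ ^ (-(1 : ℝ) / 2) * (97 / 100) ^ K0) ≤
      2 ^ K0 * ∑ p ∈ FP θ K0, (1 / 2 : ℝ) ^ p.1 := by
    refine le_trans ?_ hVcard
    linarith
  exact le_of_mul_le_mul_left hfin h2K

theorem fp_unique {θ : ℝ} {K0 : ℕ} {p p' : ℕ × Finset ℕ} (h : p ∈ FP θ K0) (h' : p' ∈ FP θ K0)
    (k k' n : ℕ) (hk : p.1 ≤ k) (hk' : p'.1 ≤ k')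
    (h1 : Pat (wd p.2) (wd p.2) (range k) n) (h2 : Pat (wd p'.2) (wd p'.2) (range k') n) :
    p = p' := by
  classical
  rw [← word_iff] at h1 h2
  unfold FP at h h'
  rw [mem_filter, mem_product] at h h'
  obtain ⟨-, hA, hlt, hge⟩ := h
  obtain ⟨-, hA', hlt', hge'⟩ := h'
  have hw : ∀ j, j < k → j < k' → wd p.2 j = wd p'.2 j := by
    intro j hj hj'
    have h3 := (h1 j hj).symm.trans (h2 j hj')
    cases hv1 : wd p.2 j <;> cases hv2 : wd p'.2 j <;> simp_all
  have hs : p.1 = p'.1 := by
    rcases lt_trichotomy p.1 p'.1 with hlt1 | heq | hgt1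
    · exfalso
      have h3 := hge' p.1 hlt1
      rw [← fp_cc_congr fun j hj => hw j (by omega) (by omega)] at h3
      linarith
    · exact heq
    · exfalso
      have h3 := hge p'.1 hgt1
      rw [fp_cc_congr fun j hj => hw j (by omega) (by omega)] at h3
      linarith
  refine Prod.ext hs ?_
  ext j
  by_cases hj : j < p.1
  · have h3 := hw j (by omega) (by omega)
    unfold wd at h3
    simpa using h3
  · constructor
    · intro hm; exact absurd (mem_range.1 (hA hm)) hj
    · intro hm
      have := mem_range.1 (hA' hm)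
      omega

end Pool.Agent.Work.MP_215640_nt
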