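import Pool.Agent.Work.MP_215640_nt.S.Defs2

/-!
MODULE HALFTOOLS.

`avg_shift2`: the sums of `f n` and of `f (n + s)` over `[N, N + H)` differ by at most `2 s`.

`arc_of_half2`: sum over all patterns: `∑_{A ∈ J.powerset} gf w (fun j => decide (j ∈ A)) J j α β n =
arc α β (xx w j n / 2) - (β - α)` (exactly one `A` fits `n`); finite sums of `SA` functions are `SA`.

`near_small2`: `dI x ≤ ε` implies `fract(x/2) ∈ [0, ε) ∪ [1/2 - ε, 1/2 + ε) ∪ [1 - ε, 1)`
(`0 < ε ≤ 1/4`), total length `4 ε`, and `near w S ε n ≤ ∑_{j ∈ S} 1_{dI (x_j n) ≤ ε}`.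
-/

set_option autoImplicit false

namespace Pool.Agent.Work.MP_215640_nt

open Finset Polynomial Filter

private theorem ht_arc_le (α β x : ℝ) : 0 ≤ arc α β x ∧ arc α β x ≤ 1 := by
  unfold arc; split_ifs <;> norm_num

theorem abs_gf_le2 (w : ℕ → Bool) (π : ℕ → Bool) (J : Finset ℕ) (i : ℕ) (α β : ℝ) (n : ℕ)
    (h0 : 0 ≤ α) (h1 : α ≤ β) (h2 : β ≤ 1) : |gf w π J i α β n| ≤ 1 := by
  unfold gf arc
  split_ifs
  · rw [abs_le]; constructor <;> linarith
  · rw [abs_le]; constructor <;> linarith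
  · simp

private theorem ht_shift (f : ℕ → ℝ) (hf : ∀ n, |f n| ≤ 1) (N H s : ℕ) :
    |∑ n ∈ Ico N (N + H), f n - ∑ a ∈ Ico N (N + H), f (a + s)| ≤ 2 * s := by
  rcases Nat.eq_zero_or_pos H with hH | hH
  · subst hH; simp
  · induction s with
    | zero => simp
    | succ s ih =>
      have h1 : ∑ a ∈ Ico N (N + H), f (a + (s + 1)) =
          ∑ a ∈ Ico N (N + H), f (a + s) - f (N + s) + f (N + H + s) := by
        have e1 : ∑ a ∈ Ico N (N + H), f (a + (s + 1)) =
            ∑ a ∈ Ico (N + 1) (N + H + 1), f (a + s) := by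
          rw [← Finset.sum_Ico_add' (fun a => f (a + s)) N (N + H) 1]
          refine sum_congr rfl fun a _ => ?_
          congr 1
          ring
        have e2 : ∑ a ∈ Ico N (N + H + 1), f (a + s) =
            ∑ a ∈ Ico N (N + H), f (a + s) + f (N + H + s) :=
          Finset.sum_Ico_succ_top (by omega) _
        have e3 : ∑ a ∈ Ico N (N + H + 1), f (a + s) =
            f (N + s) + ∑ a ∈ Ico (N + 1) (N + H + 1), f (a + s) :=
          Finset.sum_eq_sum_Ico_succ_bot (by omega) _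
        linarith
      have h2 := hf (N + s)
      have h3 := hf (N + H + s)
      rw [abs_le] at ih h2 h3 ⊢
      rw [h1]
      push_cast
      constructor <;> linarith [ih.1, ih.2, h2.1, h2.2, h3.1, h3.2]

theorem avg_shift2 (f : ℕ → ℝ) (hf : ∀ n, |f n| ≤ 1) (N H T q V : ℕ) :
    |V * ∑ n ∈ Ico N (N + H), f n -
        ∑ a ∈ Ico N (N + H), ∑ v ∈ range V, f (a + T * (0 + q * v))|
      ≤ 2 * T * q * V ^ 2 := by
  rw [sum_comm]
  have h1 : (V : ℝ) * ∑ n ∈ Ico N (N + H), f n = ∑ _v ∈ range V, ∑ n ∈ Ico N (N + H), f n := by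
    rw [sum_const, card_range, nsmul_eq_mul]
  rw [h1, ← sum_sub_distrib]
  calc |∑ v ∈ range V, (∑ n ∈ Ico N (N + H), f n - ∑ a ∈ Ico N (N + H), f (a + T * (0 + q * v)))|
      ≤ ∑ v ∈ range V,
          |∑ n ∈ Ico N (N + H), f n - ∑ a ∈ Ico N (N + H), f (a + T * (0 + q * v))| :=
        abs_sum_le_sum_abs _ _
    _ ≤ ∑ _v ∈ range V, 2 * ((T : ℝ) * (q * V)) := by
        refine sum_le_sum fun v hv => ?_
        refine (ht_shift f hf N H (T * (0 + q * v))).trans ?_
        have hvV : (v : ℝ) ≤ V := by exact_mod_cast (mem_range.1 hv).le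
        push_cast
        rw [zero_add]
        gcongr
    _ = 2 * T * q * V ^ 2 := by
        rw [sum_const, card_range, nsmul_eq_mul]
        ring

private theorem ht_SA_zero (c : ℝ) : SA c (fun _ => 0) := by
  intro ε hε
  filter_upwards with N H _ _
  rw [sum_const_zero, abs_zero]
  positivity

private theorem ht_SA_add {c : ℝ} {f g : ℕ → ℝ} (hf : SA c f) (hg : SA c g) :
    SA c (fun n => f n + g n) := by
  intro ε hε
  filter_upwards [hf (ε / 2) (by positivity), hg (ε / 2) (by positivity)] with N h1 h2 H h3 h4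
  rw [sum_add_distrib]
  have a1 := h1 H h3 h4
  have a2 := h2 H h3 h4
  calc |∑ n ∈ Ico N (N + H), f n + ∑ n ∈ Ico N (N + H), g n|
      ≤ |∑ n ∈ Ico N (N + H), f n| + |∑ n ∈ Ico N (N + H), g n| := abs_add_le _ _
    _ ≤ ε / 2 * H + ε / 2 * H := add_le_add a1 a2
    _ = ε * H := by ring

private theorem ht_SA_sum {c : ℝ} {ι : Type} (s : Finset ι) (f : ι → ℕ → ℝ)
    (hf : ∀ i ∈ s, SA c (f i)) : SA c (fun n => ∑ i ∈ s, f i n) := by
  classical
  induction s using Finset.induction_on with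
  | empty => simpa using ht_SA_zero c
  | insert a s ha ih =>
    have h1 := ht_SA_add (hf a (mem_insert_self _ _)) (ih fun i hi => hf i (mem_insert_of_mem hi))
    refine Eq.mp ?_ h1
    congr 1
    funext n
    rw [sum_insert ha]

theorem arc_of_half2 (w : ℕ → Bool) (J : Finset ℕ) (j : ℕ) (c : ℝ)
    (H : ∀ (π : ℕ → Bool) (α β : ℝ), 0 ≤ α → α ≤ β → β ≤ 1 → SA c (gf w π J j α β))
    (α β : ℝ) (h0 : 0 ≤ α) (h1 : α ≤ β) (h2 : β ≤ 1) :
    SA c (fun n => arc α β (xx w j n / 2) - (β - α)) := by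
  classical
  have key : ∀ n, ∑ A ∈ J.powerset, gf w (fun j => decide (j ∈ A)) J j α β n =
      arc α β (xx w j n / 2) - (β - α) := by
    intro n
    rw [sum_eq_single (J.filter fun j => F w j n % 2 = 1)]
    · unfold gf
      rw [if_pos]
      intro l hl
      simp [hl]
    · intro A hA hne
      unfold gf
      rw [if_neg]
      intro hp
      apply hne
      ext l
      rw [mem_powerset] at hA
      rw [mem_filter]
      constructor
      · intro hl
        refine ⟨hA hl, ?_⟩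
        rw [hp l (hA hl)]
        simpa using hl
      · rintro ⟨hl, hl2⟩
        rw [hp l hl] at hl2
        simpa using hl2
    · intro hn
      exact absurd (mem_powerset.2 (filter_subset _ _)) hn
  have h3 := ht_SA_sum J.powerset (fun A => gf w (fun j => decide (j ∈ A)) J j α β)
    (fun A _ => H (fun j => decide (j ∈ A)) α β h0 h1 h2)
  refine Eq.mp ?_ h3
  congr 1
  funext n
  exact key n

private theorem ht_cover (x ε : ℝ) (h0 : 0 < ε) (h1 : ε ≤ 1 / 4) (hx : dI x ≤ ε) :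
    1 ≤ arc 0 ε (x / 2) + arc (1 / 2 - ε) (1 / 2 + ε) (x / 2) + arc (1 - ε) 1 (x / 2) := by
  obtain ⟨z, hz⟩ := exists_int_dI x
  rw [← hz] at hx
  have hf0 := Int.fract_nonneg (x / 2)
  have hf1 := Int.fract_lt_one (x / 2)
  have hfx : x = 2 * ⌊x / 2⌋ + 2 * Int.fract (x / 2) := by
    have := Int.floor_add_fract (x / 2)
    linarith
  obtain ⟨y, hy⟩ : ∃ y : ℤ, y = z - 2 * ⌊x / 2⌋ := ⟨_, rfl⟩
  have hy' : x - z = 2 * Int.fract (x / 2) - y := by
    rw [hy]; push_cast; linarith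
  rw [hy', abs_le] at hx
  have hy0 : 0 ≤ y := by
    by_contra hcon
    have : y ≤ -1 := by omega
    have : (y : ℝ) ≤ -1 := by exact_mod_cast this
    linarith [hx.2]
  have hy2 : y ≤ 2 := by
    by_contra hcon
    have : 3 ≤ y := by omega
    have : (3 : ℝ) ≤ y := by exact_mod_cast this
    linarith [hx.1]
  have a1 := ht_arc_le 0 ε (x / 2)
  have a2 := ht_arc_le (1 / 2 - ε) (1 / 2 + ε) (x / 2)
  have a3 := ht_arc_le (1 - ε) 1 (x / 2)
  interval_cases y
  · have : arc 0 ε (x / 2) = 1 := by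
      unfold arc
      rw [if_pos]
      push_cast at hx
      exact ⟨hf0, by linarith [hx.2]⟩
    linarith
  · have : arc (1 / 2 - ε) (1 / 2 + ε) (x / 2) = 1 := by
      unfold arc
      rw [if_pos]
      push_cast at hx
      exact ⟨by linarith [hx.1], by linarith [hx.2]⟩
    linarith
  · have : arc (1 - ε) 1 (x / 2) = 1 := by
      unfold arc
      rw [if_pos]
      push_cast at hx
      exact ⟨by linarith [hx.1], hf1⟩
    linarith

theorem near_small2 (w : ℕ → Bool) (S : Finset ℕ) (c : ℝ)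
    (H : ∀ j ∈ S, ∀ (α β : ℝ), 0 ≤ α → α ≤ β → β ≤ 1 →
      SA c (fun n => arc α β (xx w j n / 2) - (β - α))) (ε : ℝ) (h0 : 0 < ε) (h1 : ε ≤ 1 / 4) :
    ∀ᶠ N : ℕ in atTop, ∀ H : ℕ, (N : ℝ) ^ (1 - c) ≤ H → (H : ℝ) ≤ (N : ℝ) ^ (1 - c / 2) →
      (∑ n ∈ Ico N (N + H), near w S ε n) ≤ 5 * ε * S.card * H := by
  classical
  have hpt : ∀ n, near w S ε n ≤ ∑ j ∈ S, (arc 0 ε (xx w j n / 2) +
      arc (1 / 2 - ε) (1 / 2 + ε) (xx w j n / 2) + arc (1 - ε) 1 (xx w j n / 2)) := by
    intro n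
    have hnn : ∀ j, 0 ≤ arc 0 ε (xx w j n / 2) +
        arc (1 / 2 - ε) (1 / 2 + ε) (xx w j n / 2) + arc (1 - ε) 1 (xx w j n / 2) := by
      intro j
      have a1 := ht_arc_le 0 ε (xx w j n / 2)
      have a2 := ht_arc_le (1 / 2 - ε) (1 / 2 + ε) (xx w j n / 2)
      have a3 := ht_arc_le (1 - ε) 1 (xx w j n / 2)
      linarith
    unfold near
    split_ifs with h
    · obtain ⟨j, hj, hd⟩ := h
      exact (ht_cover _ ε h0 h1 hd).trans (single_le_sum (fun j _ => hnn j) hj)
    · exact sum_nonneg fun j _ => hnn j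
  have hSA : SA c (fun n => ∑ j ∈ S, ((arc 0 ε (xx w j n / 2) - (ε - 0)) +
      (arc (1 / 2 - ε) (1 / 2 + ε) (xx w j n / 2) - (1 / 2 + ε - (1 / 2 - ε))) +
      (arc (1 - ε) 1 (xx w j n / 2) - (1 - (1 - ε))))) := by
    apply ht_SA_sum
    intro j hj
    exact ht_SA_add (ht_SA_add (H j hj 0 ε le_rfl h0.le (by linarith))
      (H j hj (1 / 2 - ε) (1 / 2 + ε) (by linarith) (by linarith) (by linarith)))
      (H j hj (1 - ε) 1 (by linarith) (by linarith) le_rfl)
  rcases S.eq_empty_or_nonempty with hS | hS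
  · subst hS
    filter_upwards with N H _ _
    have : ∀ n ∈ Ico N (N + H), near w ∅ ε n = 0 := by
      intro n _
      unfold near
      simp
    rw [sum_congr rfl this]
    simp
  · have hcard : (1 : ℝ) ≤ S.card := by
      exact_mod_cast hS.card_pos
    filter_upwards [hSA ε h0] with N hN H h3 h4
    have h5 := (abs_le.1 (hN H h3 h4)).2
    have h6 : ∑ n ∈ Ico N (N + H), ∑ j ∈ S, ((arc 0 ε (xx w j n / 2) - (ε - 0)) +
        (arc (1 / 2 - ε) (1 / 2 + ε) (xx w j n / 2) - (1 / 2 + ε - (1 / 2 - ε))) +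
        (arc (1 - ε) 1 (xx w j n / 2) - (1 - (1 - ε)))) =
        ∑ n ∈ Ico N (N + H), ∑ j ∈ S, (arc 0 ε (xx w j n / 2) +
          arc (1 / 2 - ε) (1 / 2 + ε) (xx w j n / 2) + arc (1 - ε) 1 (xx w j n / 2)) -
          4 * ε * S.card * H := by
      have e1 : ∀ n, ∑ j ∈ S, ((arc 0 ε (xx w j n / 2) - (ε - 0)) +
          (arc (1 / 2 - ε) (1 / 2 + ε) (xx w j n / 2) - (1 / 2 + ε - (1 / 2 - ε))) +
          (arc (1 - ε) 1 (xx w j n / 2) - (1 - (1 - ε)))) =
          ∑ j ∈ S, (arc 0 ε (xx w j n / 2) +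
          arc (1 / 2 - ε) (1 / 2 + ε) (xx w j n / 2) + arc (1 - ε) 1 (xx w j n / 2)) -
          4 * ε * S.card := by
        intro n
        have : 4 * ε * (S.card : ℝ) = ∑ _j ∈ S, 4 * ε := by
          rw [sum_const, nsmul_eq_mul]; ring
        rw [this, ← sum_sub_distrib]
        refine sum_congr rfl fun j _ => ?_
        ring
      rw [sum_congr rfl fun n _ => e1 n, sum_sub_distrib, sum_const, Nat.card_Ico, nsmul_eq_mul,
        Nat.add_sub_cancel_left]
      ring
    rw [h6] at h5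
    have hH0 : (0 : ℝ) ≤ H := by positivity
    calc ∑ n ∈ Ico N (N + H), near w S ε n
        ≤ ∑ n ∈ Ico N (N + H), ∑ j ∈ S, (arc 0 ε (xx w j n / 2) +
          arc (1 / 2 - ε) (1 / 2 + ε) (xx w j n / 2) + arc (1 - ε) 1 (xx w j n / 2)) :=
          sum_le_sum fun n _ => hpt n
      _ ≤ 4 * ε * S.card * H + ε * H := by linarith
      _ ≤ 4 * ε * S.card * H + ε * S.card * H := by
          have : ε * H ≤ ε * S.card * H := by
            calc ε * H = ε * 1 * H := by ring
              _ ≤ ε * S.card * H := by gcongr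
          linarith
      _ = 5 * ε * S.card * H := by ring

end Pool.Agent.Work.MP_215640_nt
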