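import Pool.Agent.Work.MP_215640_nt.S.Defs2
import Pool.Agent.Work.MP_215640_nt.Parity

/-!
MODULE PARAM2.

`exists_ctx2`: `om = cc w i / M`; for `cc w j < cc w i` the number `cc w j / om = M ρ`, `ρ = cc w j / cc w i
= p/q < 1` with `q = 3^.. 2^..` prime to `M`, is not an integer (see `Param.lean`), so
`cc w j - om * dg = om * fract (M ρ) > 0`, and `dg ≤ M ρ < M`; take `mu` = minimum over the finitely many
`j ≤ K` and of `cc w i / M`.

`Pst_top_ne_zero2`: as `Pst_top_ne_zero`, but `1 ≤ d` is only known for the ancestors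
`(pr w)^[s] i ≠ 0` of `i` (`anc`: `dg = ⌊cc w j / om⌋ ≥ 1`), which is all that the proof of
`Pst_odd` needs (strong induction: the claims for `j` use those for `pr w j`).

`adm_exists`: for every word there is an admissible exponent (choose for each `i` an `M ≡ 1 mod 6` with
`cc w i / M < cc w j` for all `j ≤ K` and `cc w i < M`, then `c` = half the minimum of the `cc w i / M`).

`adm_word`: if `cc w s < 1` is smaller than all `cc w l`, `l < s`, and the steps `s, s+1, s+2, s+3` are even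
steps then the word is admissible for the exponent `cc w (s+4) = cc w s / 16` and the levels up to `s + 3`.
`i = s, s+1, s+2, s+3`: `M = 1`, `pr w i = 0` (all earlier exponents are larger). `1 ≤ i < s`: with
`x = cc w i / cc w s > 1` take `M` prime to 6 in `[x, 16 x)` (`M = 5` if `x ≤ 5`, else `≡ 1 mod 6` and
`< x + 7`); all ancestors `j ≠ 0` of `i` satisfy `j < s`, so `cc w i / M ≤ cc w s < cc w j`.
-/

set_option autoImplicit false

namespace Pool.Agent.Work.MP_215640_nt

open Finset Polynomial Filter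

private theorem p2_pr_zero (w : ℕ → Bool) : pr w 0 = 0 := by
  unfold pr; simp

private theorem p2_iter_le (w : ℕ → Bool) (s i : ℕ) : (pr w)^[s] i ≤ i := by
  induction s with
  | zero => simp
  | succ s ih =>
    rw [Function.iterate_succ_apply']
    rcases Nat.eq_zero_or_pos ((pr w)^[s] i) with h | h
    · rw [h, p2_pr_zero]; exact Nat.zero_le _
    · exact (pr_lt w _ (by omega)).le.trans ih

theorem exists_ctx2 (w : ℕ → Bool) (K i M : ℕ) (hi : 1 ≤ i) (hK : i ≤ K) (hM : Nat.Coprime M 6)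
    (hc : cc w i < M) (hanc : ∀ s, (pr w)^[s] i ≠ 0 → cc w i / M ≤ cc w ((pr w)^[s] i)) :
    ∃ mu : ℝ, IsCtx2 w K i mu M := by
  have hc0 : 0 < cc w i := cc_pos w i
  have hM1 : 1 ≤ M := by
    rcases Nat.eq_zero_or_pos M with h | h
    · rw [h] at hM; norm_num at hM
    · exact h
  have hM0 : (0 : ℝ) < M := by exact_mod_cast hM1
  have hom0 : 0 < cc w i / M := div_pos hc0 hM0
  have h6 : (1 : ℝ) ≤ 6 ^ K := one_le_pow₀ (by norm_num)
  refine ⟨cc w i / M / 6 ^ K, ?_⟩
  refine
    { one_le_i := hi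
      i_le := hK
      one_le_M := hM1
      c_lt_M := hc
      mu_pos := by positivity
      mu_le := div_le_self hom0.le h6
      lower := ?_
      anc := hanc }
  intro j hj1 hjK hjc
  obtain ⟨c, hcdef⟩ : ∃ c, c = cc w i := ⟨_, rfl⟩
  obtain ⟨om, hom⟩ : ∃ om : ℝ, om = cc w i / M := ⟨_, rfl⟩
  rw [← hom] at hom0 ⊢
  have homM : om * M = c := by rw [hom, hcdef]; field_simp
  obtain ⟨Aj, hAj⟩ : ∃ Aj, Aj = ((range j).filter (fun i => w i = true)).card := ⟨_, rfl⟩
  obtain ⟨Ai, hAi⟩ : ∃ Ai, Ai = ((range i).filter (fun i => w i = true)).card := ⟨_, rfl⟩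
  have e1 : cc w j = (3 : ℝ) ^ Aj / 2 ^ j := by rw [cc_eq, hAj]
  have e2 : c = (3 : ℝ) ^ Ai / 2 ^ i := by rw [hcdef, cc_eq, hAi]
  have hAiK : Ai ≤ K := by
    rw [hAi]
    have := card_filter_le (range i) (fun i => w i = true)
    rw [card_range] at this
    omega
  obtain ⟨p, hp⟩ : ∃ p : ℕ, p = 3 ^ Aj * 2 ^ i := ⟨_, rfl⟩
  obtain ⟨q, hq⟩ : ∃ q : ℕ, q = 3 ^ Ai * 2 ^ j := ⟨_, rfl⟩
  have hp0 : 0 < p := by rw [hp]; positivity
  have hq0 : 0 < q := by rw [hq]; positivity
  have hcpos : 0 < c := by rw [hcdef]; exact hc0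
  have hρ : cc w j / c = (p : ℝ) / q := by
    rw [e1, e2, hp, hq]
    push_cast
    field_simp
  have hq6 : (q : ℝ) ≤ 6 ^ K := by
    rw [hq]
    push_cast
    have h1 : (3 : ℝ) ^ Ai ≤ 3 ^ K := pow_le_pow_right₀ (by norm_num) hAiK
    have h2 : (2 : ℝ) ^ j ≤ 2 ^ K := pow_le_pow_right₀ (by norm_num) hjK
    calc (3 : ℝ) ^ Ai * 2 ^ j ≤ 3 ^ K * 2 ^ K := mul_le_mul h1 h2 (by positivity) (by positivity)
      _ = 6 ^ K := by rw [← mul_pow]; norm_num
  have hqR : (0 : ℝ) < q := by exact_mod_cast hq0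
  have hpR : (0 : ℝ) < p := by exact_mod_cast hp0
  have hρ1 : cc w j / c < 1 := by
    rw [div_lt_one hcpos, hcdef]; exact hjc
  have hpq : p < q := by
    rw [hρ, div_lt_one hqR] at hρ1
    exact_mod_cast hρ1
  have hM3 : Nat.Coprime 3 M := by
    rw [Nat.coprime_comm]
    exact Nat.Coprime.coprime_dvd_right (by norm_num) hM
  have hM2 : Nat.Coprime 2 M := by
    rw [Nat.coprime_comm]
    exact Nat.Coprime.coprime_dvd_right (by norm_num) hM
  have hcop : Nat.Coprime q M := by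
    rw [hq]
    exact Nat.Coprime.mul_left (Nat.Coprime.pow_left _ hM3) (Nat.Coprime.pow_left _ hM2)
  have hr : M * p % q ≠ 0 := by
    intro h0
    have h1 : q ∣ M * p := Nat.dvd_of_mod_eq_zero h0
    have h2 : q ∣ p := hcop.dvd_of_dvd_mul_left h1
    have := Nat.le_of_dvd hp0 h2
    omega
  obtain ⟨m, hm⟩ : ∃ m, m = M * p / q := ⟨_, rfl⟩
  obtain ⟨r, hrdef⟩ : ∃ r, r = M * p % q := ⟨_, rfl⟩
  have hr1 : 1 ≤ r := by omega
  have hrq : r < q := by rw [hrdef]; exact Nat.mod_lt _ hq0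
  have hdm : q * m + r = M * p := by rw [hm, hrdef]; exact Nat.div_add_mod _ _
  have hdmR : (q : ℝ) * m + r = M * p := by exact_mod_cast hdm
  have hMp : (M : ℝ) * ((p : ℝ) / q) = m + r / q := by
    field_simp
    linarith
  have hval : cc w j / om = m + r / q := by
    rw [← hMp, ← hρ, ← homM]
    field_simp
  have hr1R : (1 : ℝ) ≤ r := by exact_mod_cast hr1
  have hrqR : (r : ℝ) + 1 ≤ q := by exact_mod_cast hrq
  have hfr1 : (r : ℝ) / q < 1 := by
    rw [div_lt_one hqR]; linarith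
  have hfr0 : 0 ≤ (r : ℝ) / q := by positivity
  have hdg : dg w om j = m := by
    unfold dg
    rw [Nat.floor_eq_iff (div_nonneg (cc_pos w j).le hom0.le), hval]
    constructor
    · linarith
    · linarith
  rw [hdg]
  constructor
  · have h1 : (m : ℝ) < M := by
      have h2 : (M : ℝ) * ((p : ℝ) / q) < M := by
        have : (p : ℝ) / q < 1 := by rw [← hρ]; exact hρ1
        nlinarith
      rw [hMp] at h2
      linarith
    exact_mod_cast h1
  · have h1 : cc w j = om * (m + r / q) := by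
      rw [← hval]
      field_simp
    rw [h1]
    have h2 : om * (m + (r : ℝ) / q) - om * m = om * (r / q) := by ring
    rw [h2, div_eq_mul_one_div om]
    refine mul_le_mul_of_nonneg_left ?_ hom0.le
    rw [div_le_div_iff₀ (by positivity) hqR]
    nlinarith

private theorem p2_Pst_odd (w : ℕ → Bool) (d : ℕ → ℕ) (j : ℕ)
    (hd : ∀ s, (pr w)^[s] j ≠ 0 → 1 ≤ d ((pr w)^[s] j)) :
    (∀ r : ℕ, ∃ o : ℤ, (2 : ℝ) ^ (j * r) * (r.factorial : ℝ) * (Pst w d j).coeff r = o) ∧
    (∀ r : ℕ, 1 ≤ j → r ≤ d j → ∃ o : ℤ, Odd o ∧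
      (2 : ℝ) ^ (j * r) * (r.factorial : ℝ) * (Pst w d j).coeff r = o) ∧
    (∃ o : ℤ, Odd o ∧ (2 : ℝ) ^ j * (Pst w d j).coeff 1 = o) := by
  induction j using Nat.strong_induction_on with
  | _ j ih =>
    rcases Nat.eq_zero_or_pos j with h | h
    · subst h
      refine ⟨?_, ?_, ?_⟩
      · intro r
        rw [Pst_zero, coeff_add, coeff_one, coeff_X]
        rcases r with _ | _ | r
        · exact ⟨1, by simp⟩
        · exact ⟨1, by simp⟩
        · refine ⟨0, ?_⟩
          rw [if_neg (by omega), if_neg (by omega)]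
          simp
      · intro r h1; omega
      · exact ⟨1, odd_one, by rw [Pst_zero]; simp [coeff_one]⟩
    · obtain ⟨i1, -, i3⟩ := ih (pr w j) (pr_lt w j (by omega)) (fun s hs => by
        have := hd (s + 1)
        rw [Function.iterate_succ_apply] at this
        exact this hs)
      have hdj : 1 ≤ d j := by
        have := hd 0
        simp only [Function.iterate_zero, id_eq] at this
        exact this (by omega)
      obtain ⟨u, hu⟩ := gam_eq w j h
      have hpr := pr_lt w j (by omega)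
      have key : ∀ r ≤ d j, ∃ o : ℤ, Odd o ∧
          (2 : ℝ) ^ (j * r) * (r.factorial : ℝ) * (Pst w d j).coeff r = o := by
        intro r hr
        obtain ⟨o, ho1, ho2⟩ := bser_odd (pr w j) (j - pr w j) u (by omega) (Pst w d (pr w j))
          (Pst_coeff_zero w d _) i1 i3 r (d j) hr
        refine ⟨o, ho1, ?_⟩
        rw [Nat.add_sub_cancel' hpr.le, ← hu] at ho2
        rw [Pst_succ w d h, trunc_coeff, if_pos hr]
        exact ho2
      refine ⟨?_, fun r _ hr => key r hr, ?_⟩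
      · intro r
        by_cases hr : r ≤ d j
        · obtain ⟨o, -, ho⟩ := key r hr
          exact ⟨o, ho⟩
        · refine ⟨0, ?_⟩
          rw [Pst_succ w d h, trunc_coeff, if_neg hr]
          simp
      · obtain ⟨o, ho1, ho2⟩ := key 1 hdj
        exact ⟨o, ho1, by simpa using ho2⟩

theorem Pst_top_ne_zero2 {w : ℕ → Bool} {K i : ℕ} {mu : ℝ} {M : ℕ}
    (h : IsCtx2 w K i mu M) : (Pst w (dg w (cc w i / M)) i).coeff M ≠ 0 := by
  have hc0 : 0 < cc w i := cc_pos w i
  have hM0 : (0 : ℝ) < M := by exact_mod_cast h.one_le_M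
  have hom0 : 0 < cc w i / M := div_pos hc0 hM0
  have hd : ∀ s, (pr w)^[s] i ≠ 0 → 1 ≤ dg w (cc w i / M) ((pr w)^[s] i) := by
    intro s hs
    unfold dg
    rw [Nat.one_le_floor_iff, le_div_iff₀ hom0, one_mul]
    exact h.anc s hs
  have hdi : dg w (cc w i / M) i = M := by
    unfold dg
    have : cc w i / (cc w i / M) = M := by field_simp
    rw [this, Nat.floor_natCast]
  obtain ⟨o, ho1, ho2⟩ := (p2_Pst_odd w (dg w (cc w i / M)) i hd).2.1 M h.one_le_i hdi.ge
  intro h0
  rw [h0, mul_zero] at ho2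
  have : o = 0 := by exact_mod_cast ho2.symm
  rw [this] at ho1
  exact absurd ho1 (by decide)

theorem adm_mono {w : ℕ → Bool} {K K' : ℕ} {c c' : ℝ} (h : Adm w K c) (hK : K' ≤ K)
    (hc : c' ≤ c) : Adm w K' c' := by
  intro i h1 h2
  obtain ⟨M, h3, h4, h5, h6⟩ := h i h1 (h2.trans hK)
  exact ⟨M, h3, h4, lt_of_le_of_lt hc h5, h6⟩

private theorem p2_cop (Q : ℕ) : Nat.Coprime (6 * Q + 1) 6 := by
  rw [Nat.coprime_comm, show 6 * Q + 1 = 1 + Q * 6 by ring]
  simp

theorem adm_exists (w : ℕ → Bool) (K : ℕ) : ∃ c : ℝ, 0 < c ∧ c < 1 ∧ Adm w K c := by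
  obtain ⟨S, hS⟩ : ∃ S : ℝ, S = ∑ j ∈ range (K + 1), 1 / cc w j := ⟨_, rfl⟩
  obtain ⟨T, hT⟩ : ∃ T : ℝ, T = ∑ j ∈ range (K + 1), cc w j := ⟨_, rfl⟩
  have hSj : ∀ j ≤ K, 1 / cc w j ≤ S := by
    intro j hj
    rw [hS]
    exact single_le_sum (f := fun j => 1 / cc w j)
      (fun j _ => (one_div_pos.2 (cc_pos w j)).le) (mem_range.2 (by omega))
  have hTj : ∀ j ≤ K, cc w j ≤ T := by
    intro j hj
    rw [hT]
    exact single_le_sum (f := fun j => cc w j) (fun j _ => (cc_pos w j).le)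
      (mem_range.2 (by omega))
  have hS1 : 1 ≤ S := by simpa [cc_zero] using hSj 0 (Nat.zero_le _)
  have hT1 : 1 ≤ T := by simpa [cc_zero] using hTj 0 (Nat.zero_le _)
  obtain ⟨Q, hQ⟩ := exists_nat_gt (S * T)
  obtain ⟨M, hM⟩ : ∃ M : ℕ, M = 6 * Q + 1 := ⟨_, rfl⟩
  have hQM : (Q : ℝ) ≤ M := by
    have : Q ≤ M := by omega
    exact_mod_cast this
  have hST : S * T < M := by linarith
  have hTM : T < M := by nlinarith
  have hM1 : (1 : ℝ) ≤ M := by
    have : 1 ≤ M := by omega
    exact_mod_cast this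
  have hM0 : (0 : ℝ) < M := by linarith
  have hS0 : 0 < S := by linarith
  refine ⟨1 / (2 * M * S), by positivity, ?_, ?_⟩
  · rw [div_lt_one (by positivity)]
    nlinarith
  · intro i hi hiK
    refine ⟨M, hM ▸ p2_cop Q, (hTj i hiK).trans_lt hTM, ?_, ?_⟩
    · rw [div_lt_div_iff₀ (by positivity) hM0]
      have h1 : 1 ≤ S * cc w i := by
        have := hSj i hiK
        rwa [div_le_iff₀ (cc_pos w i)] at this
      nlinarith
    · intro s _
      have hle : (pr w)^[s] i ≤ K := (p2_iter_le w s i).trans hiK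
      have h1 : 1 ≤ S * cc w ((pr w)^[s] i) := by
        have := hSj _ hle
        rwa [div_le_iff₀ (cc_pos w _)] at this
      rw [div_le_iff₀ hM0]
      have h2 := hTj i hiK
      have h3 := cc_pos w ((pr w)^[s] i)
      nlinarith

theorem adm_word (w : ℕ → Bool) (s : ℕ) (hs : 1 ≤ s) (h1 : cc w s < 1)
    (h2 : ∀ l < s, cc w s < cc w l) (h3 : ∀ l, s ≤ l → l < s + 4 → w l = false) :
    Adm w (s + 3) (cc w (s + 4)) ∧ cc w (s + 4) = cc w s / 16 ∧ pr w (s + 4) = 0 := by
  have hcs := cc_pos w s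
  have hpow : ∀ a ≤ 4, cc w (s + a) = cc w s / 2 ^ a := by
    intro a
    induction a with
    | zero => intro _; simp
    | succ a ih =>
      intro ha
      rw [← add_assoc, cc_succ, ih (by omega), h3 (s + a) (by omega) (by omega), pow_succ]
      simp only [ex, Bool.false_eq_true, if_false]
      field_simp
  have h4 : cc w (s + 4) = cc w s / 16 := by
    rw [hpow 4 le_rfl]; norm_num
  have hbig : ∀ a ≤ 4, ∀ l < s + a, ¬ cc w l < cc w (s + a) := by
    intro a ha l hl hlt
    rw [hpow a ha] at hlt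
    have h2a : (1 : ℝ) ≤ 2 ^ a := one_le_pow₀ (by norm_num)
    rcases lt_or_ge l s with h | h
    · have h5 := h2 l h
      have h6 : cc w s / 2 ^ a ≤ cc w s := div_le_self hcs.le h2a
      linarith
    · obtain ⟨b, rfl⟩ := Nat.exists_eq_add_of_le h
      rw [hpow b (by omega)] at hlt
      have h6 : (2 : ℝ) ^ b ≤ 2 ^ a := pow_le_pow_right₀ (by norm_num) (by omega)
      have h7 : cc w s / 2 ^ a ≤ cc w s / 2 ^ b :=
        div_le_div_of_nonneg_left hcs.le (by positivity) h6
      linarith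
  have hpr : ∀ a ≤ 4, pr w (s + a) = 0 := by
    intro a ha
    unfold pr
    rw [Nat.findGreatest_eq_zero_iff]
    intro k hk hk2
    exact hbig a ha k (by omega)
  refine ⟨?_, h4, hpr 4 le_rfl⟩
  intro i hi hiK
  rcases lt_or_ge i s with h | h
  · obtain ⟨x, hx⟩ : ∃ x, x = cc w i / cc w s := ⟨_, rfl⟩
    have hx1 : 1 < x := by
      rw [hx, one_lt_div hcs]; exact h2 i h
    obtain ⟨Q, hQ⟩ : ∃ Q, Q = ⌈(x - 1) / 6⌉₊ := ⟨_, rfl⟩
    have hQ1 : (x - 1) / 6 ≤ Q := by rw [hQ]; exact Nat.le_ceil _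
    have hQ2 : (Q : ℝ) < (x - 1) / 6 + 1 := by
      rw [hQ]; exact Nat.ceil_lt_add_one (by linarith)
    obtain ⟨M, hM⟩ : ∃ M : ℕ, M = 6 * Q + 1 := ⟨_, rfl⟩
    have hMR : (M : ℝ) = 6 * Q + 1 := by rw [hM]; push_cast; ring
    have hMx : x ≤ M := by rw [hMR]; linarith
    have hM16 : (M : ℝ) < 16 * x := by rw [hMR]; linarith
    have hM0 : (0 : ℝ) < M := by linarith
    have hci : cc w i = x * cc w s := by rw [hx]; field_simp
    refine ⟨M, hM ▸ p2_cop Q, ?_, ?_, ?_⟩
    · rw [hci]; nlinarith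
    · rw [h4, hci, lt_div_iff₀ hM0]
      nlinarith
    · intro t ht
      have hle : (pr w)^[t] i < s := (p2_iter_le w t i).trans_lt h
      have h5 := h2 _ hle
      have h6 : cc w i / M ≤ cc w s := by
        rw [div_le_iff₀ hM0, hci]
        nlinarith
      linarith
  · obtain ⟨a, rfl⟩ := Nat.exists_eq_add_of_le h
    have ha : a ≤ 3 := by omega
    have h2a : (1 : ℝ) ≤ 2 ^ a := one_le_pow₀ (by norm_num)
    refine ⟨1, by norm_num, ?_, ?_, ?_⟩
    · rw [hpow a (by omega)]
      push_cast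
      have : cc w s / 2 ^ a ≤ cc w s := div_le_self hcs.le h2a
      linarith
    · rw [hpow a (by omega), h4]
      push_cast
      rw [div_one]
      apply div_lt_div_of_pos_left hcs (by positivity)
      have h6 : (2 : ℝ) ^ a ≤ 2 ^ 3 := pow_le_pow_right₀ (by norm_num) ha
      norm_num at h6
      linarith
    · intro t ht
      rcases t with _ | t
      · simp
      · exfalso
        apply ht
        rw [Function.iterate_succ_apply, hpr a (by omega)]
        have := p2_iter_le w t 0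
        omega

end Pool.Agent.Work.MP_215640_nt
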