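import Pool.Agent.Work.MP_215640_nt.S.Defs2

/-!
MODULE TCHOICE. The difference of the progressions, chosen so that the top coefficient is constant.

`T = ⌊(θ / |ρ|)^(1/M) * N^(1 - ci/M)⌋₊`; `T ~ (θ/|ρ|)^(1/M) N^(1-ci/M) → ∞`, so
`|ρ| N^(ci - M) T^M → θ`, and `(a/N)^(ci - M) → 1` uniformly for `N ≤ a ≤ N + N^(1 - c/2)`.
-/

set_option autoImplicit false

namespace Pool.Agent.Work.MP_215640_nt

open Finset Polynomial Filter

theorem T_choice (M : ℕ) (hM : 1 ≤ M) (ci ρ θ c : ℝ) (hρ : ρ ≠ 0) (hθ : 0 < θ) (h0 : 0 < ci)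
    (h1 : ci < M) (hc : 0 < c) :
    ∃ CT : ℝ, 1 ≤ CT ∧ ∃ T : ℕ → ℕ, ∀ δ : ℝ, 0 < δ → ∀ᶠ N : ℕ in atTop,
      (N : ℝ) ^ (1 - ci / M) / CT ≤ T N ∧ (T N : ℝ) ≤ CT * (N : ℝ) ^ (1 - ci / M) ∧
      ∀ a : ℕ, N ≤ a → (a : ℝ) ≤ N + (N : ℝ) ^ (1 - c / 2) →
        |(|ρ| * (a : ℝ) ^ (ci - M) * (T N : ℝ) ^ M) - θ| ≤ δ := by
  have hρ0 : 0 < |ρ| := abs_pos.2 hρ
  have hM0 : (0 : ℝ) < M := by exact_mod_cast hM
  obtain ⟨κ, hκ⟩ : ∃ κ : ℝ, κ = (θ / |ρ|) ^ ((1 : ℝ) / M) := ⟨_, rfl⟩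
  have hκ0 : 0 < κ := by rw [hκ]; positivity
  have hκM : κ ^ M = θ / |ρ| := by
    rw [hκ, ← Real.rpow_natCast, ← Real.rpow_mul (by positivity), one_div_mul_cancel hM0.ne',
      Real.rpow_one]
  obtain ⟨e, he⟩ : ∃ e : ℝ, e = 1 - ci / M := ⟨_, rfl⟩
  have he0 : 0 < e := by
    rw [he, sub_pos, div_lt_one hM0]; exact h1
  have heM : e * M = M - ci := by rw [he]; field_simp
  rw [← he]
  refine ⟨1 + κ + 2 / κ, ?_, fun N => ⌊κ * (N : ℝ) ^ e⌋₊, fun δ hδ => ?_⟩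
  · have : 0 < 2 / κ := by positivity
    linarith
  have t1 : Tendsto (fun N : ℕ => (N : ℝ) ^ e) atTop atTop :=
    (tendsto_rpow_atTop he0).comp tendsto_natCast_atTop_atTop
  have t2 : Tendsto (fun N : ℕ => κ * (N : ℝ) ^ e) atTop atTop := t1.const_mul_atTop hκ0
  have t3 : Tendsto (fun N : ℕ => (N : ℝ) ^ (-(c / 2))) atTop (nhds 0) :=
    (tendsto_rpow_neg_atTop (by positivity)).comp tendsto_natCast_atTop_atTop
  have t4 : Tendsto (fun N : ℕ => θ * (1 - (κ * (N : ℝ) ^ e)⁻¹) ^ M *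
      (1 + (N : ℝ) ^ (-(c / 2))) ^ (ci - M)) atTop
      (nhds (θ * (1 - 0) ^ M * (1 + 0) ^ (ci - M))) := by
    refine Tendsto.mul (Tendsto.mul tendsto_const_nhds
      ((tendsto_const_nhds.sub (tendsto_inv_atTop_zero.comp t2)).pow M)) ?_
    exact (tendsto_const_nhds.add t3).rpow_const (Or.inl (by norm_num))
  have hlim : θ * (1 - 0) ^ M * (1 + 0) ^ (ci - M) = θ := by simp
  rw [hlim] at t4
  have ev1 := t4.eventually (lt_mem_nhds (show θ - δ < θ by linarith))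
  have ev2 := t2.eventually_ge_atTop 2
  filter_upwards [ev1, ev2, eventually_ge_atTop 1] with N g1 g2 g3
  have hN1 : (1 : ℝ) ≤ N := by exact_mod_cast g3
  have hN0 : (0 : ℝ) < N := by linarith
  obtain ⟨y, hy⟩ : ∃ y : ℝ, y = κ * (N : ℝ) ^ e := ⟨_, rfl⟩
  obtain ⟨T, hT⟩ : ∃ T : ℕ, T = ⌊κ * (N : ℝ) ^ e⌋₊ := ⟨_, rfl⟩
  rw [← hT]
  rw [← hy] at g1 g2 hT
  have hy0 : 0 < y := by linarith
  have hNe0 : 0 < (N : ℝ) ^ e := by positivity
  have hTy : (T : ℝ) ≤ y := by rw [hT]; exact Nat.floor_le hy0.le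
  have hTy2 : y - 1 ≤ T := by rw [hT]; exact (Nat.sub_one_lt_floor y).le
  have hT0 : (0 : ℝ) ≤ T := Nat.cast_nonneg _
  refine ⟨?_, ?_, ?_⟩
  · rw [div_le_iff₀ (by positivity)]
    have k1 : (N : ℝ) ^ e = y / κ := by rw [hy]; field_simp
    have k2 : y / 2 ≤ T := by linarith
    rw [k1]
    have k3 : y / κ = y / 2 * (2 / κ) := by field_simp
    rw [k3]
    have k4 : (0 : ℝ) ≤ 2 / κ := by positivity
    have k5 : y / 2 * (2 / κ) ≤ T * (2 / κ) := mul_le_mul_of_nonneg_right k2 k4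
    nlinarith
  · refine hTy.trans ?_
    rw [hy]
    apply mul_le_mul_of_nonneg_right _ hNe0.le
    have : 0 < 2 / κ := by positivity
    linarith
  · intro a ha1 ha2
    have haN : (N : ℝ) ≤ a := by exact_mod_cast ha1
    have ha0 : (0 : ℝ) < a := by linarith
    obtain ⟨z, hz⟩ : ∃ z : ℝ, z = a / N := ⟨_, rfl⟩
    have hz1 : 1 ≤ z := by rw [hz, one_le_div hN0]; exact haN
    have hz2 : z ≤ 1 + (N : ℝ) ^ (-(c / 2)) := by
      rw [hz, div_le_iff₀ hN0, add_mul, one_mul]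
      have : (N : ℝ) ^ (-(c / 2)) * N = (N : ℝ) ^ (1 - c / 2) := by
        conv_lhs => rw [← Real.rpow_one (N : ℝ)]
        rw [Real.rpow_one]
        rw [← Real.rpow_add_one hN0.ne']
        congr 1
        ring
      rw [this]
      exact ha2
    have haz : (a : ℝ) = z * N := by rw [hz]; field_simp
    have hzN : (a : ℝ) ^ (ci - M) = z ^ (ci - M) * (N : ℝ) ^ (ci - M) := by
      rw [haz, Real.mul_rpow (by linarith) hN0.le]
    have hNpow : (N : ℝ) ^ (ci - M) = (((N : ℝ) ^ e) ^ M)⁻¹ := by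
      rw [← Real.rpow_natCast, ← Real.rpow_mul hN0.le, heM, ← Real.rpow_neg hN0.le]
      congr 1
      ring
    have hyM : y ^ M = θ / |ρ| * ((N : ℝ) ^ e) ^ M := by
      rw [hy, mul_pow, hκM]
    have hval : |ρ| * (a : ℝ) ^ (ci - M) * (T : ℝ) ^ M = θ * (T / y) ^ M * z ^ (ci - M) := by
      rw [hzN, hNpow, div_pow, hyM]
      have : ((N : ℝ) ^ e) ^ M ≠ 0 := by positivity
      field_simp
    rw [hval]
    have q1 : (T : ℝ) / y ≤ 1 := by rw [div_le_one hy0]; exact hTy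
    have q0 : 0 ≤ (T : ℝ) / y := by positivity
    have q2 : 1 - y⁻¹ ≤ (T : ℝ) / y := by
      rw [le_div_iff₀ hy0, sub_mul, one_mul, inv_mul_cancel₀ hy0.ne']
      exact hTy2
    have q3 : 0 ≤ 1 - y⁻¹ := by
      have : y⁻¹ ≤ 1 := inv_le_one_of_one_le₀ (by linarith)
      linarith
    have hneg : ci - M ≤ 0 := by linarith
    have z1 : z ^ (ci - M) ≤ 1 := Real.rpow_le_one_of_one_le_of_nonpos hz1 hneg
    have z0 : 0 < z ^ (ci - M) := by positivity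
    have z2 : (1 + (N : ℝ) ^ (-(c / 2))) ^ (ci - M) ≤ z ^ (ci - M) :=
      Real.rpow_le_rpow_of_nonpos (by linarith) hz2 hneg
    have w1 : ((T : ℝ) / y) ^ M ≤ 1 := pow_le_one₀ q0 q1
    have w2 : (1 - y⁻¹) ^ M ≤ ((T : ℝ) / y) ^ M := pow_le_pow_left₀ q3 q2 M
    have w0 : 0 ≤ ((T : ℝ) / y) ^ M := by positivity
    have up : θ * (T / y) ^ M * z ^ (ci - M) ≤ θ := by
      have : (T / y) ^ M * z ^ (ci - M) ≤ 1 := by nlinarith
      nlinarith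
    have lo : θ * (1 - y⁻¹) ^ M * (1 + (N : ℝ) ^ (-(c / 2))) ^ (ci - M) ≤
        θ * (T / y) ^ M * z ^ (ci - M) := by
      apply mul_le_mul _ z2 (by positivity) (by positivity)
      exact mul_le_mul_of_nonneg_left w2 hθ.le
    rw [abs_le]
    constructor
    · linarith
    · linarith

end Pool.Agent.Work.MP_215640_nt
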