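import Pool.Agent.Work.MP_215640_nt.S.Recur2
import Pool.Agent.Work.MP_215640_nt.S.Param2
import Pool.Agent.Work.MP_215640_nt.S.TChoice
import Pool.Agent.Work.MP_215640_nt.S.HalfTools

/-!
MODULE HALF2. Each level is equidistributed in short intervals given the parities of the levels with
smaller exponents.

Strong induction on `(Sm w K i).card`. For `j ∈ S = Sm w K i`: `Sm w K j ⊂ S` (strictly), so the
levels in `S` satisfy the claim, hence `near_small2` (via `arc_of_half2`). Given `ε0`: choose `ε` small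
(w.r.t. `S.card`). `M` from `Adm`, `exists_ctx2`; `recur2` gives `B`; `θ = sqrt 2` is irrational, so
`Gen B (2 η) θ` for some `η > 0` (and for `-θ`, `dI_neg`); `recur2` gives `V0`, `V = max V0 1`, `L = 2 V`;
`CT` and `T` from `T_choice` with `ρ = (1/2) (Pst w (dg w om) i).coeff M * 2^M ≠ 0`
(`Pst_top_ne_zero2`) and `δ` with `B δ ≤ η`: `Gen B η (lam2 w i M T a * 2^M)` for all `a ∈ [N, N+H)`
(`Gen.perturb`). `avg_shift2` with `q = 2`, `u = 0`; `T V^2 / H ≤ C N^(c - ci/M) → 0` because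
`c < ci/M`. The sums over `a ∈ [N, N+H)`, `v < V` of `near` are `≤ V ∑_n near + 4 T V^2`
(`avg_shift2` again).
-/

set_option autoImplicit false

namespace Pool.Agent.Work.MP_215640_nt

open Finset Polynomial Filter

private theorem h2_near (w : ℕ → Bool) (S : Finset ℕ) (ε : ℝ) (n : ℕ) :
    0 ≤ near w S ε n ∧ near w S ε n ≤ 1 := by
  unfold near; split_ifs <;> norm_num

private theorem h2_mem_Sm {w : ℕ → Bool} {K i j : ℕ} :
    j ∈ Sm w K i ↔ (1 ≤ j ∧ j ≤ K) ∧ cc w j < cc w i := by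
  classical
  unfold Sm
  rw [mem_filter, mem_Icc]

private theorem h2_T {c x : ℝ} (hcx : c < x) (C ε : ℝ) (hε : 0 < ε) :
    ∀ᶠ N : ℕ in atTop, C * (N : ℝ) ^ (1 - x) ≤ ε * (N : ℝ) ^ (1 - c) := by
  have h0 : 0 < x - c := by linarith
  have h1 := (tendsto_rpow_neg_atTop h0).comp (tendsto_natCast_atTop_atTop (R := ℝ))
  have h2 := h1.const_mul C
  rw [mul_zero] at h2
  have h3 := h2.eventually (gt_mem_nhds hε)
  filter_upwards [h3, eventually_ge_atTop 1] with N hN hN1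
  have hNR : (0 : ℝ) < N := by exact_mod_cast hN1
  have h4 : (N : ℝ) ^ (1 - x) = (N : ℝ) ^ (-(x - c)) * (N : ℝ) ^ (1 - c) := by
    rw [← Real.rpow_add hNR]
    congr 1
    ring
  simp only [Function.comp_apply] at hN
  rw [h4, ← mul_assoc]
  exact mul_le_mul_of_nonneg_right hN.le (by positivity)

private theorem h2_gen_sqrt (B : ℕ) : ∃ η : ℝ, 0 < η ∧ Gen B (2 * η) (Real.sqrt 2) := by
  induction B with
  | zero => exact ⟨1, one_pos, fun l h1 h2 => by omega⟩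
  | succ B ih =>
    obtain ⟨η, hη, hG⟩ := ih
    have hpos : 0 < dI (((B + 1 : ℕ) : ℝ) * Real.sqrt 2) := by
      rcases (dI_nonneg (((B + 1 : ℕ) : ℝ) * Real.sqrt 2)).lt_or_eq with h | h
      · exact h
      · exfalso
        obtain ⟨z, hz⟩ := exists_int_dI (((B + 1 : ℕ) : ℝ) * Real.sqrt 2)
        rw [← h, abs_eq_zero, sub_eq_zero] at hz
        have hirr : Irrational (((B + 1 : ℕ) : ℝ) * Real.sqrt 2) :=
          irrational_sqrt_two.natCast_mul (by omega)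
        exact hirr ⟨z, by rw [hz]; simp⟩
    refine ⟨min η (dI (((B + 1 : ℕ) : ℝ) * Real.sqrt 2) / 2),
      lt_min hη (by positivity), fun l h1 h2 => ?_⟩
    rcases Nat.lt_or_ge B l with h | h
    · have hl : l = B + 1 := by omega
      rw [hl]
      have := min_le_right η (dI (((B + 1 : ℕ) : ℝ) * Real.sqrt 2) / 2)
      linarith
    · have h3 := hG l h1 h
      have := min_le_left η (dI (((B + 1 : ℕ) : ℝ) * Real.sqrt 2) / 2)
      linarith

private theorem h2_core (w : ℕ → Bool) (K i : ℕ) (c : ℝ) (hc : 0 < c) (hA : Adm w K c)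
    (hi : 1 ≤ i) (hK : i ≤ K) (π : ℕ → Bool)
    (α β : ℝ) (h0 : 0 ≤ α) (h1 : α ≤ β) (h2 : β ≤ 1)
    (hnear : ∀ ε : ℝ, 0 < ε → ε ≤ 1 / 4 → ∀ᶠ N : ℕ in atTop, ∀ H : ℕ, (N : ℝ) ^ (1 - c) ≤ H →
      (H : ℝ) ≤ (N : ℝ) ^ (1 - c / 2) →
      (∑ n ∈ Ico N (N + H), near w (Sm w K i) ε n) ≤ 5 * ε * (Sm w K i).card * H) :
    SA c (gf w π (insert 0 (Sm w K i)) i α β) := by
  classical
  intro ε0 hε0
  obtain ⟨s, hs⟩ : ∃ s : ℝ, s = ((Sm w K i).card : ℝ) := ⟨_, rfl⟩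
  have hs0 : 0 ≤ s := by rw [hs]; positivity
  obtain ⟨ε, hεdef⟩ : ∃ ε : ℝ, ε = min (1 / 4) (ε0 / (2 + 5 * s)) := ⟨_, rfl⟩
  have hε : 0 < ε := by
    rw [hεdef]
    exact lt_min (by norm_num) (by positivity)
  have hε4 : ε ≤ 1 / 4 := by rw [hεdef]; exact min_le_left _ _
  have hεs : (2 + 5 * s) * ε ≤ ε0 := by
    have : ε ≤ ε0 / (2 + 5 * s) := by rw [hεdef]; exact min_le_right _ _
    rw [le_div_iff₀ (by positivity)] at this
    linarith
  obtain ⟨M, hM6, hciM, hcM, hanc⟩ := hA i hi hK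
  obtain ⟨mu, h⟩ := exists_ctx2 w K i M hi hK hM6 hciM hanc
  obtain ⟨B, hB, hrec⟩ := recur2 h π α β h0 h1 h2 ε hε
  obtain ⟨ρ, hρdef⟩ : ∃ ρ : ℝ, ρ = 1 / 2 * (Pst w (dg w (cc w i / M)) i).coeff M * (2 : ℝ) ^ M :=
    ⟨_, rfl⟩
  have hρ : ρ ≠ 0 := by
    have := Pst_top_ne_zero2 h
    rw [hρdef]
    positivity
  obtain ⟨η, hη, hgen⟩ := h2_gen_sqrt B
  obtain ⟨V0, hV0⟩ := hrec η hη
  obtain ⟨V, hV⟩ : ∃ V, V = V0 + 1 := ⟨_, rfl⟩
  have hVR : (0 : ℝ) < V := by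
    have : 0 < V := by omega
    exact_mod_cast this
  obtain ⟨CT, hCT, TT, hTT⟩ := T_choice M h.one_le_M (cc w i) ρ (Real.sqrt 2) c hρ
    (by positivity) (cc_pos w i) h.c_lt_M hc
  have hBR : (0 : ℝ) < B := by exact_mod_cast hB
  have hT := hTT (η / B) (by positivity)
  have hrecL := hV0 (2 * V) CT hCT
  have hTz := h2_T hcM (8 * (V : ℝ) * CT) ε hε
  filter_upwards [hrecL, hT, hnear ε hε hε4, hTz, eventually_ge_atTop 1] with N hN1 hN2 hN3 hN4 hNge
  intro H hH1 hH2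
  obtain ⟨T, hTdef⟩ : ∃ T, T = TT N := ⟨_, rfl⟩
  obtain ⟨g, hg⟩ : ∃ g : ℕ → ℝ, g = gf w π (insert 0 (Sm w K i)) i α β := ⟨_, rfl⟩
  obtain ⟨nr, hnr⟩ : ∃ nr : ℕ → ℝ, nr = near w (Sm w K i) ε := ⟨_, rfl⟩
  rw [← hTdef] at hN2
  rw [← hg] at hN1 ⊢
  rw [← hnr] at hN1 hN3
  rw [← hs] at hN3
  have hN3' := hN3 H hH1 hH2
  obtain ⟨hTlo, hTup, hTa⟩ := hN2
  have hNR1 : (1 : ℝ) ≤ N := by exact_mod_cast hNge
  have hNR : (0 : ℝ) < N := by linarith
  have hHN : H ≤ N := by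
    have h3 : (N : ℝ) ^ (1 - c / 2) ≤ (N : ℝ) ^ (1 : ℝ) :=
      Real.rpow_le_rpow_of_exponent_le hNR1 (by linarith)
    rw [Real.rpow_one] at h3
    exact_mod_cast hH2.trans h3
  have hgl : ∀ n, |g n| ≤ 1 := fun n => by rw [hg]; exact abs_gf_le2 w π _ i α β n h0 h1 h2
  have hnn : ∀ n, 0 ≤ nr n ∧ nr n ≤ 1 := fun n => by rw [hnr]; exact h2_near w _ ε n
  have hnl : ∀ n, |nr n| ≤ 1 := fun n => by rw [abs_of_nonneg (hnn n).1]; exact (hnn n).2
  have s1 := avg_shift2 g hgl N H T 2 V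
  have s2 := avg_shift2 nr hnl N H T 2 V
  -- single progressions
  have hsingle : ∀ a ∈ Ico N (N + H), |∑ v ∈ range V, g (a + T * (0 + 2 * v))| ≤
      ε * V + ∑ v ∈ range V, nr (a + T * (0 + 2 * v)) := by
    intro a ha
    rw [mem_Ico] at ha
    have haR : (a : ℝ) ≤ N + (N : ℝ) ^ (1 - c / 2) := by
      have h3 : (a : ℝ) ≤ N + H := by exact_mod_cast ha.2.le
      linarith
    have hclose := hTa a ha.1 haR
    obtain ⟨t, ht⟩ : ∃ t : ℝ, t = |ρ| * (a : ℝ) ^ (cc w i - M) * (T : ℝ) ^ M := ⟨_, rfl⟩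
    rw [← ht] at hclose
    have hgt : Gen B η t := by
      have h3 := hgen.perturb (s := t) (by
        have h4 : (B : ℝ) * |t - Real.sqrt 2| ≤ B * (η / B) :=
          mul_le_mul_of_nonneg_left hclose hBR.le
        have h5 : (B : ℝ) * (η / B) = η := by field_simp
        linarith)
      have h6 : 2 * η / 2 = η := by ring
      rwa [h6] at h3
    have hlam : Gen B η (lam2 w i M T a * ((2 : ℕ) : ℝ) ^ M) := by
      have e1 : lam2 w i M T a * ((2 : ℕ) : ℝ) ^ M =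
          ρ * (a : ℝ) ^ (cc w i - M) * (T : ℝ) ^ M := by
        unfold lam2
        rw [hρdef]
        push_cast
        ring
      rw [e1]
      rcases abs_cases ρ with ⟨h3, _⟩ | ⟨h3, _⟩
      · rw [h3] at ht
        rw [← ht]
        exact hgt
      · have e2 : ρ * (a : ℝ) ^ (cc w i - M) * (T : ℝ) ^ M = -t := by
          rw [ht, h3]; ring
        rw [e2]
        intro l hl1 hl2
        rw [mul_neg, dI_neg]
        exact hgt l hl1 hl2
    exact hN1 T a 0 2 V hTlo hTup ha.1 (by omega) (by norm_num) (by decide) (by omega)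
      (by intro v hv; omega) hlam
  have hcardN : ((Ico N (N + H)).card : ℝ) = H := by
    rw [Nat.card_Ico, show N + H - N = H by omega]
  have hsum : |∑ a ∈ Ico N (N + H), ∑ v ∈ range V, g (a + T * (0 + 2 * v))| ≤
      ε * V * H + ∑ a ∈ Ico N (N + H), ∑ v ∈ range V, nr (a + T * (0 + 2 * v)) := by
    calc |∑ a ∈ Ico N (N + H), ∑ v ∈ range V, g (a + T * (0 + 2 * v))|
        ≤ ∑ a ∈ Ico N (N + H), |∑ v ∈ range V, g (a + T * (0 + 2 * v))| :=
          abs_sum_le_sum_abs _ _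
      _ ≤ ∑ a ∈ Ico N (N + H), (ε * V + ∑ v ∈ range V, nr (a + T * (0 + 2 * v))) :=
          sum_le_sum hsingle
      _ = ε * V * H + ∑ a ∈ Ico N (N + H), ∑ v ∈ range V, nr (a + T * (0 + 2 * v)) := by
          rw [sum_add_distrib, sum_const, nsmul_eq_mul, hcardN]
          ring
  have hA : (V : ℝ) * |∑ n ∈ Ico N (N + H), g n| ≤
      V * ((ε + 5 * ε * s) * H + 8 * V * T) := by
    have e1 : (V : ℝ) * |∑ n ∈ Ico N (N + H), g n| = |V * ∑ n ∈ Ico N (N + H), g n| := by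
      rw [abs_mul, abs_of_pos hVR]
    rw [e1]
    rw [abs_le] at s1 s2 hsum
    have e2 : (V : ℝ) * ∑ n ∈ Ico N (N + H), nr n ≤ V * (5 * ε * s * H) :=
      mul_le_mul_of_nonneg_left hN3' hVR.le
    push_cast at s1 s2
    rw [abs_le]
    constructor
    · nlinarith [s1.1, s1.2, s2.1, s2.2, hsum.1, hsum.2]
    · nlinarith [s1.1, s1.2, s2.1, s2.2, hsum.1, hsum.2]
  have hA' := le_of_mul_le_mul_left hA hVR
  have hH0 : (0 : ℝ) ≤ H := by positivity
  have hTH : 8 * V * T ≤ ε * H := by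
    calc 8 * V * (T : ℝ) ≤ 8 * V * (CT * (N : ℝ) ^ (1 - cc w i / M)) := by gcongr
      _ = 8 * (V : ℝ) * CT * (N : ℝ) ^ (1 - cc w i / M) := by ring
      _ ≤ ε * (N : ℝ) ^ (1 - c) := hN4
      _ ≤ ε * H := mul_le_mul_of_nonneg_left hH1 hε.le
  calc |∑ n ∈ Ico N (N + H), g n| ≤ (ε + 5 * ε * s) * H + 8 * V * T := hA'
    _ ≤ (ε + 5 * ε * s) * H + ε * H := by linarith
    _ = ((2 + 5 * s) * ε) * H := by ring
    _ ≤ ε0 * H := mul_le_mul_of_nonneg_right hεs hH0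

theorem half2 (w : ℕ → Bool) (K : ℕ) (c : ℝ) (hc : 0 < c) (hA : Adm w K c) (i : ℕ) (hi : 1 ≤ i)
    (hK : i ≤ K) (π : ℕ → Bool) (α β : ℝ) (h0 : 0 ≤ α) (h1 : α ≤ β) (h2 : β ≤ 1) :
    SA c (gf w π (insert 0 (Sm w K i)) i α β) := by
  classical
  suffices hmain : ∀ m : ℕ, ∀ i, 1 ≤ i → i ≤ K → (Sm w K i).card = m →
      ∀ (π : ℕ → Bool) (α β : ℝ), 0 ≤ α → α ≤ β → β ≤ 1 →
      SA c (gf w π (insert 0 (Sm w K i)) i α β) from hmain _ i hi hK rfl π α β h0 h1 h2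
  intro m
  induction m using Nat.strong_induction_on with
  | _ m ihm =>
    intro i hi hK hm π α β h0 h1 h2
    apply h2_core w K i c hc hA hi hK π α β h0 h1 h2
    intro ε hε hε4
    apply near_small2 w (Sm w K i) c _ ε hε hε4
    intro j hj
    have hj' := h2_mem_Sm.1 hj
    have hlt : (Sm w K j).card < m := by
      rw [← hm]
      apply card_lt_card
      refine ⟨?_, ?_⟩
      · intro l hl
        rw [h2_mem_Sm] at hl ⊢
        exact ⟨hl.1, hl.2.trans hj'.2⟩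
      · intro hsub
        have := h2_mem_Sm.1 (hsub hj)
        exact lt_irrefl _ this.2
    exact arc_of_half2 w (insert 0 (Sm w K j)) j c
      (fun π α β h0 h1 h2 => ihm _ hlt j hj'.1.1 hj'.1.2 rfl π α β h0 h1 h2)

end Pool.Agent.Work.MP_215640_nt
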