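import Pool.Agent.Work.MP_215640_nt.S.Defs2
import Pool.Agent.Work.MP_215640_nt.Density

/-!
MODULE PAT2. Frequencies of parity patterns in short intervals.

`pat_sa`: as `pat_density` (see `Density.lean`: `floor_odd_iff`), with `SA` in place of the limits:
for `S ⊆ Icc 1 K` closed downwards the function `1_{Pat (insert 0 S)} - (1/2)^(S.card + 1)` is `SA`
(`|S.card|` induction). Base: half of the integers of an interval of length `H → ∞` (`c < 1`).

`sa_extend`: the interval `[N, N + H)` with `N^(1-c) ≤ H ≤ N`: if `H ≤ N^(1-c/2)` nothing to do;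
otherwise put `h = ⌈2 N^(1-c)⌉₊` and cut it into consecutive intervals of length in `[h, 2 h)`; each starts
at some `N' ∈ [N, 2 N)`, and `N'^(1-c) ≤ 2^(1-c) N^(1-c) ≤ h`, `2 h ≤ N^(1-c/2) ≤ N'^(1-c/2)` for large `N`.
-/

set_option autoImplicit false

namespace Pool.Agent.Work.MP_215640_nt

open Finset Polynomial Filter

private theorem pat2_add {c : ℝ} {f g : ℕ → ℝ} (hf : SA c f) (hg : SA c g) :
    SA c (fun n => f n + g n) := by
  intro ε hε
  filter_upwards [hf (ε / 2) (by positivity), hg (ε / 2) (by positivity)] with N h1 h2 H hH1 hH2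
  have a1 := h1 H hH1 hH2
  have a2 := h2 H hH1 hH2
  rw [sum_add_distrib]
  refine (abs_add_le _ _).trans ?_
  linarith

private theorem pat2_smul {c : ℝ} {f : ℕ → ℝ} (hf : SA c f) :
    SA c (fun n => 1 / 2 * f n) := by
  intro ε hε
  filter_upwards [hf ε hε] with N h1 H hH1 hH2
  have a1 := h1 H hH1 hH2
  rw [← mul_sum, abs_mul, abs_of_pos (by norm_num : (0 : ℝ) < 1 / 2)]
  have := abs_nonneg (∑ n ∈ Ico N (N + H), f n)
  linarith

private theorem pat2_base (c : ℝ) (hc1 : c < 1) (b : Prop) [Decidable b] :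
    SA c (fun n => (if (n % 2 = 1 ↔ b) then 1 else 0) - 1 / 2) := by
  intro ε hε
  have h1 : Tendsto (fun N : ℕ => (N : ℝ) ^ (1 - c)) atTop atTop :=
    (tendsto_rpow_atTop (by linarith)).comp tendsto_natCast_atTop_atTop
  filter_upwards [h1.eventually_ge_atTop (1 / ε)] with N hN H hH1 _
  have h2 := DensityAux.count_parity N b H
  rw [sum_sub_distrib, sum_boole, sum_const, Nat.card_Ico, Nat.add_sub_cancel_left, nsmul_eq_mul]
  have h3 : 1 ≤ ε * H := by
    have := hN.trans hH1
    rw [div_le_iff₀ hε] at this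
    linarith
  rw [abs_le] at h2 ⊢
  constructor <;> linarith [h2.1, h2.2]

open Classical in
theorem pat_sa (w : ℕ → Bool) (K : ℕ) (c : ℝ) (hc : 0 < c) (hc1 : c < 1) (π : ℕ → Bool)
    (H : ∀ i, 1 ≤ i → i ≤ K → ∀ (α β : ℝ), 0 ≤ α → α ≤ β → β ≤ 1 →
      SA c (gf w π (insert 0 (Sm w K i)) i α β)) :
    SA c (fun n => (if Pat w π (range (K + 1)) n then 1 else 0) - (1 / 2) ^ (K + 1)) := by
  have key : ∀ (m : ℕ) (S : Finset ℕ), S.card = m → S ⊆ Icc 1 K →
      (∀ j ∈ S, ∀ l ∈ Icc 1 K, cc w l < cc w j → l ∈ S) →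
      SA c (fun n => (if Pat w π (insert 0 S) n then 1 else 0) - (1 / 2) ^ (m + 1)) := by
    intro m
    induction m with
    | zero =>
      intro S hS _ _
      rw [card_eq_zero] at hS
      subst hS
      have h := pat2_base c hc1 (π 0 = true)
      rw [zero_add, pow_one]
      have e : (fun n : ℕ => (if Pat w π (insert 0 ∅) n then (1 : ℝ) else 0) - 1 / 2) =
          fun n : ℕ => (if (n % 2 = 1 ↔ π 0 = true) then (1 : ℝ) else 0) - 1 / 2 := by
        funext n
        congr 1
        refine if_congr ?_ rfl rfl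
        unfold Pat
        simp only [insert_empty_eq, mem_singleton, forall_eq, F_zero]
      rw [e]
      exact h
    | succ m ih =>
      intro S hS hSK hcl
      have hne : S.Nonempty := by
        rw [← card_pos, hS]; omega
      obtain ⟨i, hiS, hi⟩ := exists_max_image S (fun j => cc w j) hne
      have hiK := mem_Icc.1 (hSK hiS)
      have hSm : S.erase i = Sm w K i := by
        ext j
        unfold Sm
        rw [mem_erase, mem_filter]
        constructor
        · rintro ⟨hji, hjS⟩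
          refine ⟨hSK hjS, lt_of_le_of_ne (hi j hjS) fun h => hji (cc_inj w h)⟩
        · rintro ⟨hjK, hlt⟩
          refine ⟨?_, hcl i hiS j hjK hlt⟩
          rintro rfl
          exact lt_irrefl _ hlt
      have hcard : (Sm w K i).card = m := by
        rw [← hSm, card_erase_of_mem hiS, hS]; rfl
      have hsub : Sm w K i ⊆ Icc 1 K := by
        rw [← hSm]; exact (erase_subset _ _).trans hSK
      have hcl' : ∀ j ∈ Sm w K i, ∀ l ∈ Icc 1 K, cc w l < cc w j → l ∈ Sm w K i := by
        intro j hj l hl hlt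
        unfold Sm at hj ⊢
        rw [mem_filter] at hj ⊢
        exact ⟨hl, hlt.trans hj.2⟩
      have h1 := ih (Sm w K i) hcard hsub hcl'
      obtain ⟨α, β, hα, hαβ, hβ, hlen, harc⟩ : ∃ α β : ℝ, 0 ≤ α ∧ α ≤ β ∧ β ≤ 1 ∧ β - α = 1 / 2 ∧
          ∀ n, (Int.fract (xx w i n / 2) ∈ Set.Ico α β ↔ (F w i n % 2 = 1 ↔ π i = true)) := by
        by_cases hp : π i = true
        · refine ⟨1 / 2, 1, by norm_num, by norm_num, by norm_num, by norm_num, fun n => ?_⟩
          rw [F, DensityAux.floor_odd_iff _ (xx_nonneg w i n), Set.mem_Ico]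
          simp only [hp, iff_true]
          exact ⟨fun h => h.1, fun h => ⟨h, Int.fract_lt_one _⟩⟩
        · refine ⟨0, 1 / 2, by norm_num, by norm_num, by norm_num, by norm_num, fun n => ?_⟩
          rw [F, DensityAux.floor_odd_iff _ (xx_nonneg w i n), Set.mem_Ico]
          have e : (1 / 2 ≤ Int.fract (xx w i n / 2) ↔ π i = true) ↔
              Int.fract (xx w i n / 2) < 1 / 2 := by
            rw [← not_le]
            tauto
          rw [e]
          exact ⟨fun h => h.2, fun h => ⟨Int.fract_nonneg _, h⟩⟩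
      have h2 := H i hiK.1 hiK.2 α β hα hαβ hβ
      have h3 := pat2_add h2 (pat2_smul h1)
      have hind : (fun n => (if Pat w π (insert 0 S) n then (1 : ℝ) else 0) - (1 / 2) ^ (m + 1 + 1)) =
          fun n => gf w π (insert 0 (Sm w K i)) i α β n +
            1 / 2 * ((if Pat w π (insert 0 (Sm w K i)) n then (1 : ℝ) else 0) -
              (1 / 2) ^ (m + 1)) := by
        funext n
        have hP : Pat w π (insert 0 S) n ↔
            Pat w π (insert 0 (Sm w K i)) n ∧ (F w i n % 2 = 1 ↔ π i = true) := by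
          rw [← hSm]
          unfold Pat
          constructor
          · intro h
            refine ⟨fun j hj => h j ?_, h i (mem_insert_of_mem hiS)⟩
            rcases mem_insert.1 hj with hj | hj
            · rw [hj]; exact mem_insert_self _ _
            · exact mem_insert_of_mem (mem_of_mem_erase hj)
          · rintro ⟨h, h'⟩ j hj
            by_cases hji : j = i
            · rw [hji]; exact h'
            · refine h j ?_
              rcases mem_insert.1 hj with hj | hj
              · rw [hj]; exact mem_insert_self _ _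
              · exact mem_insert_of_mem (mem_erase.2 ⟨hji, hj⟩)
        unfold gf arc
        by_cases hQ : Pat w π (insert 0 (Sm w K i)) n
        · rw [if_pos hQ, if_pos hQ, hlen]
          by_cases hF : (F w i n % 2 = 1 ↔ π i = true)
          · rw [if_pos (hP.2 ⟨hQ, hF⟩), if_pos ((harc n).2 hF)]; ring
          · rw [if_neg (fun h => hF (hP.1 h).2), if_neg (fun h => hF ((harc n).1 h))]; ring
        · rw [if_neg hQ, if_neg hQ, if_neg (fun h => hQ (hP.1 h).1)]; ring
      rw [hind]
      exact h3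
  have h := key K (Icc 1 K) (by simp) (subset_refl _) (fun j _ l hl _ => hl)
  have e : insert 0 (Icc 1 K) = range (K + 1) := by
    ext n; simp only [mem_insert, mem_Icc, mem_range]; omega
  rw [e] at h
  exact h

private theorem pat2_block (f : ℕ → ℝ) (ε : ℝ) (h N E : ℕ) (hh : 1 ≤ h)
    (H : ∀ s L : ℕ, N ≤ s → h ≤ L → L < 2 * h → s + L ≤ E → |∑ n ∈ Ico s (s + L), f n| ≤ ε * L) :
    ∀ L s : ℕ, N ≤ s → h ≤ L → s + L ≤ E → |∑ n ∈ Ico s (s + L), f n| ≤ ε * L := by
  intro L
  induction L using Nat.strong_induction_on with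
  | _ L ih =>
    intro s hs hL hE
    by_cases h2 : L < 2 * h
    · exact H s L hs hL h2 hE
    · push Not at h2
      obtain ⟨L', rfl⟩ := Nat.exists_eq_add_of_le (show h ≤ L by omega)
      have h3 := H s h hs le_rfl (by omega) (by omega)
      have h4 := ih L' (by omega) (s + h) (by omega) (by omega) (by omega)
      have h5 : ∑ n ∈ Ico s (s + (h + L')), f n =
          ∑ n ∈ Ico s (s + h), f n + ∑ n ∈ Ico (s + h) (s + h + L'), f n := by
        rw [sum_Ico_consecutive f (by omega) (by omega)]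
        congr 2
        omega
      rw [h5]
      refine (abs_add_le _ _).trans ?_
      push_cast
      linarith

theorem sa_extend (c : ℝ) (hc : 0 < c) (hc1 : c < 1) (f : ℕ → ℝ) (h : SA c f) :
    ∀ ε : ℝ, 0 < ε → ∀ᶠ N : ℕ in atTop, ∀ H : ℕ, (N : ℝ) ^ (1 - c) ≤ H → H ≤ N →
      |∑ n ∈ Ico N (N + H), f n| ≤ ε * H := by
  intro ε hε
  obtain ⟨N0, hN0⟩ := eventually_atTop.1 (h ε hε)
  have h1 : Tendsto (fun N : ℕ => (N : ℝ) ^ (c / 2)) atTop atTop :=
    (tendsto_rpow_atTop (by linarith)).comp tendsto_natCast_atTop_atTop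
  filter_upwards [h1.eventually_ge_atTop 6, eventually_ge_atTop N0, eventually_ge_atTop 1] with
    N hN6 hNN0 hN1 H hH1 hH2
  have hNpos : (0 : ℝ) < N := by exact_mod_cast hN1
  have hN1' : (1 : ℝ) ≤ N := by exact_mod_cast hN1
  by_cases hsmall : (H : ℝ) ≤ (N : ℝ) ^ (1 - c / 2)
  · exact hN0 N hNN0 H hH1 hsmall
  push Not at hsmall
  obtain ⟨hh, hhdef⟩ : ∃ hh : ℕ, hh = ⌈2 * (N : ℝ) ^ (1 - c)⌉₊ := ⟨_, rfl⟩
  have hA : (1 : ℝ) ≤ (N : ℝ) ^ (1 - c) := Real.one_le_rpow hN1' (by linarith)
  have hlow : 2 * (N : ℝ) ^ (1 - c) ≤ hh := by rw [hhdef]; exact Nat.le_ceil _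
  have hup : (hh : ℝ) < 2 * (N : ℝ) ^ (1 - c) + 1 := by
    rw [hhdef]; exact Nat.ceil_lt_add_one (by positivity)
  have hprod : (N : ℝ) ^ (1 - c / 2) = (N : ℝ) ^ (1 - c) * (N : ℝ) ^ (c / 2) := by
    rw [← Real.rpow_add hNpos]; congr 1; ring
  have h2hh : 2 * (hh : ℝ) ≤ (N : ℝ) ^ (1 - c / 2) := by
    rw [hprod]
    nlinarith
  have hhpos : 1 ≤ hh := by
    have : (1 : ℝ) ≤ hh := by linarith
    exact_mod_cast this
  refine pat2_block f ε hh N (N + H) hhpos ?_ H N le_rfl ?_ le_rfl
  · intro s L hs hL1 hL2 hsE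
    have hs2 : (s : ℝ) ≤ 2 * N := by
      have : s ≤ 2 * N := by omega
      exact_mod_cast this
    have hsN : (N : ℝ) ≤ s := by exact_mod_cast hs
    have hL1' : (hh : ℝ) ≤ L := by exact_mod_cast hL1
    have hL2' : (L : ℝ) < 2 * hh := by exact_mod_cast hL2
    refine hN0 s (hNN0.trans hs) L ?_ ?_
    · calc (s : ℝ) ^ (1 - c) ≤ (2 * N) ^ (1 - c) :=
          Real.rpow_le_rpow (by positivity) hs2 (by linarith)
        _ = 2 ^ (1 - c) * (N : ℝ) ^ (1 - c) := Real.mul_rpow (by norm_num) hNpos.le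
        _ ≤ 2 * (N : ℝ) ^ (1 - c) := by
            refine mul_le_mul_of_nonneg_right ?_ (by positivity)
            calc (2 : ℝ) ^ (1 - c) ≤ 2 ^ (1 : ℝ) :=
                Real.rpow_le_rpow_of_exponent_le (by norm_num) (by linarith)
              _ = 2 := Real.rpow_one 2
        _ ≤ hh := hlow
        _ ≤ L := hL1'
    · calc (L : ℝ) ≤ 2 * hh := hL2'.le
        _ ≤ (N : ℝ) ^ (1 - c / 2) := h2hh
        _ ≤ (s : ℝ) ^ (1 - c / 2) := Real.rpow_le_rpow hNpos.le hsN (by linarith)
  · have : (hh : ℝ) ≤ H := by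
      have : (0 : ℝ) ≤ hh := Nat.cast_nonneg _
      linarith
    exact_mod_cast this

end Pool.Agent.Work.MP_215640_nt
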