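import Pool.Agent.Work.MP_215640_nt.S.Half2
import Pool.Agent.Work.MP_215640_nt.S.Pat2
import Pool.Agent.Work.MP_215640_nt.Walk

/-!
Assembly: parity patterns and parity words in short intervals.
-/

set_option autoImplicit false

namespace Pool.Agent.Work.MP_215640_nt

open Finset Polynomial Filter N55eda7c2

open Classical in
theorem short_pat (w : ℕ → Bool) (K : ℕ) (c : ℝ) (hc : 0 < c) (hc1 : c < 1) (hA : Adm w K c) :
    ∀ ε : ℝ, 0 < ε → ∀ᶠ N : ℕ in atTop, ∀ H : ℕ, (N : ℝ) ^ (1 - c) ≤ H → H ≤ N →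
      |(((Ico N (N + H)).filter (fun n => Pat w w (range (K + 1)) n)).card : ℝ)
        - (1 / 2) ^ (K + 1) * H| ≤ ε * H := by
  intro ε hε
  have h1 := sa_extend c hc hc1 _ (pat_sa w K c hc hc1 w
    (fun i h1 h2 α β h3 h4 h5 => half2 w K c hc hA i h1 h2 w α β h3 h4 h5)) ε hε
  filter_upwards [h1] with N hN H hH1 hH2
  have h2 := hN H hH1 hH2
  rw [sum_sub_distrib, sum_boole, sum_const, Nat.card_Ico, Nat.add_sub_cancel_left,
    nsmul_eq_mul] at h2
  rwa [mul_comm ((H : ℝ))] at h2

open Classical in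
theorem short_words (k : ℕ) (w : ℕ → Prop) :
    ∃ c : ℝ, 0 < c ∧ c < 1 ∧ ∀ ε : ℝ, 0 < ε → ∀ᶠ N : ℕ in atTop, ∀ H : ℕ,
      (N : ℝ) ^ (1 - c) ≤ H → H ≤ N →
      |(((Ico N (N + H)).filter
          (fun n : ℕ => ∀ j < k, (Odd (jugglerStep^[j] n) ↔ w j))).card : ℝ)
        - (1 / 2) ^ k * H| ≤ ε * H := by
  cases k with
  | zero =>
    refine ⟨1 / 2, by norm_num, by norm_num, fun ε hε => ?_⟩
    filter_upwards with N H hH1 hH2
    simp only [not_lt_zero, false_imp_iff, implies_true, filter_true, Nat.card_Ico,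
      Nat.add_sub_cancel_left, pow_zero, one_mul, sub_self, abs_zero]
    positivity
  | succ K =>
    obtain ⟨c, h1, h2, h3⟩ := adm_exists (fun j => decide (w j)) K
    refine ⟨c, h1, h2, fun ε hε => ?_⟩
    filter_upwards [short_pat (fun j => decide (w j)) K c h1 h2 h3 ε hε] with N hN H hH1 hH2
    have h4 := hN H hH1 hH2
    have h5 : (Ico N (N + H)).filter
          (fun n : ℕ => ∀ j < K + 1, (Odd (jugglerStep^[j] n) ↔ w j)) =
        (Ico N (N + H)).filter
          (fun n => Pat (fun j => decide (w j)) (fun j => decide (w j)) (range (K + 1)) n) := by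
      ext n
      simp only [mem_filter, and_congr_right_iff]
      intro _
      rw [← word_iff]
      apply forall_congr'
      intro j
      apply imp_congr_right
      intro _
      rw [← Nat.odd_iff, decide_eq_true_iff]
    rw [h5]
    exact h4

end Pool.Agent.Work.MP_215640_nt
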