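import Pool.Agent.Work.MP_215640_nt.S.QIter
import Pool.Agent.Work.MP_215640_nt.S.ShortPat

/-!
Assembly of the lower bound for the logarithmic count of the integers whose juggler sequence
contains `m`.
-/

set_option autoImplicit false

namespace Pool.Agent.Work.MP_215640_nt

open Finset Polynomial Filter N55eda7c2

theorem fibres_fp (θ : ℝ) (K0 : ℕ) (_hθ : 0 < θ) (hθ2 : θ ≤ 1 / 2) (p : ℕ × Finset ℕ)
    (hp : p ∈ FP θ K0) (ε : ℝ) (hε : 0 < ε) :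
      ∀ᶠ m : ℕ in atTop, ∃ s : Finset ℕ,
      (∀ n ∈ s, 1 ≤ n ∧ Pat (wd p.2) (wd p.2) (range (p.1 + 4)) n ∧
        F (wd p.2) (p.1 + 4) n = m ∧ (m : ℝ) ^ (1 / cc (wd p.2) (p.1 + 4)) ≤ n ∧
        (n : ℝ) + 1 ≤ ((m : ℝ) + 1) ^ (1 / cc (wd p.2) (p.1 + 4))) ∧
      (1 - ε) * (1 / 2) ^ (p.1 + 4) / (cc (wd p.2) (p.1 + 4) * m) ≤ ∑ n ∈ s, (1 : ℝ) / n := by
  obtain ⟨h1, h2, h3, h4, h5, h6⟩ := fp_spec hp (by linarith)
  obtain ⟨h7, h8, h9⟩ := adm_word (wd p.2) p.1 h1 (by linarith) h5 (fun l hl _ => h6 l hl)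
  have h10 : cc (wd p.2) (p.1 + 4) < 1 / 2 := by rw [h8]; linarith
  exact fibre_sum (wd p.2) (p.1 + 4) (by omega) h9 h10
    (short_pat (wd p.2) (p.1 + 3) (cc (wd p.2) (p.1 + 4)) (cc_pos _ _) (by linarith) h7) ε hε

private theorem J_two : jugglerStep 2 = 1 := by
  unfold jugglerStep
  rw [if_pos even_two, Nat.floor_eq_iff (by positivity)]
  constructor
  · have : (1 : ℝ) ≤ ((2 : ℕ) : ℝ) ^ (1 / 2 : ℝ) :=
      Real.one_le_rpow (by norm_num) (by norm_num)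
    simpa using this
  · have : ((2 : ℕ) : ℝ) ^ (1 / 2 : ℝ) < ((2 : ℕ) : ℝ) ^ (1 : ℝ) :=
      Real.rpow_lt_rpow_of_exponent_lt (by norm_num) (by norm_num)
    rw [Real.rpow_one] at this
    refine this.trans_le ?_
    norm_num

open Classical in
theorem q_main (m : ℕ) (hm : 1 ≤ m) (δ : ℝ) (hδ : 0 < δ) :
    ∀ᶠ x : ℕ in atTop, (Real.log x) ^ (1 - δ) ≤
      ∑ n ∈ (Icc 1 x).filter (fun n : ℕ => ∃ k : ℕ, jugglerStep^[k] n = m), (1 : ℝ) / n := by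
  set G : Set ℕ := {n | ∃ k : ℕ, jugglerStep^[k] n = m} with hGdef
  have hG : ∀ n, jugglerStep n ∈ G → n ∈ G := by
    rintro n ⟨k, hk⟩
    exact ⟨k + 1, by rw [Function.iterate_succ_apply]; exact hk⟩
  obtain ⟨g, hg, hg2⟩ : ∃ g ∈ G, 2 ≤ g := by
    rcases eq_or_lt_of_le hm with h1 | h1
    · refine ⟨2, ⟨1, ?_⟩, le_refl _⟩
      rw [Function.iterate_one, J_two, h1]
    · exact ⟨m, ⟨0, rfl⟩, h1⟩
  obtain ⟨κ, T1, hκ, hT1, H⟩ := q_lower G hG g hg hg2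
    (fun θ K0 h1 h2 p hp ε hε => fibres_fp θ K0 h1 h2 p hp ε hε) (δ / 2) (by positivity)
  have hlog : Tendsto (fun x : ℕ => Real.log x) atTop atTop :=
    Real.tendsto_log_atTop.comp tendsto_natCast_atTop_atTop
  have hpow : Tendsto (fun x : ℕ => (Real.log x) ^ (δ / 2)) atTop atTop :=
    (tendsto_rpow_atTop (by positivity)).comp hlog
  have h3 : (0 : ℝ) < (1 / 3 : ℝ) ^ (1 - δ / 2) := by positivity
  filter_upwards [hlog.eventually_ge_atTop (3 * T1), hpow.eventually_ge_atTop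
    (1 / (κ * (1 / 3 : ℝ) ^ (1 - δ / 2))), eventually_ge_atTop 1] with x hx1 hx2 hx3
  have hx0 : (0 : ℝ) < x := by exact_mod_cast hx3
  have hl0 : 0 < Real.log x := by linarith
  have h4 := H (Real.log x / 3) (by linarith)
  have h5 : (Real.log x) ^ (1 - δ) ≤ κ * (Real.log x / 3) ^ (1 - δ / 2) := by
    have h6 : (Real.log x / 3) ^ (1 - δ / 2) =
        (1 / 3 : ℝ) ^ (1 - δ / 2) * ((Real.log x) ^ (1 - δ) * (Real.log x) ^ (δ / 2)) := by
      have e1 : (1 : ℝ) - δ + δ / 2 = 1 - δ / 2 := by ring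
      have e2 : Real.log x / 3 = 1 / 3 * Real.log x := by ring
      rw [← Real.rpow_add hl0, e1, e2, Real.mul_rpow (by norm_num) hl0.le]
    rw [h6]
    rw [div_le_iff₀ (by positivity)] at hx2
    have h7 : 0 < (Real.log x) ^ (1 - δ) := Real.rpow_pos_of_pos hl0 _
    calc (Real.log x) ^ (1 - δ) = (Real.log x) ^ (1 - δ) * 1 := by ring
      _ ≤ (Real.log x) ^ (1 - δ) *
          ((Real.log x) ^ (δ / 2) * (κ * (1 / 3 : ℝ) ^ (1 - δ / 2))) :=
        mul_le_mul_of_nonneg_left hx2 h7.le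
      _ = _ := by ring
  refine h5.trans (h4.trans ?_)
  unfold BB
  apply sum_le_sum_of_subset_of_nonneg
  · intro n hn
    rw [mem_filter] at hn
    obtain ⟨-, h6, h7, -, h8⟩ := hn
    rw [mem_filter, mem_Icc]
    refine ⟨⟨h7, ?_⟩, h6⟩
    have h9 : Real.exp (3 * (Real.log x / 3)) = x := by
      rw [mul_div_cancel₀ _ (by norm_num : (3 : ℝ) ≠ 0), Real.exp_log hx0]
    rw [h9] at h8
    have : (n : ℝ) ≤ x := by linarith
    exact_mod_cast this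
  · intro n _ _
    positivity

end Pool.Agent.Work.MP_215640_nt
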