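import Pool.Agent.Work.MP_215640_nt.S.QRec

/-!
MODULE QITER. Iteration of the renewal inequality.

`iter_bound`: `h(T) = β(T) T^δ` satisfies `h(T) ≥ λ c2^(-δ) h(T') ≥ h(T')` for some `T' ∈ [c1 T, c2 T]`
if `T ≥ T0`; by induction on `n` for `c1 T0 ≤ T ≤ T0 c2^(-n)`: `h(T) ≥ κ (c1 T0)^δ`.

`bb_pos`: `G` contains an even `a ≥ 2` (`g` itself or `g^2 + 1` if `g` is odd: `J (g^2+1) = g`), then
`a^(2^j) ∈ G` for all `j` (`J (a^2) = a` for even `a`). For `T ≥ T1 = log a` take the least `j` with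
`e^T ≤ a^(2^j)`: then `a^(2^j) < e^(2T)` if `j ≥ 1` (`a^(2^(j-1)) < e^T`), and `n + 1 ≤ e^(3T)`. For
`j = 0`: `T = log a`. So `BB G T ≥ 1/n ≥ e^(-3T)`.

`q_lower`: choose `θ` so small that `(16/θ)^δ ≥ 64`, `K0` with `θ^(-1/2) 0.97^K0 ≤ 1/2`, `ε = 1/2`;
with `β(T) = BB G T / T`, `c2 = θ/16`, `c1 = θ/32`: `β(T) ≥ ∑_p (1/2)(1/2)^(p.1+4) β(c_p T)
≥ (1/64) min_p β(c_p T)` (`qrec`, `fp_mass`, `fp_spec`; `c_p = cc (wd p.2) p.1 / 16`).
-/

set_option autoImplicit false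

namespace Pool.Agent.Work.MP_215640_nt

open Finset Polynomial Filter N55eda7c2

theorem iter_bound (β : ℝ → ℝ) (T0 c1 c2 lam κ δ : ℝ) (hT0 : 0 < T0) (hc1 : 0 < c1)
    (hc12 : c1 ≤ c2) (hc2 : c2 < 1) (hlam : 0 < lam) (hκ : 0 < κ) (hδ : 0 < δ)
    (hlc : c2 ^ δ ≤ lam)
    (H : ∀ T ≥ T0, ∃ T' : ℝ, c1 * T ≤ T' ∧ T' ≤ c2 * T ∧ lam * β T' ≤ β T)
    (Hb : ∀ T : ℝ, c1 * T0 ≤ T → T ≤ T0 → κ ≤ β T) :
    ∀ T ≥ c1 * T0, κ * (c1 * T0) ^ δ * T ^ (-δ) ≤ β T := by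
  have hc2pos : 0 < c2 := lt_of_lt_of_le hc1 hc12
  have hc1T0 : 0 < c1 * T0 := mul_pos hc1 hT0
  have base : ∀ T : ℝ, c1 * T0 ≤ T → T ≤ T0 → κ * (c1 * T0) ^ δ * T ^ (-δ) ≤ β T := by
    intro T h1 h2
    have hT : 0 < T := lt_of_lt_of_le hc1T0 h1
    refine le_trans ?_ (Hb T h1 h2)
    have h3 : (c1 * T0) ^ δ ≤ T ^ δ := Real.rpow_le_rpow hc1T0.le h1 hδ.le
    have h4 : T ^ δ * T ^ (-δ) = 1 := by
      rw [← Real.rpow_add hT, add_neg_cancel, Real.rpow_zero]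
    have h5 : 0 < T ^ (-δ) := Real.rpow_pos_of_pos hT _
    calc κ * (c1 * T0) ^ δ * T ^ (-δ) ≤ κ * T ^ δ * T ^ (-δ) := by gcongr
      _ = κ := by rw [mul_assoc, h4, mul_one]
  have main : ∀ n : ℕ, ∀ T : ℝ, c1 * T0 ≤ T → T * c2 ^ n ≤ T0 →
      κ * (c1 * T0) ^ δ * T ^ (-δ) ≤ β T := by
    intro n
    induction n with
    | zero =>
      intro T h1 h2
      exact base T h1 (by simpa using h2)
    | succ n ih =>
      intro T h1 h2
      rcases le_total T T0 with h3 | h3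
      · exact base T h1 h3
      · obtain ⟨T', h4, h5, h6⟩ := H T h3
        have hT : 0 < T := lt_of_lt_of_le hT0 h3
        have hT' : 0 < T' := lt_of_lt_of_le (mul_pos hc1 hT) h4
        have h7 : c1 * T0 ≤ T' := le_trans (mul_le_mul_of_nonneg_left h3 hc1.le) h4
        have h8 : T' * c2 ^ n ≤ T0 := by
          refine le_trans ?_ h2
          calc T' * c2 ^ n ≤ c2 * T * c2 ^ n := mul_le_mul_of_nonneg_right h5 (by positivity)
            _ = T * c2 ^ (n + 1) := by ring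
        have h9 := ih T' h7 h8
        refine le_trans ?_ h6
        have h10 : lam * (κ * (c1 * T0) ^ δ * T' ^ (-δ)) ≤ lam * β T' :=
          mul_le_mul_of_nonneg_left h9 hlam.le
        refine le_trans ?_ h10
        have h11 : (c2 * T) ^ (-δ) ≤ T' ^ (-δ) :=
          Real.rpow_le_rpow_of_nonpos hT' h5 (by linarith)
        have h12 : (c2 * T) ^ (-δ) = c2 ^ (-δ) * T ^ (-δ) := Real.mul_rpow hc2pos.le hT.le
        have h13 : c2 ^ δ * c2 ^ (-δ) = 1 := by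
          rw [← Real.rpow_add hc2pos, add_neg_cancel, Real.rpow_zero]
        have h14 : 0 < T ^ (-δ) := Real.rpow_pos_of_pos hT _
        have h15 : 0 < c2 ^ (-δ) := Real.rpow_pos_of_pos hc2pos _
        have h16 : 1 ≤ lam * c2 ^ (-δ) := by
          calc 1 = c2 ^ δ * c2 ^ (-δ) := h13.symm
            _ ≤ lam * c2 ^ (-δ) := mul_le_mul_of_nonneg_right hlc h15.le
        have h17 : 0 < (c1 * T0) ^ δ := Real.rpow_pos_of_pos hc1T0 _
        calc κ * (c1 * T0) ^ δ * T ^ (-δ) = 1 * (κ * (c1 * T0) ^ δ * T ^ (-δ)) := by ring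
          _ ≤ (lam * c2 ^ (-δ)) * (κ * (c1 * T0) ^ δ * T ^ (-δ)) :=
              mul_le_mul_of_nonneg_right h16 (by positivity)
          _ = lam * (κ * (c1 * T0) ^ δ * (c2 ^ (-δ) * T ^ (-δ))) := by ring
          _ = lam * (κ * (c1 * T0) ^ δ * (c2 * T) ^ (-δ)) := by rw [h12]
          _ ≤ lam * (κ * (c1 * T0) ^ δ * T' ^ (-δ)) := by gcongr
  intro T hT
  have hTpos : 0 < T := lt_of_lt_of_le hc1T0 hT
  obtain ⟨n, hn⟩ := exists_pow_lt_of_lt_one (div_pos hT0 hTpos) hc2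
  refine main n T hT ?_
  have := (lt_div_iff₀ hTpos).1 hn
  linarith

theorem J_sq {a : ℕ} (ha : Even a) : jugglerStep (a ^ 2) = a := by
  have h1 : Even (a ^ 2) := ha.pow_of_ne_zero two_ne_zero
  unfold jugglerStep
  rw [if_pos h1]
  have h2 : ((a ^ 2 : ℕ) : ℝ) ^ (1 / 2 : ℝ) = a := by
    push_cast
    rw [← Real.sqrt_eq_rpow, Real.sqrt_sq (Nat.cast_nonneg a)]
  rw [h2, Nat.floor_natCast]

theorem J_sq_add_one {g : ℕ} (hg : ¬ Even g) (h : 1 ≤ g) : jugglerStep (g ^ 2 + 1) = g := by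
  have h1 : Even (g ^ 2 + 1) := by
    rw [Nat.not_even_iff_odd] at hg
    exact (hg.pow).add_one
  unfold jugglerStep
  rw [if_pos h1, ← Real.sqrt_eq_rpow, Nat.floor_eq_iff (Real.sqrt_nonneg _)]
  have hg' : (1 : ℝ) ≤ g := by exact_mod_cast h
  constructor
  · apply Real.le_sqrt_of_sq_le
    push_cast
    linarith
  · rw [Real.sqrt_lt' (by positivity)]
    push_cast
    nlinarith

theorem BB_nonneg (G : Set ℕ) (T : ℝ) : 0 ≤ BB G T := by
  unfold BB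
  exact sum_nonneg fun n _ => by positivity

theorem bb_pos (G : Set ℕ) (hG : ∀ n, jugglerStep n ∈ G → n ∈ G) (g : ℕ) (hg : g ∈ G)
    (hg2 : 2 ≤ g) : ∃ T1 : ℝ, 0 < T1 ∧ ∀ T ≥ T1, Real.exp (-(3 * T)) ≤ BB G T := by
  classical
  obtain ⟨a, haG, hae, ha2⟩ : ∃ a ∈ G, Even a ∧ 2 ≤ a := by
    by_cases h : Even g
    · exact ⟨g, hg, h, hg2⟩
    · refine ⟨g ^ 2 + 1, hG _ ?_, ?_, ?_⟩
      · rw [J_sq_add_one h (by omega)]
        exact hg
      · rw [Nat.not_even_iff_odd] at h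
        exact (h.pow).add_one
      · nlinarith
  have hpow : ∀ j : ℕ, a ^ 2 ^ j ∈ G := by
    intro j
    induction j with
    | zero => simpa using haG
    | succ j ih =>
      refine hG _ ?_
      have h1 : a ^ 2 ^ (j + 1) = (a ^ 2 ^ j) ^ 2 := by rw [← pow_mul, pow_succ]
      rw [h1, J_sq (hae.pow_of_ne_zero (by positivity))]
      exact ih
  refine ⟨max (Real.log a) 1, by positivity, fun T hT => ?_⟩
  have hTa : Real.log a ≤ T := le_trans (le_max_left _ _) hT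
  have hT1 : 1 ≤ T := le_trans (le_max_right _ _) hT
  have hapos : (0 : ℝ) < a := by
    have : 0 < a := by omega
    exact_mod_cast this
  have haT : (a : ℝ) ≤ Real.exp T := by
    rw [← Real.log_le_iff_le_exp hapos] 
    exact hTa
  -- the number
  obtain ⟨n, hnG, hn1, hn2, hn3⟩ : ∃ n ∈ G, 1 ≤ n ∧ Real.exp T ≤ n ∧ (n : ℝ) ≤ Real.exp (2 * T) := by
    have hex : ∃ j : ℕ, Real.exp T ≤ ((a ^ 2 ^ j : ℕ) : ℝ) := by
      obtain ⟨j, hj⟩ := exists_nat_ge (Real.exp T)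
      refine ⟨j, hj.trans ?_⟩
      have h1 : j ≤ a ^ 2 ^ j := by
        calc j ≤ 2 ^ j := Nat.lt_two_pow_self.le
          _ ≤ a ^ 2 ^ j := (Nat.lt_pow_self (by omega)).le
      exact_mod_cast h1
    have hspec := Nat.find_spec hex
    have hmin := fun m => Nat.find_min (m := m) hex
    set j := Nat.find hex with hj
    refine ⟨a ^ 2 ^ j, hpow j, Nat.one_le_pow _ _ (by omega), hspec, ?_⟩
    rcases Nat.eq_zero_or_pos j with h0 | h0
    · rw [h0]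
      simp only [pow_zero, pow_one]
      refine haT.trans (Real.exp_le_exp.2 (by linarith))
    · have h1 := hmin (j - 1) (by omega)
      push Not at h1
      have h2 : a ^ 2 ^ j = (a ^ 2 ^ (j - 1)) ^ 2 := by
        rw [← pow_mul, ← pow_succ]
        congr 2
        omega
      rw [h2, Nat.cast_pow]
      calc (((a ^ 2 ^ (j - 1) : ℕ) : ℝ)) ^ 2 ≤ (Real.exp T) ^ 2 :=
            pow_le_pow_left₀ (by positivity) h1.le 2
        _ = Real.exp (2 * T) := by rw [← Real.exp_nat_mul]; norm_num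
  have hn4 : (n : ℝ) + 1 ≤ Real.exp (3 * T) := by
    have h1 : Real.exp (3 * T) = Real.exp (2 * T) * Real.exp T := by
      rw [← Real.exp_add]
      congr 1
      ring
    have h2 : (2 : ℝ) ≤ Real.exp T := by
      have := Real.add_one_le_exp T
      linarith
    have h3 : (1 : ℝ) ≤ Real.exp (2 * T) := Real.one_le_exp (by linarith)
    rw [h1]
    nlinarith
  have hmem : n ∈ (range ⌈Real.exp (3 * T)⌉₊).filter
      (fun n : ℕ => n ∈ G ∧ 1 ≤ n ∧ Real.exp T ≤ n ∧ (n : ℝ) + 1 ≤ Real.exp (3 * T)) := by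
    rw [mem_filter, mem_range]
    refine ⟨?_, hnG, hn1, hn2, hn4⟩
    rw [Nat.lt_ceil]
    linarith
  have h5 : (1 : ℝ) / n ≤ BB G T := by
    unfold BB
    exact single_le_sum (f := fun n : ℕ => (1 : ℝ) / n) (fun i _ => by positivity) hmem
  refine le_trans ?_ h5
  have hnpos : (0 : ℝ) < n := by
    have : 0 < n := by omega
    exact_mod_cast this
  rw [Real.exp_neg, ← one_div]
  exact one_div_le_one_div_of_le hnpos (by linarith)

open Classical in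
theorem q_lower (G : Set ℕ) (hG : ∀ n, jugglerStep n ∈ G → n ∈ G) (g : ℕ) (hg : g ∈ G)
    (hg2 : 2 ≤ g)
    (H : ∀ (θ : ℝ) (K0 : ℕ), 0 < θ → θ ≤ 1 / 2 → ∀ p ∈ FP θ K0, ∀ ε : ℝ, 0 < ε →
      ∀ᶠ m : ℕ in atTop, ∃ s : Finset ℕ,
      (∀ n ∈ s, 1 ≤ n ∧ Pat (wd p.2) (wd p.2) (range (p.1 + 4)) n ∧
        F (wd p.2) (p.1 + 4) n = m ∧ (m : ℝ) ^ (1 / cc (wd p.2) (p.1 + 4)) ≤ n ∧
        (n : ℝ) + 1 ≤ ((m : ℝ) + 1) ^ (1 / cc (wd p.2) (p.1 + 4))) ∧
      (1 - ε) * (1 / 2) ^ (p.1 + 4) / (cc (wd p.2) (p.1 + 4) * m) ≤ ∑ n ∈ s, (1 : ℝ) / n)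
    (δ : ℝ) (hδ : 0 < δ) :
    ∃ κ T1 : ℝ, 0 < κ ∧ 0 < T1 ∧ ∀ T ≥ T1, κ * T ^ (1 - δ) ≤ BB G T := by
  -- parameters
  set θ : ℝ := min (1 / 2) (16 * (64 : ℝ) ^ (-(1 / δ))) with hθdef
  have hθ : 0 < θ := lt_min (by norm_num) (by positivity)
  have hθ2 : θ ≤ 1 / 2 := min_le_left _ _
  have hθ3 : (θ / 16) ^ δ ≤ 1 / 64 := by
    have h1 : θ / 16 ≤ (64 : ℝ) ^ (-(1 / δ)) := by
      have := min_le_right (1 / 2) (16 * (64 : ℝ) ^ (-(1 / δ)))
      rw [← hθdef] at this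
      linarith
    refine (Real.rpow_le_rpow (by positivity) h1 hδ.le).trans ?_
    rw [← Real.rpow_mul (by norm_num)]
    have h2 : -(1 / δ) * δ = -1 := by field_simp
    rw [h2, Real.rpow_neg_one]
    norm_num
  obtain ⟨K0, hK0⟩ : ∃ K0 : ℕ, θ ^ (-(1 : ℝ) / 2) * (97 / 100 : ℝ) ^ K0 ≤ 1 / 2 := by
    have hpos : 0 < θ ^ (-(1 : ℝ) / 2) := Real.rpow_pos_of_pos hθ _
    obtain ⟨K0, hK0⟩ := exists_pow_lt_of_lt_one
      (show (0 : ℝ) < 1 / (2 * θ ^ (-(1 : ℝ) / 2)) by positivity)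
      (show (97 / 100 : ℝ) < 1 by norm_num)
    refine ⟨K0, ?_⟩
    calc θ ^ (-(1 : ℝ) / 2) * (97 / 100 : ℝ) ^ K0
        ≤ θ ^ (-(1 : ℝ) / 2) * (1 / (2 * θ ^ (-(1 : ℝ) / 2))) :=
          mul_le_mul_of_nonneg_left hK0.le hpos.le
      _ = 1 / 2 := by field_simp
  have hmass : 1 / 2 ≤ ∑ p ∈ FP θ K0, (1 / 2 : ℝ) ^ p.1 := by
    have := fp_mass θ hθ K0
    linarith
  have hne : (FP θ K0).Nonempty := by
    rw [Finset.nonempty_iff_ne_empty]
    intro h0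
    rw [h0, sum_empty] at hmass
    norm_num at hmass
  have hcc : ∀ p ∈ FP θ K0, θ / 32 ≤ cc (wd p.2) (p.1 + 4) ∧ cc (wd p.2) (p.1 + 4) ≤ θ / 16 := by
    intro p hp
    obtain ⟨h1, h2, h3, h4, h5, h6⟩ := fp_spec hp (by linarith)
    have h7 : ∀ l, p.1 ≤ l → cc (wd p.2) (l + 1) = cc (wd p.2) l / 2 := by
      intro l hl
      rw [cc_succ, h6 l hl]
      unfold ex
      simp
      ring
    have h8 : cc (wd p.2) (p.1 + 4) = cc (wd p.2) p.1 / 16 := by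
      rw [h7 (p.1 + 3) (by omega), h7 (p.1 + 2) (by omega), h7 (p.1 + 1) (by omega),
        h7 p.1 le_rfl]
      ring
    rw [h8]
    constructor <;> linarith
  obtain ⟨T0, hT0, hrec⟩ := qrec G hG θ hθ (by linarith) K0
    (fun p hp ε hε => H θ K0 hθ hθ2 p hp ε hε) (1 / 2) (by norm_num) (by norm_num)
  obtain ⟨T1, hT1, hbb⟩ := bb_pos G hG g hg hg2
  set c1 : ℝ := θ / 32 with hc1def
  set c2 : ℝ := θ / 16 with hc2def
  have hc1 : 0 < c1 := by positivity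
  set T0' : ℝ := max T0 (T1 / c1) with hT0'def
  have hT0' : 0 < T0' := lt_of_lt_of_le hT0 (le_max_left _ _)
  have hT1' : T1 ≤ c1 * T0' := by
    have : T1 / c1 ≤ T0' := le_max_right _ _
    rw [div_le_iff₀ hc1] at this
    linarith
  set κ0 : ℝ := Real.exp (-(3 * T0')) / T0' with hκ0def
  have hκ0 : 0 < κ0 := by positivity
  have hiter := iter_bound (fun T => BB G T / T) T0' c1 c2 (1 / 64) κ0 δ hT0' hc1
    (by rw [hc1def, hc2def]; linarith) (by rw [hc2def]; linarith) (by norm_num) hκ0 hδ hθ3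
    (by
      intro T hT
      have hTpos : 0 < T := lt_of_lt_of_le hT0' hT
      have hTT0 : T ≥ T0 := le_trans (le_max_left _ _) hT
      obtain ⟨p0, hp0, hmin⟩ := exists_min_image (FP θ K0)
        (fun p => BB G (cc (wd p.2) (p.1 + 4) * T) / (cc (wd p.2) (p.1 + 4) * T)) hne
      refine ⟨cc (wd p0.2) (p0.1 + 4) * T, ?_, ?_, ?_⟩
      · exact mul_le_mul_of_nonneg_right (hcc p0 hp0).1 hTpos.le
      · exact mul_le_mul_of_nonneg_right (hcc p0 hp0).2 hTpos.le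
      · set μ : ℝ := BB G (cc (wd p0.2) (p0.1 + 4) * T) / (cc (wd p0.2) (p0.1 + 4) * T) with hμdef
        have hμ0 : 0 ≤ μ := div_nonneg (BB_nonneg _ _) (mul_nonneg (cc_pos _ _).le hTpos.le)
        change 1 / 64 * μ ≤ BB G T / T
        rw [le_div_iff₀ hTpos]
        refine le_trans ?_ (hrec T hTT0)
        have h1 : ∀ p ∈ FP θ K0, (1 / 2 : ℝ) ^ p.1 * (1 / 32 * μ * T) ≤
            (1 - 1 / 2) * (1 / 2) ^ (p.1 + 4) / cc (wd p.2) (p.1 + 4) *
              BB G (cc (wd p.2) (p.1 + 4) * T) := by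
          intro p hp
          have h2 := hmin p hp
          have hcpos := cc_pos (wd p.2) (p.1 + 4)
          rw [le_div_iff₀ (mul_pos hcpos hTpos)] at h2
          have h3 : (1 - 1 / 2) * (1 / 2 : ℝ) ^ (p.1 + 4) / cc (wd p.2) (p.1 + 4) *
              (μ * (cc (wd p.2) (p.1 + 4) * T)) = (1 / 2 : ℝ) ^ p.1 * (1 / 32 * μ * T) := by
            rw [pow_add]
            field_simp
            norm_num
            ring
          rw [← h3]
          exact mul_le_mul_of_nonneg_left h2 (by positivity)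
        calc 1 / 64 * μ * T = 1 / 2 * (1 / 32 * μ * T) := by ring
          _ ≤ (∑ p ∈ FP θ K0, (1 / 2 : ℝ) ^ p.1) * (1 / 32 * μ * T) :=
              mul_le_mul_of_nonneg_right hmass (by positivity)
          _ = ∑ p ∈ FP θ K0, (1 / 2 : ℝ) ^ p.1 * (1 / 32 * μ * T) := by rw [sum_mul]
          _ ≤ _ := sum_le_sum h1)
    (by
      intro T h1 h2
      have hTpos : 0 < T := lt_of_lt_of_le (mul_pos hc1 hT0') h1
      have h3 := hbb T (hT1'.trans h1)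
      change κ0 ≤ BB G T / T
      rw [hκ0def]
      refine le_trans ?_ (div_le_div_of_nonneg_right h3 hTpos.le)
      rw [div_le_div_iff₀ hT0' hTpos]
      exact mul_le_mul (Real.exp_le_exp.2 (by linarith)) h2 hTpos.le (Real.exp_pos _).le)
  refine ⟨κ0 * (c1 * T0') ^ δ, c1 * T0', by positivity, by positivity, fun T hT => ?_⟩
  have hTpos : 0 < T := lt_of_lt_of_le (mul_pos hc1 hT0') hT
  have h1 := hiter T hT
  rw [le_div_iff₀ hTpos] at h1
  refine le_trans (le_of_eq ?_) h1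
  have h2 : T ^ (1 - δ) = T ^ (-δ) * T := by
    rw [sub_eq_add_neg, Real.rpow_add hTpos, Real.rpow_one, mul_comm]
  rw [h2]
  ring

end Pool.Agent.Work.MP_215640_nt
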