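import Pool.Agent.Work.MP_215640_nt.S.Fibre
import Pool.Agent.Work.MP_215640_nt.S.FirstPass

/-!
MODULE QREC. The renewal inequality.

`G` is closed under preimages. `BB G T = ∑ 1/n` over `n ∈ G`, `n ≥ 1`, `e^T ≤ n`, `n + 1 ≤ e^(3T)`.
`qrec`: for large `T` the sets `s` of `fibre_sum` for the words `wd p.2`, `k = p.1 + 4`, `p ∈ FP θ K0`,
and `m ∈ G` with `e^(cT) ≤ m`, `m + 1 ≤ e^(3cT)`, `c = cc (wd p.2) (p.1 + 4)`, are disjoint: `n`
determines `p` (`fp_unique`) and then `m = F w k n`; they consist of `n ∈ G` (`J^[k] n = F w k n = m ∈ G`,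
`J_iter` with `Pat w w (range k) n`, and `G` is closed under preimages), `e^T ≤ m^(1/c) ≤ n`,
`n + 1 ≤ (m+1)^(1/c) ≤ e^(3T)`. Hence `BB G T ≥ ∑_p (1 - ε) (1/2)^k / c * BB G (c T)`.
-/

set_option autoImplicit false

namespace Pool.Agent.Work.MP_215640_nt

open Finset Polynomial Filter N55eda7c2

open Classical in
/-- sum of `1 / n` over the elements `n` of `G` with `e^T ≤ n`, `n + 1 ≤ e^(3T)` -/
noncomputable def BB (G : Set ℕ) (T : ℝ) : ℝ :=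
  ∑ n ∈ (range ⌈Real.exp (3 * T)⌉₊).filter
    (fun n : ℕ => n ∈ G ∧ 1 ≤ n ∧ Real.exp T ≤ n ∧ (n : ℝ) + 1 ≤ Real.exp (3 * T)), (1 : ℝ) / n

private theorem qrec_iter_mem {G : Set ℕ} (hG : ∀ n, jugglerStep n ∈ G → n ∈ G) (k : ℕ) :
    ∀ n, jugglerStep^[k] n ∈ G → n ∈ G := by
  induction k with
  | zero => intro n h; exact h
  | succ k ih =>
    intro n h
    rw [Function.iterate_succ_apply] at h
    exact hG n (ih _ h)

open Classical in
theorem qrec (G : Set ℕ) (hG : ∀ n, jugglerStep n ∈ G → n ∈ G) (θ : ℝ) (hθ : 0 < θ)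
    (hθ1 : θ ≤ 1) (K0 : ℕ)
    (H : ∀ p ∈ FP θ K0, ∀ ε : ℝ, 0 < ε → ∀ᶠ m : ℕ in atTop, ∃ s : Finset ℕ,
      (∀ n ∈ s, 1 ≤ n ∧ Pat (wd p.2) (wd p.2) (range (p.1 + 4)) n ∧
        F (wd p.2) (p.1 + 4) n = m ∧ (m : ℝ) ^ (1 / cc (wd p.2) (p.1 + 4)) ≤ n ∧
        (n : ℝ) + 1 ≤ ((m : ℝ) + 1) ^ (1 / cc (wd p.2) (p.1 + 4))) ∧
      (1 - ε) * (1 / 2) ^ (p.1 + 4) / (cc (wd p.2) (p.1 + 4) * m) ≤ ∑ n ∈ s, (1 : ℝ) / n)
    (ε : ℝ) (hε : 0 < ε) (hε1 : ε < 1) :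
    ∃ T0 : ℝ, 0 < T0 ∧ ∀ T ≥ T0,
      ∑ p ∈ FP θ K0, (1 - ε) * (1 / 2) ^ (p.1 + 4) / cc (wd p.2) (p.1 + 4) *
        BB G (cc (wd p.2) (p.1 + 4) * T) ≤ BB G T := by
  set FS := FP θ K0 with hFS
  set cp : ℕ × Finset ℕ → ℝ := fun p => cc (wd p.2) (p.1 + 4) with hcp
  have hcpos : ∀ p, 0 < cp p := fun p => cc_pos _ _
  -- the family of sets
  have hev : ∀ᶠ m : ℕ in atTop, ∀ p ∈ FS, ∃ s : Finset ℕ,
      (∀ n ∈ s, 1 ≤ n ∧ Pat (wd p.2) (wd p.2) (range (p.1 + 4)) n ∧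
        F (wd p.2) (p.1 + 4) n = m ∧ (m : ℝ) ^ (1 / cp p) ≤ n ∧
        (n : ℝ) + 1 ≤ ((m : ℝ) + 1) ^ (1 / cp p)) ∧
      (1 - ε) * (1 / 2) ^ (p.1 + 4) / (cp p * m) ≤ ∑ n ∈ s, (1 : ℝ) / n :=
    (Filter.eventually_all_finset FS).2 fun p hp => H p hp ε hε
  obtain ⟨m0, hm0⟩ := Filter.eventually_atTop.1 hev
  choose! S hS using hm0
  have hT : ∀ᶠ T : ℝ in atTop, ∀ p ∈ FS, (m0 : ℝ) ≤ Real.exp (cp p * T) := by
    refine (Filter.eventually_all_finset FS).2 fun p _ => ?_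
    have h1 : Tendsto (fun T : ℝ => Real.exp (cp p * T)) atTop atTop :=
      Real.tendsto_exp_atTop.comp (tendsto_id.const_mul_atTop (hcpos p))
    exact h1.eventually_ge_atTop _
  obtain ⟨T1, hT1⟩ := Filter.eventually_atTop.1 hT
  refine ⟨max T1 1, lt_of_lt_of_le one_pos (le_max_right _ _), ?_⟩
  intro T hTT
  have hTT1 : T1 ≤ T := (le_max_left _ _).trans hTT
  have hT1' : 1 ≤ T := (le_max_right _ _).trans hTT
  set BS : ℝ → Finset ℕ := fun T => (range ⌈Real.exp (3 * T)⌉₊).filter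
    (fun n : ℕ => n ∈ G ∧ 1 ≤ n ∧ Real.exp T ≤ n ∧ (n : ℝ) + 1 ≤ Real.exp (3 * T)) with hBS
  have hBB : ∀ T, BB G T = ∑ n ∈ BS T, (1 : ℝ) / n := fun T => rfl
  -- elements of the base sets are large
  have hlarge : ∀ p ∈ FS, ∀ m ∈ BS (cp p * T), m0 ≤ m := by
    intro p hp m hm
    have h1 := (mem_filter.1 hm).2.2.2.1
    have h2 := hT1 T hTT1 p hp
    exact_mod_cast h2.trans h1
  have hsub : ∀ p ∈ FS, ∀ m ∈ BS (cp p * T), S m p ⊆ BS T := by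
    intro p hp m hm n hn
    obtain ⟨h1, h2⟩ := hS m (hlarge p hp m hm) p hp
    obtain ⟨hn1, hpat, hF, hlow, hup⟩ := h1 n hn
    obtain ⟨hmG, hm1, hm2, hm3⟩ := (mem_filter.1 hm).2
    have hc := hcpos p
    have hlow' : Real.exp T ≤ n := by
      refine le_trans ?_ hlow
      have h3 : Real.exp T = (Real.exp (cp p * T)) ^ (1 / cp p) := by
        rw [← Real.exp_mul]; congr 1; field_simp
      rw [h3]
      exact Real.rpow_le_rpow (Real.exp_pos _).le hm2 (by positivity)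
    have hup' : (n : ℝ) + 1 ≤ Real.exp (3 * T) := by
      refine hup.trans ?_
      have h3 : Real.exp (3 * T) = (Real.exp (3 * (cp p * T))) ^ (1 / cp p) := by
        rw [← Real.exp_mul]; congr 1; field_simp
      rw [h3]
      exact Real.rpow_le_rpow (by positivity) hm3 (by positivity)
    rw [hBS]
    simp only
    rw [mem_filter, mem_range]
    refine ⟨?_, ?_, hn1, hlow', hup'⟩
    · have h4 : (n : ℝ) < ⌈Real.exp (3 * T)⌉₊ := by
        have := Nat.le_ceil (Real.exp (3 * T))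
        linarith
      exact_mod_cast h4
    · refine qrec_iter_mem hG (p.1 + 4) n ?_
      rw [J_iter (wd p.2) (p.1 + 4) n (fun j hj => hpat j (mem_range.2 hj)) (p.1 + 4) le_rfl, hF]
      exact hmG
  -- disjointness
  have hdisj : Set.PairwiseDisjoint (↑(FS.sigma fun p => BS (cp p * T)) : Set _)
      (fun q : (_ : ℕ × Finset ℕ) × ℕ => S q.2 q.1) := by
    rintro ⟨p, m⟩ hq ⟨p', m'⟩ hq' hne
    rw [Finset.mem_coe, mem_sigma] at hq hq'
    simp only at hq hq'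
    refine Finset.disjoint_left.2 fun n hn hn' => hne ?_
    simp only at hn hn'
    obtain ⟨-, hpat, hF, -, -⟩ := (hS m (hlarge p hq.1 m hq.2) p hq.1).1 n hn
    obtain ⟨-, hpat', hF', -, -⟩ := (hS m' (hlarge p' hq'.1 m' hq'.2) p' hq'.1).1 n hn'
    have hpp := fp_unique hq.1 hq'.1 (p.1 + 4) (p'.1 + 4) n (by omega) (by omega) hpat hpat'
    subst hpp
    have hmm : m = m' := by rw [← hF, ← hF']
    subst hmm
    rfl
  calc ∑ p ∈ FS, (1 - ε) * (1 / 2) ^ (p.1 + 4) / cp p * BB G (cp p * T)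
      = ∑ p ∈ FS, ∑ m ∈ BS (cp p * T), (1 - ε) * (1 / 2) ^ (p.1 + 4) / (cp p * m) := by
        refine sum_congr rfl fun p _ => ?_
        rw [hBB, mul_sum]
        refine sum_congr rfl fun m _ => ?_
        rw [div_mul_div_comm, mul_one]
    _ = ∑ q ∈ FS.sigma fun p => BS (cp p * T),
          (1 - ε) * (1 / 2) ^ (q.1.1 + 4) / (cp q.1 * q.2) := by
        rw [Finset.sum_sigma]
    _ ≤ ∑ q ∈ FS.sigma fun p => BS (cp p * T), ∑ n ∈ S q.2 q.1, (1 : ℝ) / n := by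
        refine sum_le_sum fun q hq => ?_
        rw [mem_sigma] at hq
        exact (hS q.2 (hlarge q.1 hq.1 q.2 hq.2) q.1 hq.1).2
    _ = ∑ n ∈ (FS.sigma fun p => BS (cp p * T)).biUnion (fun q => S q.2 q.1), (1 : ℝ) / n := by
        rw [Finset.sum_biUnion hdisj]
    _ ≤ ∑ n ∈ BS T, (1 : ℝ) / n := by
        refine sum_le_sum_of_subset_of_nonneg ?_ fun n _ _ => by positivity
        intro n hn
        rw [mem_biUnion] at hn
        obtain ⟨q, hq, hnq⟩ := hn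
        rw [mem_sigma] at hq
        exact hsub q.1 hq.1 q.2 hq.2 hnq
    _ = BB G T := (hBB T).symm

end Pool.Agent.Work.MP_215640_nt
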