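import Pool.Agent.Work.MP_215640_nt.S.Defs2
import Pool.Agent.Work.MP_215640_nt.Split

/-!
MODULE SPLIT2. `qlem0`: the case without recurrence of QLem, for every `M ≥ 1` (copy case (i) of the
proof of `qlem` with `l = 1`); `split2`: `split` for every `M ≥ 1` (for `M ≥ 2` it is `split`; for `M = 1`
we have `d = 0`, and the base case of `split` works with `qlem0`).
-/

set_option autoImplicit false

namespace Pool.Agent.Work.MP_215640_nt

open Finset Polynomial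

namespace SplitAux

/-- Dirichlet sum -/
private noncomputable def Dn (n : ℕ) (t : ℝ) : ℂ := ∑ j ∈ range n, ee ((j : ℝ) * t)

private theorem Dn_mul (n : ℕ) (t : ℝ) : Dn n t * (1 - ee t) = 1 - ee (n * t) := by
  unfold Dn
  have h : ∀ j : ℕ, ee ((j : ℝ) * t) = ee t ^ j := fun j => ee_nat_mul j t
  simp only [h]
  exact geom_sum_mul_neg _ _

private theorem Dn_norm_le (n : ℕ) (t : ℝ) : ‖Dn n t‖ * dI t ≤ 1 / 2 := by
  have h1 : ‖Dn n t‖ * ‖1 - ee t‖ = ‖1 - ee (n * t)‖ := by rw [← norm_mul, Dn_mul]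
  have h2 : ‖1 - ee (n * t)‖ ≤ 2 := by
    calc ‖1 - ee (n * t)‖ ≤ ‖(1 : ℂ)‖ + ‖ee (n * t)‖ := norm_sub_le _ _
      _ = 2 := by rw [norm_ee]; norm_num
  have h3 := mul_le_mul_of_nonneg_left (norm_one_sub_ee t) (norm_nonneg (Dn n t))
  nlinarith

private theorem dI_ge_of_close (x : ℝ) (m : ℤ) (h : |x - m| ≤ 1 / 2) : |x - m| ≤ dI x := by
  obtain ⟨w, hw⟩ := exists_int_dI x
  rcases eq_or_ne w m with rfl | hne
  · exact hw.le
  · have h1 : (1 : ℝ) ≤ |(w : ℝ) - m| := by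
      have : (1 : ℤ) ≤ |w - m| := Int.one_le_abs (sub_ne_zero.mpr hne)
      exact_mod_cast this
    have h2 : |(w : ℝ) - m| ≤ |x - w| + |x - m| := by
      have : (w : ℝ) - m = (x - m) - (x - w) := by ring
      rw [this]
      calc |(x - m) - (x - w)| ≤ |x - m| + |x - w| := abs_sub _ _
        _ = _ := by ring
    linarith

private theorem Dn_int (n : ℕ) (z : ℤ) : Dn n z = n := by
  unfold Dn
  have h : ∀ j : ℕ, ee ((j : ℝ) * z) = 1 := fun j => by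
    have := ee_int ((j : ℤ) * z)
    push_cast at this
    exact this
  simp [h]

private theorem Dn_lower (n : ℕ) (t : ℝ) (h : 2 * n * dI t ≤ 1) :
    2 * (n : ℝ) ≤ Real.pi * ‖Dn n t‖ := by
  rcases eq_or_lt_of_le (dI_nonneg t) with h0 | h0
  · obtain ⟨z, hz⟩ := exists_int_dI t
    have ht : t = z := by
      rw [← h0] at hz
      linarith [abs_eq_zero.mp hz]
    rw [ht, Dn_int]
    have : ‖(n : ℂ)‖ = n := by simp
    rw [this]
    have hpi := Real.pi_gt_three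
    have hn : (0 : ℝ) ≤ n := Nat.cast_nonneg n
    nlinarith
  · have h1 : ‖Dn n t‖ * ‖1 - ee t‖ = ‖1 - ee (n * t)‖ := by rw [← norm_mul, Dn_mul]
    have h2 := mul_le_mul_of_nonneg_left (norm_one_sub_ee_le t) (norm_nonneg (Dn n t))
    have h3 := norm_one_sub_ee (n * t)
    have h4 : n * dI t ≤ dI (n * t) := by
      obtain ⟨z, hz⟩ := exists_int_dI t
      have h5 : |(n : ℝ) * t - ((n * z : ℤ) : ℝ)| = n * dI t := by
        push_cast
        rw [← hz, ← mul_sub, abs_mul, Nat.abs_cast]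
      have h6 := dI_ge_of_close ((n : ℝ) * t) (n * z) (by rw [h5]; linarith)
      rw [h5] at h6
      exact h6
    have h7 : 4 * (n * dI t) ≤ ‖Dn n t‖ * (2 * Real.pi * dI t) := by linarith
    have h8 : (2 * (n : ℝ)) * dI t ≤ (Real.pi * ‖Dn n t‖) * dI t := by nlinarith
    exact le_of_mul_le_mul_right h8 h0

private theorem Dn_sq (n : ℕ) (t : ℝ) :
    ((‖Dn n t‖ ^ 2 : ℝ) : ℂ) = ∑ p ∈ range n ×ˢ range n, ee ((((p.1 : ℤ) - (p.2 : ℤ) : ℤ) : ℝ) * t) := by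
  have h1 : ((‖Dn n t‖ ^ 2 : ℝ) : ℂ) = Dn n t * (starRingEnd ℂ) (Dn n t) := by
    rw [Complex.mul_conj, Complex.normSq_eq_norm_sq]
  rw [h1, Finset.sum_product]
  unfold Dn
  rw [map_sum, Finset.sum_mul_sum]
  refine Finset.sum_congr rfl fun i _ => Finset.sum_congr rfl fun j _ => ?_
  rw [← ee_neg, ← ee_add]
  congr 1
  push_cast
  ring

/-- the function to be averaged -/
private noncomputable def psi (B' K : ℕ) (t : ℝ) : ℝ :=
  1 - Real.pi ^ 2 / 4 / (K : ℝ) ^ 2 * ∑ l ∈ Icc 1 B', ‖Dn K (l * t)‖ ^ 2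

private theorem psi_le_one (B' K : ℕ) (t : ℝ) : psi B' K t ≤ 1 := by
  unfold psi
  have : 0 ≤ Real.pi ^ 2 / 4 / (K : ℝ) ^ 2 * ∑ l ∈ Icc 1 B', ‖Dn K (l * t)‖ ^ 2 := by positivity
  linarith

private theorem psi_nonpos (B' : ℕ) (hB : 1 ≤ B') (t : ℝ) (h : ¬ Gen B' (1 / (10 * (B' : ℝ))) t) :
    psi B' (5 * B') t ≤ 0 := by
  unfold Gen at h
  push Not at h
  obtain ⟨l, hl1, hl2, hl3⟩ := h
  have hBpos : (0 : ℝ) < B' := by exact_mod_cast hB
  have h1 : 2 * ((5 * B' : ℕ) : ℝ) * dI (l * t) ≤ 1 := by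
    push_cast
    have : (10 * (B' : ℝ)) * dI (l * t) ≤ (10 * (B' : ℝ)) * (1 / (10 * (B' : ℝ))) :=
      mul_le_mul_of_nonneg_left hl3.le (by positivity)
    have h2 : (10 * (B' : ℝ)) * (1 / (10 * (B' : ℝ))) = 1 := by field_simp
    linarith
  have h2 := Dn_lower (5 * B') (l * t) h1
  have h3 : ‖Dn (5 * B') (l * t)‖ ^ 2 ≤ ∑ l ∈ Icc 1 B', ‖Dn (5 * B') (l * t)‖ ^ 2 :=
    Finset.single_le_sum (f := fun l : ℕ => ‖Dn (5 * B') ((l : ℝ) * t)‖ ^ 2)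
      (fun i _ => by positivity) (Finset.mem_Icc.mpr ⟨hl1, hl2⟩)
  unfold psi
  have hK : (0 : ℝ) < ((5 * B' : ℕ) : ℝ) := by push_cast; positivity
  have h4 : (2 * ((5 * B' : ℕ) : ℝ)) ^ 2 ≤ (Real.pi * ‖Dn (5 * B') (l * t)‖) ^ 2 :=
    pow_le_pow_left₀ (by positivity) h2 2
  have h5 : 1 ≤ Real.pi ^ 2 / 4 / ((5 * B' : ℕ) : ℝ) ^ 2 * ‖Dn (5 * B') (l * t)‖ ^ 2 := by
    rw [div_div, div_mul_eq_mul_div, le_div_iff₀ (by positivity)]
    nlinarith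
  have h6 : Real.pi ^ 2 / 4 / ((5 * B' : ℕ) : ℝ) ^ 2 * ‖Dn (5 * B') (l * t)‖ ^ 2 ≤
      Real.pi ^ 2 / 4 / ((5 * B' : ℕ) : ℝ) ^ 2 * ∑ l ∈ Icc 1 B', ‖Dn (5 * B') (l * t)‖ ^ 2 :=
    mul_le_mul_of_nonneg_left h3 (by positivity)
  linarith

/-- the exponential sum -/
private noncomputable def Ss (M r : ℕ) (β Λ : ℝ) (Q : ℕ) (a b : ℤ) : ℂ :=
  ∑ q ∈ range Q, ee ((a : ℝ) * (β * (q : ℝ) ^ r) + (b : ℝ) * (Λ * (q : ℝ) ^ M))

private theorem psi_sum (B' K : ℕ) (t : ℝ) :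
    ((∑ l ∈ Icc 1 B', ‖Dn K ((l : ℝ) * t)‖ ^ 2 : ℝ) : ℂ) =
      ∑ s ∈ Icc 1 B' ×ˢ (range K ×ˢ range K),
        ee ((((s.1 : ℤ) * ((s.2.1 : ℤ) - (s.2.2 : ℤ)) : ℤ) : ℝ) * t) := by
  rw [Finset.sum_product]
  push_cast [-Complex.ofReal_pow]
  refine Finset.sum_congr rfl fun l _ => ?_
  have := Dn_sq K ((l : ℝ) * t)
  push_cast at this ⊢
  rw [this]
  refine Finset.sum_congr rfl fun p _ => ?_
  congr 1
  ring

private noncomputable def GG (M r : ℕ) (β Λ : ℝ) (B' K H : ℕ) (q : ℕ) : ℝ :=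
  ‖Dn H (β * (q : ℝ) ^ r)‖ ^ 2 * psi B' K (Λ * (q : ℝ) ^ M)

private theorem GG_sum (M r : ℕ) (β Λ : ℝ) (B' K H Q : ℕ) :
    ((∑ q ∈ range Q, GG M r β Λ B' K H q : ℝ) : ℂ) =
      ∑ p ∈ range H ×ˢ range H, Ss M r β Λ Q ((p.1 : ℤ) - (p.2 : ℤ)) 0 -
      ((Real.pi ^ 2 / 4 / (K : ℝ) ^ 2 : ℝ) : ℂ) * ∑ p ∈ range H ×ˢ range H,
        ∑ s ∈ Icc 1 B' ×ˢ (range K ×ˢ range K),
          Ss M r β Λ Q ((p.1 : ℤ) - (p.2 : ℤ)) ((s.1 : ℤ) * ((s.2.1 : ℤ) - (s.2.2 : ℤ))) := by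
  have h1 : ∀ q ∈ range Q, ((GG M r β Λ B' K H q : ℝ) : ℂ) =
      ∑ p ∈ range H ×ˢ range H,
        ee (((((p.1 : ℤ) - (p.2 : ℤ) : ℤ)) : ℝ) * (β * (q : ℝ) ^ r) +
          ((0 : ℤ) : ℝ) * (Λ * (q : ℝ) ^ M)) -
      ((Real.pi ^ 2 / 4 / (K : ℝ) ^ 2 : ℝ) : ℂ) * ∑ p ∈ range H ×ˢ range H,
        ∑ s ∈ Icc 1 B' ×ˢ (range K ×ˢ range K),
          ee (((((p.1 : ℤ) - (p.2 : ℤ) : ℤ)) : ℝ) * (β * (q : ℝ) ^ r) +
            ((((s.1 : ℤ) * ((s.2.1 : ℤ) - (s.2.2 : ℤ)) : ℤ)) : ℝ) * (Λ * (q : ℝ) ^ M)) := by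
    intro q _
    unfold GG psi
    rw [Complex.ofReal_mul, Dn_sq, Complex.ofReal_sub, Complex.ofReal_mul, psi_sum]
    rw [mul_sub, Complex.ofReal_one, mul_one]
    congr 1
    · refine Finset.sum_congr rfl fun p _ => ?_
      congr 1
      push_cast
      ring
    · rw [mul_left_comm, Finset.sum_mul]
      congr 1
      refine Finset.sum_congr rfl fun p _ => ?_
      rw [Finset.mul_sum]
      refine Finset.sum_congr rfl fun s _ => ?_
      rw [← ee_add]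
  rw [Complex.ofReal_sum, Finset.sum_congr rfl h1, Finset.sum_sub_distrib]
  congr 1
  · rw [Finset.sum_comm]
    rfl
  · rw [← Finset.mul_sum, Finset.sum_comm]
    congr 1
    refine Finset.sum_congr rfl fun p _ => ?_
    rw [Finset.sum_comm]
    rfl

private theorem sum_diag (n : ℕ) (x : ℝ) :
    ∑ p ∈ range n ×ˢ range n, (if (p.1 : ℤ) - (p.2 : ℤ) = 0 then x else 0) = n * x := by
  rw [Finset.sum_product]
  have : ∀ i ∈ range n, ∑ j ∈ range n, (if (i : ℤ) - (j : ℤ) = 0 then x else 0) = x := by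
    intro i hi
    rw [Finset.sum_eq_single i]
    · simp
    · intro b _ hb
      rw [if_neg]
      intro h
      apply hb
      have : (i : ℤ) = b := by linarith
      exact_mod_cast this.symm
    · intro h
      exact absurd hi h
  rw [Finset.sum_congr rfl this]
  simp

private theorem GG_lower (M r : ℕ) (β Λ : ℝ) (B' K H Q : ℕ) (hK : 1 ≤ K) (ε1 : ℝ) (hε1 : 0 ≤ ε1)
    (hS : ∀ a b : ℤ, |a| < H → |b| ≤ B' * K → (a ≠ 0 ∨ b ≠ 0) →
      ‖Ss M r β Λ Q a b‖ ≤ ε1 * Q) :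
    (H : ℝ) * Q * (1 - Real.pi ^ 2 / 4 * B' / K) -
      ε1 * Q * (H : ℝ) ^ 2 * (1 + Real.pi ^ 2 / 4 * B') ≤ ∑ q ∈ range Q, GG M r β Λ B' K H q := by
  have hKpos : (0 : ℝ) < K := by exact_mod_cast hK
  have hre : ∀ a b : ℤ, |a| < H → |b| ≤ B' * K →
      |(Ss M r β Λ Q a b).re - (if a = 0 ∧ b = 0 then (Q : ℝ) else 0)| ≤ ε1 * Q := by
    intro a b ha hb
    by_cases h : a = 0 ∧ b = 0
    · rw [if_pos h, h.1, h.2]
      have : Ss M r β Λ Q 0 0 = Q := by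
        unfold Ss
        simp [ee_zero]
      rw [this]
      simp
      positivity
    · rw [if_neg h, sub_zero]
      have h' : a ≠ 0 ∨ b ≠ 0 := by tauto
      exact (Complex.abs_re_le_norm _).trans (hS a b ha hb h')
  have hp : ∀ p ∈ range H ×ˢ range H, |(p.1 : ℤ) - (p.2 : ℤ)| < H := by
    intro p hp
    rw [Finset.mem_product, Finset.mem_range, Finset.mem_range] at hp
    rw [abs_lt]
    constructor <;> omega
  have hs : ∀ s ∈ Icc 1 B' ×ˢ (range K ×ˢ range K),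
      |(s.1 : ℤ) * ((s.2.1 : ℤ) - (s.2.2 : ℤ))| ≤ B' * K := by
    intro s hs
    rw [Finset.mem_product, Finset.mem_product, Finset.mem_range, Finset.mem_range,
      Finset.mem_Icc] at hs
    rw [abs_mul]
    have h1 : |(s.1 : ℤ)| ≤ B' := by
      rw [abs_le]
      constructor <;> omega
    have h2 : |(s.2.1 : ℤ) - (s.2.2 : ℤ)| ≤ K := by
      rw [abs_le]
      constructor <;> omega
    exact mul_le_mul h1 h2 (abs_nonneg _) (by positivity)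
  have hmain := congrArg Complex.re (GG_sum M r β Λ B' K H Q)
  rw [Complex.ofReal_re, Complex.sub_re, Complex.re_ofReal_mul, Complex.re_sum,
    Complex.re_sum] at hmain
  rw [hmain]
  have hA : (H : ℝ) * Q - ε1 * Q * (H : ℝ) ^ 2 ≤
      ∑ p ∈ range H ×ˢ range H, (Ss M r β Λ Q ((p.1 : ℤ) - (p.2 : ℤ)) 0).re := by
    have h1 : ∑ p ∈ range H ×ˢ range H,
        ((if (p.1 : ℤ) - (p.2 : ℤ) = 0 then (Q : ℝ) else 0) - ε1 * Q) ≤
        ∑ p ∈ range H ×ˢ range H, (Ss M r β Λ Q ((p.1 : ℤ) - (p.2 : ℤ)) 0).re := by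
      refine Finset.sum_le_sum fun p hp' => ?_
      have := (abs_le.mp (hre _ 0 (hp p hp') (by simp; positivity))).1
      simp only [and_true] at this
      linarith
    rw [Finset.sum_sub_distrib, sum_diag, Finset.sum_const, Finset.card_product, Finset.card_range,
      nsmul_eq_mul] at h1
    push_cast at h1
    nlinarith
  have hB : ∑ p ∈ range H ×ˢ range H, (∑ s ∈ Icc 1 B' ×ˢ (range K ×ˢ range K),
      Ss M r β Λ Q ((p.1 : ℤ) - (p.2 : ℤ)) ((s.1 : ℤ) * ((s.2.1 : ℤ) - (s.2.2 : ℤ)))).re ≤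
      (H : ℝ) * (B' * K) * Q + ε1 * Q * (H : ℝ) ^ 2 * (B' * (K : ℝ) ^ 2) := by
    have h1 : ∀ p ∈ range H ×ˢ range H, (∑ s ∈ Icc 1 B' ×ˢ (range K ×ˢ range K),
      Ss M r β Λ Q ((p.1 : ℤ) - (p.2 : ℤ)) ((s.1 : ℤ) * ((s.2.1 : ℤ) - (s.2.2 : ℤ)))).re ≤
        (if (p.1 : ℤ) - (p.2 : ℤ) = 0 then ((B' * K : ℝ) * Q) else 0) +
          (B' * (K : ℝ) ^ 2) * (ε1 * Q) := by
      intro p hp'
      rw [Complex.re_sum]
      have h2 : ∑ s ∈ Icc 1 B' ×ˢ (range K ×ˢ range K),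
          (Ss M r β Λ Q ((p.1 : ℤ) - (p.2 : ℤ)) ((s.1 : ℤ) * ((s.2.1 : ℤ) - (s.2.2 : ℤ)))).re ≤
          ∑ s ∈ Icc 1 B' ×ˢ (range K ×ˢ range K),
            ((if (p.1 : ℤ) - (p.2 : ℤ) = 0 then
              (if (s.2.1 : ℤ) - (s.2.2 : ℤ) = 0 then (Q : ℝ) else 0) else 0) + ε1 * Q) := by
        refine Finset.sum_le_sum fun s hs' => ?_
        have h3 := (abs_le.mp (hre _ _ (hp p hp') (hs s hs'))).2
        have h4 : (s.1 : ℤ) ≠ 0 := by
          rw [Finset.mem_product, Finset.mem_Icc] at hs'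
          omega
        have h5 : ((p.1 : ℤ) - (p.2 : ℤ) = 0 ∧ (s.1 : ℤ) * ((s.2.1 : ℤ) - (s.2.2 : ℤ)) = 0) ↔
            ((p.1 : ℤ) - (p.2 : ℤ) = 0 ∧ (s.2.1 : ℤ) - (s.2.2 : ℤ) = 0) := by
          rw [mul_eq_zero]
          tauto
        rw [if_congr h5 rfl rfl, ite_and] at h3
        linarith
      refine h2.trans ?_
      rw [Finset.sum_add_distrib, Finset.sum_const, Finset.card_product, Finset.card_product,
        Finset.card_range, Nat.card_Icc, nsmul_eq_mul]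
      push_cast
      refine add_le_add ?_ (le_of_eq ?_)
      · split_ifs with h0
        · rw [Finset.sum_product]
          simp only [sum_diag]
          simp
          nlinarith
        · simp
      · ring
    refine (Finset.sum_le_sum h1).trans ?_
    rw [Finset.sum_add_distrib, sum_diag, Finset.sum_const, Finset.card_product, Finset.card_range,
      nsmul_eq_mul]
    push_cast
    nlinarith
  have hc : 0 ≤ Real.pi ^ 2 / 4 / (K : ℝ) ^ 2 := by positivity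
  have hC := mul_le_mul_of_nonneg_left hB hc
  have hD : Real.pi ^ 2 / 4 / (K : ℝ) ^ 2 * ((H : ℝ) * (B' * K) * Q + ε1 * Q * (H : ℝ) ^ 2 * (B' * (K : ℝ) ^ 2)) =
      (H : ℝ) * Q * (Real.pi ^ 2 / 4 * B' / K) + ε1 * Q * (H : ℝ) ^ 2 * (Real.pi ^ 2 / 4 * B') := by
    field_simp
  rw [hD] at hC
  nlinarith

private theorem Gen_neg' {B : ℕ} {η t : ℝ} (h : Gen B η t) : Gen B η (-t) := by
  intro l h1 h2
  have := h l h1 h2
  rwa [mul_neg, dI_neg]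

private theorem Gen_int_mul' {B n : ℕ} {η t : ℝ} (h : Gen (B * n) η t) {b : ℤ} (hb : b ≠ 0)
    (hbn : |b| ≤ n) : Gen B η ((b : ℝ) * t) := by
  have h1 : Gen B η ((b.natAbs : ℝ) * t) := by
    refine Gen.nat_mul (Gen.mono h ?_ le_rfl) ?_
    · exact Nat.mul_le_mul_left _ (by zify; exact hbn)
    · exact Int.natAbs_pos.mpr hb
  rcases Int.natAbs_eq b with h2 | h2
  · rw [h2]
    simpa using h1
  · have h3 : (b : ℝ) * t = -((b.natAbs : ℝ) * t) := by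
      have : (b : ℝ) = -(b.natAbs : ℝ) := by
        conv_lhs => rw [h2]
        rw [Int.cast_neg, Int.cast_natCast]
      rw [this, neg_mul]
    rw [h3]
    exact Gen_neg' h1

end SplitAux

open SplitAux in
theorem qlem0 (M : ℕ) (hM : 1 ≤ M) : ∀ B' : ℕ, 1 ≤ B' →
    ∃ B : ℕ, 1 ≤ B ∧ ∀ η : ℝ, 0 < η → ∃ Q : ℕ, ∀ Λ : ℝ, Gen B η Λ →
      ∃ q : ℕ, 1 ≤ q ∧ q ≤ Q ∧ Gen B' (1 / (10 * (B' : ℝ))) (Λ * (q : ℝ) ^ M) := by
  intro B' hB'
  have hB'pos : (0 : ℝ) < B' := by exact_mod_cast hB'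
  set K : ℕ := 5 * B' with hKdef
  have hK1 : 1 ≤ K := by omega
  have hKr : (K : ℝ) = 5 * B' := by rw [hKdef]; push_cast; ring
  set ε1 : ℝ := 1 / (8 * (1 + Real.pi ^ 2 / 4 * B')) with hε1def
  have hε1 : 0 < ε1 := by positivity
  have hε1' : ε1 * (1 + Real.pi ^ 2 / 4 * B') = 1 / 8 := by
    rw [hε1def]
    field_simp
  have hpi : Real.pi ^ 2 / 4 * B' / K ≤ 1 / 2 := by
    rw [hKr]
    have h1 : Real.pi ^ 2 / 4 * B' / (5 * B') = Real.pi ^ 2 / 20 := by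
      field_simp
      norm_num
    rw [h1]
    have h2 := Real.pi_lt_d2
    have h3 := Real.pi_pos
    nlinarith
  obtain ⟨BM, hBM1, hBM⟩ := weyl M hM ε1 hε1
  refine ⟨BM * (B' * K), Nat.mul_pos hBM1 (Nat.mul_pos hB' hK1), ?_⟩
  intro η hη
  obtain ⟨VM, hVM⟩ := hBM η hη
  set S : ℕ := max VM 1 with hSdef
  have hS1 : 1 ≤ S := le_max_right _ _
  have hSpos : (0 : ℝ) < S := by exact_mod_cast hS1
  refine ⟨S, fun Λ hΛ => ?_⟩
  have hlow := GG_lower M 1 0 Λ B' K 1 S hK1 ε1 hε1.le (by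
    intro a b ha hb hab
    have ha0 : a = 0 := by
      have : |a| = 0 := by
        have h1 := abs_nonneg a
        have h2 : ((1 : ℕ) : ℤ) = 1 := rfl
        omega
      exact abs_eq_zero.mp this
    have hb0 : b ≠ 0 := by tauto
    have h1 : Gen BM η ((b : ℝ) * Λ) :=
      Gen_int_mul' (n := B' * K) hΛ hb0 (by push_cast; exact hb)
    have h2 := hVM S (le_max_left _ _)
      (Polynomial.monomial M ((b : ℝ) * Λ))
      (Polynomial.natDegree_monomial_le _) (by simpa using h1)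
    unfold Ss
    convert h2 using 4 with q hq
    simp [Polynomial.eval_monomial]
    ring)
  have hex : ∃ s ∈ range S, 0 < GG M 1 0 Λ B' K 1 s := by
    by_contra hno
    push Not at hno
    have h1 := Finset.sum_nonpos hno
    have h2 : ((1 : ℕ) : ℝ) * S * (1 - Real.pi ^ 2 / 4 * B' / K) ≥ 1 * S * (1 / 2) := by
      push_cast
      exact mul_le_mul_of_nonneg_left (by linarith) (by positivity)
    have h3 : ε1 * S * ((1 : ℕ) : ℝ) ^ 2 * (1 + Real.pi ^ 2 / 4 * B') = S * (1 / 8) := by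
      rw [← hε1']
      push_cast
      ring
    nlinarith
  obtain ⟨s, hs, hspos⟩ := hex
  rw [Finset.mem_range] at hs
  unfold GG at hspos
  have hpsi : 0 < psi B' K (Λ * (s : ℝ) ^ M) := by
    by_contra h
    have := mul_nonpos_of_nonneg_of_nonpos
      (show (0 : ℝ) ≤ ‖Dn 1 (0 * (s : ℝ) ^ 1)‖ ^ 2 by positivity) (not_lt.mp h)
    linarith
  have hGen : Gen B' (1 / (10 * (B' : ℝ))) (Λ * (s : ℝ) ^ M) := by
    by_contra h
    have := psi_nonpos B' hB' _ h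
    linarith
  have hs1 : 1 ≤ s := by
    by_contra h0
    have h0' : s = 0 := by omega
    rw [h0'] at hGen
    have h1 := hGen 1 le_rfl hB'
    have h2 : ((1 : ℕ) : ℝ) * (Λ * ((0 : ℕ) : ℝ) ^ M) = 0 := by
      rw [Nat.cast_zero, zero_pow (by omega)]
      ring
    rw [h2] at h1
    have h3 := dI_le_abs 0
    rw [abs_zero] at h3
    have h4 : 0 < 1 / (10 * (B' : ℝ)) := by positivity
    linarith
  exact ⟨s, hs1, hs.le, hGen⟩

theorem split2 (M : ℕ) (hM : 1 ≤ M) (d : ℕ) (hd : d < M) : ∀ ε : ℝ, 0 < ε → ∀ V' : ℕ,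
    ∀ B' : ℕ, 1 ≤ B' → ∃ B : ℕ, 1 ≤ B ∧ ∀ η : ℝ, 0 < η → ∃ V0 : ℕ, ∀ Λ : ℝ, Gen B η Λ →
      ∀ P : ℝ[X], P.natDegree ≤ d → ∀ V ≥ V0, ∀ (g h : ℕ → ℝ) (ε0 : ℝ),
        (∀ s q ℓ : ℕ, 1 ≤ q → V' ≤ ℓ → 1 ≤ ℓ → s + q * (ℓ - 1) < V →
          Gen B' (1 / (10 * (B' : ℝ))) (Λ * (q : ℝ) ^ M) →
          (∃ κ : ℝ, ∀ v < ℓ, dI (P.eval ((s : ℝ) + q * v) - κ) ≤ ε) →
          |∑ v ∈ range ℓ, g (s + q * v)| ≤ ε0 * ℓ + ∑ v ∈ range ℓ, h (s + q * v)) →
        |∑ v ∈ range V, g v| ≤ ε0 * V + ∑ v ∈ range V, h v := by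
  rcases Nat.lt_or_ge 1 M with h1 | h1
  · exact split M h1 d hd
  · obtain rfl : d = 0 := by omega
    intro ε hε V' B' hB'
    obtain ⟨B, hB, hBQ⟩ := qlem0 M hM B' hB'
    refine ⟨B, hB, fun η hη => ?_⟩
    obtain ⟨Q, hQ⟩ := hBQ η hη
    refine ⟨Q * max V' 1, fun Λ hΛ P hP V hV g h ε0 hyp => ?_⟩
    obtain ⟨q, hq1, hqQ, hgen⟩ := hQ Λ hΛ
    refine chunk q (max V' 1) V hq1 (le_max_right _ _)
      ((Nat.mul_le_mul_right _ hqQ).trans hV) g h ε0 ?_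
    intro s ℓ hℓ _ hs
    refine hyp s q ℓ hq1 ((le_max_left _ _).trans hℓ) ((le_max_right _ _).trans hℓ) hs hgen
      ⟨P.coeff 0, fun v _ => ?_⟩
    have hPc : P = C (P.coeff 0) := eq_C_of_natDegree_le_zero hP
    rw [hPc, eval_C, coeff_C_zero, sub_self]
    have : dI 0 = 0 := by simp [dI]
    rw [this]
    exact hε.le

end Pool.Agent.Work.MP_215640_nt
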