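import Pool.Agent.Work.MP_215640_nt.S.LevelExpand2
import Pool.Agent.Work.MP_215640_nt.Equi

/-!
MODULE RECURBASE2. As RECURBASE, with a general difference `T` (`N^(1-om)/CT ≤ T ≤ CT N^(1-om)`,
`om = cc w i / M`) and every `M ≥ 1`: all levels below level `i` are tame, so level `i` is
equidistributed. `dg w om i = M` since `cc w i / om = M`; the difference of the top coefficients is
`≤ (1/2) C' N^(-mu) a^(c-M) (CT N^(1-om))^M L^M ≤ C N^(-mu) → 0` since `c - M + (1 - om) M = 0`.
-/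

set_option autoImplicit false

namespace Pool.Agent.Work.MP_215640_nt

open Finset Polynomial Filter

private theorem rb2_lin (b m : ℝ) :
    (Polynomial.C b + Polynomial.C m * X : ℝ[X]).natDegree ≤ 1 := by
  rw [add_comm]
  exact natDegree_linear_le

private theorem rb2_coeff_comp (R : ℝ[X]) (M : ℕ) (hR : R.natDegree ≤ M) (b m : ℝ) :
    (R.comp (Polynomial.C b + Polynomial.C m * X)).coeff M = R.coeff M * m ^ M := by
  have hlin := rb2_lin b m
  have h1 : R.comp (Polynomial.C b + Polynomial.C m * X) =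
      ∑ r ∈ range (M + 1), Polynomial.C (R.coeff r) * (Polynomial.C b + Polynomial.C m * X) ^ r := by
    rw [comp, eval₂_eq_sum_range' Polynomial.C (Nat.lt_succ_of_le hR)]
  rw [h1, finsetSum_coeff, sum_range_succ, sum_eq_zero, zero_add, coeff_C_mul]
  · have h2 := coeff_pow_of_natDegree_le (m := M) hlin
    rw [mul_one] at h2
    rw [h2]
    simp
  · intro r hr
    rw [mem_range] at hr
    have hz : ((Polynomial.C b + Polynomial.C m * X : ℝ[X]) ^ r).coeff M = 0 := by
      apply coeff_eq_zero_of_natDegree_lt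
      refine lt_of_le_of_lt (natDegree_pow_le_of_le r hlin) ?_
      omega
    rw [coeff_C_mul, hz, mul_zero]

private theorem rb2_pat {w : ℕ → Bool} {K i : ℕ} (π : ℕ → Bool) {d : ℕ → ℕ} {mu cst : ℝ}
    {N T a u q V : ℕ} (hq : Even q)
    (ht : ∀ j ∈ Sm w K i, Tame w d mu cst N T a u q V j) {v v' : ℕ} (hv : v < V) (hv' : v' < V)
    (hp : Pat w π (insert 0 (Sm w K i)) (a + T * (u + q * v))) :
    Pat w π (insert 0 (Sm w K i)) (a + T * (u + q * v')) := by
  classical
  intro j hj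
  have h1 := hp j hj
  rcases mem_insert.1 hj with rfl | hj
  · rw [F_zero] at h1 ⊢
    have h2 : (a + T * (u + q * v')) % 2 = (a + T * (u + q * v)) % 2 := by
      obtain ⟨r, rfl⟩ := hq
      have e1 : a + T * (u + (r + r) * v') = (a + T * u) + 2 * (T * (r * v')) := by ring
      have e2 : a + T * (u + (r + r) * v) = (a + T * u) + 2 * (T * (r * v)) := by ring
      rw [e1, e2, Nat.add_mul_mod_self_left, Nat.add_mul_mod_self_left]
    rw [h2]
    exact h1
  · obtain ⟨⟨b, hb⟩, -⟩ := ht j hj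
    rw [hb v' hv']
    rw [hb v hv] at h1
    exact h1

theorem recur_base2 {w : ℕ → Bool} {K i : ℕ} {mu : ℝ} {M : ℕ} (h : IsCtx2 w K i mu M)
    (π : ℕ → Bool) (α β : ℝ) (h0 : 0 ≤ α) (h1 : α ≤ β) (h2 : β ≤ 1) :
    ∀ ε : ℝ, 0 < ε → ∃ B : ℕ, 1 ≤ B ∧ ∀ η : ℝ, 0 < η → ∃ V0 : ℕ, ∀ L : ℕ, ∀ CT : ℝ, 1 ≤ CT →
      ∀ cst : ℝ, 0 ≤ cst → ∀ᶠ N : ℕ in atTop, ∀ T a u q V : ℕ,
        (N : ℝ) ^ (1 - cc w i / M) / CT ≤ T → (T : ℝ) ≤ CT * (N : ℝ) ^ (1 - cc w i / M) →
        N ≤ a → a < 2 * N → 1 ≤ q → Even q → V0 ≤ V →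
        (∀ v < V, u + q * v ≤ L) → Gen B η (lam2 w i M T a * (q : ℝ) ^ M) →
        (∀ j ∈ Sm w K i, Tame w (dg w (cc w i / M)) mu cst N T a u q V j) →
        |∑ v ∈ range V, gf w π (insert 0 (Sm w K i)) i α β (a + T * (u + q * v))|
          ≤ ε * V := by
  classical
  intro ε hε
  have hM1 : 1 ≤ M := h.one_le_M
  have hM0 : (0 : ℝ) < M := by exact_mod_cast (show 0 < M by omega)
  have hc0 : 0 < cc w i := cc_pos w i
  obtain ⟨om, hom⟩ : ∃ om, om = cc w i / M := ⟨_, rfl⟩
  have hom0 : 0 < om := by rw [hom]; positivity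
  have hom1 : om < 1 := by rw [hom, div_lt_one hM0]; exact h.c_lt_M
  have homM : om * M = cc w i := by rw [hom]; field_simp
  have hdgi : dg w om i = M := by
    unfold dg
    have : cc w i / om = M := by rw [hom]; field_simp
    rw [this, Nat.floor_natCast]
  rw [← hom]
  obtain ⟨ε1, hε1, B, hB, hequi⟩ := equi M hM1 α β h0 h1 h2 ε hε
  refine ⟨B, hB, fun η hη => ?_⟩
  obtain ⟨V1, hV1⟩ := hequi (η / 2) (by positivity)
  refine ⟨max V1 2, fun L CT hCT cst hcst => ?_⟩
  obtain ⟨C', hC', hlev⟩ := level_expand2 w hom0 hom1 h.mu_pos (by rw [hom]; exact h.mu_le) i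
    h.one_le_i CT hCT cst hcst L
  have hlev' := hlev (2 * ε1) (by positivity)
  have htend : Tendsto (fun N : ℕ => (B : ℝ) * (1 / 2 * C' * CT ^ M * (L : ℝ) ^ M) *
      (N : ℝ) ^ (-mu)) atTop (nhds 0) := by
    have h3 := (tendsto_rpow_neg_atTop h.mu_pos).comp tendsto_natCast_atTop_atTop
    have h4 := h3.const_mul ((B : ℝ) * (1 / 2 * C' * CT ^ M * (L : ℝ) ^ M))
    rw [mul_zero] at h4
    exact h4
  have hev := htend.eventually (gt_mem_nhds (show (0 : ℝ) < η / 2 by positivity))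
  filter_upwards [hlev', hev, eventually_ge_atTop 1] with N hN1 hN2 hN3
  intro T a u q V hTlow hTN haN ha2 hq1 hqe hV hL hgen htame
  have hV1' : V1 ≤ V := (le_max_left _ _).trans hV
  have hV2 : 2 ≤ V := (le_max_right _ _).trans hV
  by_cases hp : Pat w π (insert 0 (Sm w K i)) (a + T * (u + q * 0))
  · -- the pattern holds everywhere
    have hpar : pr w i = 0 ∨ Tame w (dg w om) mu cst N (T) a u q V (pr w i) := by
      by_cases hz : pr w i = 0
      · exact Or.inl hz
      · right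
        apply htame
        unfold Sm
        rw [mem_filter, mem_Icc]
        have hlt := pr_lt w i (by have := h.one_le_i; omega)
        have := h.i_le
        exact ⟨⟨by omega, by omega⟩, pr_spec w i h.one_le_i hz⟩
    obtain ⟨R, hRd, hRc, hRx⟩ := hN1 T a u q V hTN haN ha2 hL hpar
    rw [hdgi] at hRd
    have haR : (0 : ℝ) < a := by
      have : 0 < a := by omega
      exact_mod_cast this
    have hNR : (0 : ℝ) < N := by exact_mod_cast hN3
    obtain ⟨P, hP⟩ : ∃ P : ℝ[X], P = Polynomial.C ((a : ℝ) ^ cc w i / 2) *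
        R.comp (Polynomial.C ((T : ℝ) * u / a) + Polynomial.C ((T : ℝ) * q / a) * X) := ⟨_, rfl⟩
    have hPd : P.natDegree ≤ M := by
      rw [hP]
      refine (natDegree_C_mul_le _ _).trans (natDegree_comp_le.trans ?_)
      have hlin := rb2_lin ((T : ℝ) * u / a) ((T : ℝ) * q / a)
      calc R.natDegree * _ ≤ M * 1 := Nat.mul_le_mul hRd hlin
        _ = M := mul_one M
    have hPe : ∀ v : ℕ, P.eval (v : ℝ) =
        1 / 2 * ((a : ℝ) ^ cc w i * R.eval ((T : ℝ) * ((u : ℝ) + q * v) / a)) := by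
      intro v
      rw [hP, eval_mul, eval_C, eval_comp, eval_add, eval_C, eval_mul, eval_C, eval_X]
      have : (T : ℝ) * u / a + (T : ℝ) * q / a * v = (T : ℝ) * ((u : ℝ) + q * v) / a := by ring
      rw [this]
      ring
    have hPc : P.coeff M = 1 / 2 * R.coeff M * (a : ℝ) ^ (cc w i - M) * (T : ℝ) ^ M *
        (q : ℝ) ^ M := by
      rw [hP, coeff_C_mul, rb2_coeff_comp R M hRd, Real.rpow_sub haR, Real.rpow_natCast,
        div_pow, mul_pow]
      field_simp
    have hqL : (q : ℝ) ≤ L := by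
      have := hL 1 (by omega)
      have : q ≤ L := by omega
      exact_mod_cast this
    have hCT0 : 0 < CT := by linarith
    have hΛ : |P.coeff M - lam2 w i M T a * (q : ℝ) ^ M| ≤
        (1 / 2 * C' * CT ^ M * (L : ℝ) ^ M) * (N : ℝ) ^ (-mu) := by
      unfold lam2
      rw [hPc, ← hom]
      have e1 : 1 / 2 * R.coeff M * (a : ℝ) ^ (cc w i - M) * (T : ℝ) ^ M * (q : ℝ) ^ M -
          1 / 2 * (Pst w (dg w om) i).coeff M * (a : ℝ) ^ (cc w i - M) * (T : ℝ) ^ M *
            (q : ℝ) ^ M =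
          (R.coeff M - (Pst w (dg w om) i).coeff M) *
            (1 / 2 * ((a : ℝ) ^ (cc w i - M) * (T : ℝ) ^ M * (q : ℝ) ^ M)) := by ring
      rw [e1, abs_mul, abs_of_nonneg (a := 1 / 2 * _) (by positivity)]
      have f1 : (a : ℝ) ^ (cc w i - M) ≤ (N : ℝ) ^ (cc w i - M) := by
        apply Real.rpow_le_rpow_of_nonpos hNR (by exact_mod_cast haN)
        have := h.c_lt_M
        linarith
      have f2 : (T : ℝ) ^ M ≤ CT ^ M * (N : ℝ) ^ ((1 - om) * M) := by
        rw [Real.rpow_mul hNR.le, Real.rpow_natCast, ← mul_pow]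
        exact pow_le_pow_left₀ (by positivity) hTN M
      have f3 : (q : ℝ) ^ M ≤ (L : ℝ) ^ M := pow_le_pow_left₀ (by positivity) hqL M
      have f4 : (a : ℝ) ^ (cc w i - M) * (T : ℝ) ^ M * (q : ℝ) ^ M ≤
          (N : ℝ) ^ (cc w i - M) * (CT ^ M * (N : ℝ) ^ ((1 - om) * M)) * (L : ℝ) ^ M := by
        gcongr
      have f5 : (N : ℝ) ^ (-mu) * ((N : ℝ) ^ (cc w i - M) * (N : ℝ) ^ ((1 - om) * M)) =
          (N : ℝ) ^ (-mu) := by
        rw [← Real.rpow_add hNR, ← Real.rpow_add hNR]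
        congr 1
        linarith
      calc |R.coeff M - (Pst w (dg w om) i).coeff M| *
            (1 / 2 * ((a : ℝ) ^ (cc w i - M) * (T : ℝ) ^ M * (q : ℝ) ^ M))
          ≤ (C' * (N : ℝ) ^ (-mu)) *
            (1 / 2 * ((N : ℝ) ^ (cc w i - M) * (CT ^ M * (N : ℝ) ^ ((1 - om) * M)) *
              (L : ℝ) ^ M)) := by
            apply mul_le_mul (hRc M)
            · linarith
            · positivity
            · positivity
        _ = (1 / 2 * C' * CT ^ M * (L : ℝ) ^ M) * ((N : ℝ) ^ (-mu) * ((N : ℝ) ^ (cc w i - M) *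
              (N : ℝ) ^ ((1 - om) * M))) := by ring
        _ = _ := by rw [f5]
    have hgen' : Gen B (η / 2) (P.coeff M) := by
      apply hgen.perturb
      calc (B : ℝ) * |P.coeff M - lam2 w i M T a * (q : ℝ) ^ M|
          ≤ B * ((1 / 2 * C' * CT ^ M * (L : ℝ) ^ M) * (N : ℝ) ^ (-mu)) :=
            mul_le_mul_of_nonneg_left hΛ (by positivity)
        _ = (B : ℝ) * (1 / 2 * C' * CT ^ M * (L : ℝ) ^ M) * (N : ℝ) ^ (-mu) := by
            ring
        _ ≤ η / 2 := le_of_lt hN2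
    have hfin := hV1 V hV1' P hPd hgen' (fun v => xx w i (a + T * (u + q * v)) / 2) (by
      intro v hv
      have h5 := hRx v hv
      rw [hPe]
      have e1 : xx w i (a + T * (u + q * v)) / 2 -
          1 / 2 * ((a : ℝ) ^ cc w i * R.eval ((T : ℝ) * ((u : ℝ) + q * v) / a)) =
          1 / 2 * (xx w i (a + T * (u + q * v)) -
            (a : ℝ) ^ cc w i * R.eval ((T : ℝ) * ((u : ℝ) + q * v) / a)) := by ring
      rw [e1, abs_mul, abs_of_pos (by norm_num : (0 : ℝ) < 1 / 2)]
      linarith)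
    have hsum : ∑ v ∈ range V, gf w π (insert 0 (Sm w K i)) i α β (a + T * (u + q * v)) =
        ∑ v ∈ range V, arc α β (xx w i (a + T * (u + q * v)) / 2) - (β - α) * V := by
      have e1 : ∀ v ∈ range V, gf w π (insert 0 (Sm w K i)) i α β (a + T * (u + q * v)) =
          arc α β (xx w i (a + T * (u + q * v)) / 2) - (β - α) := by
        intro v hv
        unfold gf
        rw [if_pos]
        exact rb2_pat π hqe htame (show 0 < V by omega) (mem_range.1 hv) hp
      rw [sum_congr rfl e1, sum_sub_distrib, sum_const, card_range, nsmul_eq_mul]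
      ring
    rw [hsum]
    exact hfin
  · -- the pattern fails everywhere
    have hz : ∀ v ∈ range V, gf w π (insert 0 (Sm w K i)) i α β
        (a + T * (u + q * v)) = 0 := by
      intro v hv
      unfold gf
      rw [if_neg]
      intro hpv
      exact hp (rb2_pat π hqe htame (mem_range.1 hv) (show 0 < V by omega) hpv)
    rw [sum_eq_zero hz, abs_zero]
    positivity

end Pool.Agent.Work.MP_215640_nt
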